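import Pool.Agent.H756.RP.Defs

set_option autoImplicit false

/-!
The diagram of a polygon in general position.

Elementary facts to prove first (n ≥ 3, `Gen p`), with `P(i,s)` the projection of `ept p i s`:
* `det p j i = - det p i j`, `gap p j i = - gap p i j`, `Cr p i j ↔ Cr p j i`, `¬ Cr p i i`;
* if `det p i j ≠ 0` then (`P(i,s) = P(j,r)` iff `s = par p i j` and `r = par p j i`) (Cramer);
* adjacent edges do not cross (`j = nx i`: if `det ≠ 0` then `par p i j = 1`), in fact by `noncol` and
  `n ≥ 3` we have `det p i (nx i) ≠ 0`;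
* if `0 ≤ s, r < 1`, `(i,s) ≠ (j,r)` and `P(i,s) = P(j,r)` then `Cr p i j`, `s = par p i j`, `r = par p j i`:
  for `i = j` the vertices `i`, `nx i` would have the same projection (contradicts `noncol` with a third vertex);
  for adjacent edges the only common point has parameter `1` on one of them; for non-adjacent edges
  `det p i j = 0` would make four vertices collinear (or a vertex would lie on the line of the other edge),
  and `s = 0` (or `r = 0`) would put a vertex on the line of the other edge, contradicting `noncol`.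
Existence: apply `hword` to the first two components of `dat p` (`notrip` gives h4), and put
`a x = (e x).1`, `t x = par p (e x).1 (e x).2`, `w c = (dat p).2.2 (e (c,false)).1 (e (c,false)).2`.
Uniqueness (`desc_pol`): let `G, w, a, t` describe `p` and let `G', e` be the word used in the definition of `pol`
(it exists by `hword`).  For a passage `x = (c,b)` of `G` the edges `a (c,b)`, `a (c,!b)` cross and
`t (c,b) = par p (a (c,b)) (a (c,!b))`; so `x ↦ (a (c,b), a (c,!b))` is a map to the crossing pairs, injective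
(by the order condition `(a,t)` is injective), surjective (third condition of `Describes` at the two parameters of
a crossing pair); the same for `e` (injective by its order condition and `notrip`).  Hence a bijection
`φ : Fin N × Bool ≃ Fin N' × Bool` with `e (φ (c,b)) = (a (c,b), a (c,!b))`; it is strictly monotone for the orders
given by `G` and `G'`, so `G' (φ x) = G x` as natural numbers (two order isomorphisms of a finite chain), and
`hrelabel` applies.  The signs agree since `det` and `gap` are antisymmetric and not zero.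
-/

namespace Pool.Agent.H756.RP

open LaurentPolynomial Pool.Agent.H832R2.JR

/-- statement of `word_exists` (other subtask) -/
def SWord : Prop := ∀ (n : ℕ) (X : Fin n → Fin n → Bool) (O : Fin n → Fin n → Fin n → Bool),
    (∀ i, X i i = false) → (∀ i j, X i j = X j i) → (∀ i j, O i j j = false) →
    (∀ i j k, X i j = true → X i k = true → j ≠ k → (O i j k = true ∨ O i k j = true)) →
    (∀ i j k l, O i j k = true → O i k l = true → O i j l = true) →
    ∃ (N : ℕ) (G : GaussWord N) (e : Fin N × Bool → Fin n × Fin n), IsWord X O G e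

/-- statement of `relabel` (other subtask) -/
def SRelabel : Prop := ∀ (N N' : ℕ) (G : GaussWord N) (G' : GaussWord N')
    (φ : Fin N × Bool ≃ Fin N' × Bool),
    (∀ c b, φ (c, !b) = ((φ (c, b)).1, !(φ (c, b)).2)) → (∀ x, (G' (φ x) : ℕ) = G x) →
    ∀ (w : Fin N → Bool) (w' : Fin N' → Bool), (∀ c b, w' (φ (c, b)).1 = w c) →
    fPoly G w = fPoly G' w'

section Elementary

variable {n : ℕ}

theorem ept_x (p : Fin n → Pt) (i : Fin n) (s : ℝ) :
    (ept p i s).1 = (1 - s) * (p i).1 + s * (p (nx i)).1 := by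
  simp [ept]

theorem ept_y (p : Fin n → Pt) (i : Fin n) (s : ℝ) :
    (ept p i s).2.1 = (1 - s) * (p i).2.1 + s * (p (nx i)).2.1 := by
  simp [ept]

theorem ept_z (p : Fin n → Pt) (i : Fin n) (s : ℝ) :
    (ept p i s).2.2 = hgt p i s := by
  simp [ept, hgt]

theorem det_swap (p : Fin n → Pt) (i j : Fin n) : det p j i = - det p i j := by
  unfold det; ring

theorem gap_swap (p : Fin n → Pt) (i j : Fin n) : gap p j i = - gap p i j := by
  unfold gap; ring

theorem Cr_symm {p : Fin n → Pt} {i j : Fin n} (h : Cr p i j) : Cr p j i := by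
  refine ⟨?_, h.2.2, h.2.1⟩
  rw [det_swap]
  exact neg_ne_zero.mpr h.1

theorem Cr_comm (p : Fin n → Pt) (i j : Fin n) : Cr p i j ↔ Cr p j i :=
  ⟨Cr_symm, Cr_symm⟩

theorem Cr_irrefl (p : Fin n → Pt) (i : Fin n) : ¬ Cr p i i := by
  intro h
  apply h.1
  unfold det; ring

/-- Cramer's rule -/
theorem meet {p : Fin n → Pt} {i j : Fin n} (hd : det p i j ≠ 0) (s r : ℝ) :
    ((ept p i s).1 = (ept p j r).1 ∧ (ept p i s).2.1 = (ept p j r).2.1) ↔
      (s = par p i j ∧ r = par p j i) := by
  have hd' : det p j i ≠ 0 := by rw [det_swap]; exact neg_ne_zero.mpr hd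
  rw [ept_x, ept_x, ept_y, ept_y]
  constructor
  · rintro ⟨hx, hy⟩
    constructor
    · unfold par
      rw [eq_div_iff hd]
      unfold det
      linear_combination ((p (nx j)).2.1 - (p j).2.1) * hx - ((p (nx j)).1 - (p j).1) * hy
    · unfold par
      rw [eq_div_iff hd']
      unfold det
      linear_combination (-((p (nx i)).2.1 - (p i).2.1)) * hx + ((p (nx i)).1 - (p i).1) * hy
  · rintro ⟨hs, hr⟩
    unfold par at hs hr
    rw [eq_div_iff hd] at hs
    rw [eq_div_iff hd'] at hr
    have hdd : det p j i = - det p i j := det_swap p i j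
    rw [hdd] at hr
    constructor
    · apply mul_left_cancel₀ hd
      have e : det p i j = ((p (nx i)).1 - (p i).1) * ((p (nx j)).2.1 - (p j).2.1) -
        ((p (nx i)).2.1 - (p i).2.1) * ((p (nx j)).1 - (p j).1) := rfl
      linear_combination ((p (nx i)).1 - (p i).1) * hs + ((p (nx j)).1 - (p j).1) * hr +
        ((p i).1 - (p j).1) * e
    · apply mul_left_cancel₀ hd
      have e : det p i j = ((p (nx i)).1 - (p i).1) * ((p (nx j)).2.1 - (p j).2.1) -
        ((p (nx i)).2.1 - (p i).2.1) * ((p (nx j)).1 - (p j).1) := rfl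
      linear_combination ((p (nx i)).2.1 - (p i).2.1) * hs + ((p (nx j)).2.1 - (p j).2.1) * hr +
        ((p i).2.1 - (p j).2.1) * e

theorem nx_ne {n : ℕ} (hn : 3 ≤ n) (i : Fin n) : nx i ≠ i := by
  obtain ⟨m, rfl⟩ : ∃ m, n = m + 1 := ⟨n - 1, by omega⟩
  unfold nx
  intro h
  rw [finRotate_apply] at h
  have h2 := congrArg Fin.val h
  rw [Fin.val_add_one] at h2
  split_ifs at h2 with h3
  · have h4 := congrArg Fin.val h3
    simp at h4
    omega
  · omega

theorem nx_nx_ne {n : ℕ} (hn : 3 ≤ n) (i : Fin n) : nx (nx i) ≠ i := by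
  obtain ⟨m, rfl⟩ : ∃ m, n = m + 1 := ⟨n - 1, by omega⟩
  unfold nx
  intro h
  rw [finRotate_apply, finRotate_apply] at h
  have h2 := congrArg Fin.val h
  rw [Fin.val_add_one] at h2
  split_ifs at h2 with h3
  · have h4 := congrArg Fin.val h3
    rw [Fin.val_add_one] at h4
    split_ifs at h4 with h5
    · simp at h4
      omega
    · simp at h4
      omega
  · rw [Fin.val_add_one] at h2
    split_ifs at h2 with h5
    · have h4 := congrArg Fin.val h5
      simp at h4
      omega
    · omega

theorem exists_third {n : ℕ} (hn : 3 ≤ n) (i j : Fin n) : ∃ k : Fin n, k ≠ i ∧ k ≠ j := by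
  have : ∃ k ∈ (Finset.univ : Finset (Fin n)), k ∉ ({i, j} : Finset (Fin n)) := by
    apply Finset.exists_mem_notMem_of_card_lt_card
    have := Finset.card_le_two (a := i) (b := j)
    simp only [Finset.card_univ, Fintype.card_fin]
    omega
  obtain ⟨k, -, hk⟩ := this
  simp only [Finset.mem_insert, Finset.mem_singleton, not_or] at hk
  exact ⟨k, hk.1, hk.2⟩

theorem par_nx {p : Fin n → Pt} {i : Fin n} (hd : det p i (nx i) ≠ 0) : par p i (nx i) = 1 := by
  have h := (meet hd 1 0).1 (by
    rw [ept_x, ept_x, ept_y, ept_y]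
    constructor <;> ring)
  exact h.1.symm

theorem det_nx_ne {n : ℕ} (hn : 3 ≤ n) {p : Fin n → Pt} (hp : Gen p) (i : Fin n) :
    det p i (nx i) ≠ 0 := by
  have h := hp.noncol i (nx i) (nx (nx i)) (nx_ne hn i).symm (nx_ne hn (nx i)).symm
    (nx_nx_ne hn i).symm
  intro h0
  apply h
  unfold det at h0
  linear_combination h0

theorem common {n : ℕ} (hn : 3 ≤ n) {p : Fin n → Pt} (hp : Gen p) {i j : Fin n} {s r : ℝ}
    (hs0 : 0 ≤ s) (hs1 : s < 1) (hr0 : 0 ≤ r) (hr1 : r < 1) (hne : (i, s) ≠ (j, r))
    (hx : (ept p i s).1 = (ept p j r).1) (hy : (ept p i s).2.1 = (ept p j r).2.1) :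
    Cr p i j ∧ s = par p i j ∧ r = par p j i := by
  by_cases hij : i = j
  · exfalso
    subst hij
    have hsr : s - r ≠ 0 := by
      intro h
      apply hne
      rw [sub_eq_zero.mp h]
    rw [ept_x, ept_x] at hx
    rw [ept_y, ept_y] at hy
    have h1 : (p (nx i)).1 - (p i).1 = 0 := by
      apply mul_left_cancel₀ hsr
      linear_combination hx
    have h2 : (p (nx i)).2.1 - (p i).2.1 = 0 := by
      apply mul_left_cancel₀ hsr
      linear_combination hy
    obtain ⟨k, hk1, hk2⟩ := exists_third hn i (nx i)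
    apply hp.noncol i (nx i) k (nx_ne hn i).symm hk2.symm hk1.symm
    rw [h1, h2]; ring
  by_cases h1 : j = nx i
  · exfalso
    subst h1
    have hd := det_nx_ne hn hp i
    have h := (meet hd s r).1 ⟨hx, hy⟩
    rw [par_nx hd] at h
    linarith [h.1]
  by_cases h2 : i = nx j
  · exfalso
    subst h2
    have hd := det_nx_ne hn hp j
    have h := (meet hd r s).1 ⟨hx.symm, hy.symm⟩
    rw [par_nx hd] at h
    linarith [h.1]
  have hx' := hx
  have hy' := hy
  rw [ept_x, ept_x] at hx'
  rw [ept_y, ept_y] at hy'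
  have hA : -r * det p i j ≠ 0 := by
    have h := hp.noncol i (nx i) j (nx_ne hn i).symm (fun h => h1 h.symm) hij
    intro h0
    apply h
    unfold det at h0
    linear_combination h0 - ((p (nx i)).1 - (p i).1) * hy' + ((p (nx i)).2.1 - (p i).2.1) * hx'
  have hB : -s * det p j i ≠ 0 := by
    have h := hp.noncol j (nx j) i (nx_ne hn j).symm (fun h => h2 h.symm) (fun h => hij h.symm)
    intro h0
    apply h
    unfold det at h0
    linear_combination h0 + ((p (nx j)).1 - (p j).1) * hy' - ((p (nx j)).2.1 - (p j).2.1) * hx'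
  have hd : det p i j ≠ 0 := right_ne_zero_of_mul hA
  have hr : r ≠ 0 := fun h => hA (by rw [h]; ring)
  have hs : s ≠ 0 := fun h => hB (by rw [h]; ring)
  have hm := (meet hd s r).1 ⟨hx, hy⟩
  refine ⟨⟨hd, ⟨?_, ?_⟩, ?_, ?_⟩, hm⟩
  · rw [← hm.1]; exact lt_of_le_of_ne hs0 hs.symm
  · rw [← hm.1]; exact hs1
  · rw [← hm.2]; exact lt_of_le_of_ne hr0 hr.symm
  · rw [← hm.2]; exact hr1

theorem sign_iff {d g : ℝ} (hd : d ≠ 0) (hg : g ≠ 0) : 0 < d * g ↔ (0 < d ↔ 0 < g) := by
  rcases lt_or_gt_of_ne hd with h1 | h1 <;> rcases lt_or_gt_of_ne hg with h2 | h2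
  · exact ⟨fun _ => ⟨fun h => absurd h (not_lt.mpr h1.le), fun h => absurd h (not_lt.mpr h2.le)⟩,
      fun _ => mul_pos_of_neg_of_neg h1 h2⟩
  · constructor
    · intro h
      exact absurd h (not_lt.mpr (mul_nonpos_of_nonpos_of_nonneg h1.le h2.le))
    · intro h
      exact absurd (h.2 h2) (not_lt.mpr h1.le)
  · constructor
    · intro h
      exact absurd h (not_lt.mpr (mul_nonpos_of_nonneg_of_nonpos h1.le h2.le))
    · intro h
      exact absurd (h.1 h1) (not_lt.mpr h2.le)
  · exact ⟨fun _ => ⟨fun _ => h2, fun _ => h1⟩, fun _ => mul_pos h1 h2⟩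

theorem dat_X (p : Fin n → Pt) (i j : Fin n) : (dat p).1 i j = true ↔ Cr p i j := by
  simp [dat]

theorem dat_O (p : Fin n → Pt) (i j k : Fin n) :
    (dat p).2.1 i j k = true ↔ par p i j < par p i k := by
  simp [dat]

theorem dat_S (p : Fin n → Pt) (i j : Fin n) :
    (dat p).2.2 i j = true ↔ 0 < det p i j * gap p i j := by
  simp [dat]

theorem dat_S_symm (p : Fin n → Pt) (i j : Fin n) : (dat p).2.2 i j = (dat p).2.2 j i := by
  rw [Bool.eq_iff_iff, dat_S, dat_S, det_swap p j i, gap_swap p j i]
  rw [neg_mul_neg]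

end Elementary

section Word

variable {n : ℕ}

theorem exists_word (hword : SWord) {p : Fin n → Pt} (hp : Gen p) :
    ∃ (N : ℕ) (G : GaussWord N) (e : Fin N × Bool → Fin n × Fin n),
      IsWord (dat p).1 (dat p).2.1 G e := by
  apply hword
  · intro i
    rw [Bool.eq_false_iff]
    intro h
    exact Cr_irrefl p i ((dat_X p i i).1 h)
  · intro i j
    rw [Bool.eq_iff_iff, dat_X, dat_X]
    exact Cr_comm p i j
  · intro i j
    rw [Bool.eq_false_iff]
    intro h
    exact lt_irrefl _ ((dat_O p i j j).1 h)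
  · intro i j k hj hk hjk
    rw [dat_X] at hj hk
    rw [dat_O, dat_O]
    exact lt_or_gt_of_ne (hp.notrip i j k hj hk hjk)
  · intro i j k l h1 h2
    rw [dat_O] at *
    exact h1.trans h2

theorem desc_word_swap {X : Fin n → Fin n → Bool} {O : Fin n → Fin n → Fin n → Bool} {N : ℕ}
    {G : GaussWord N} {e : Fin N × Bool → Fin n × Fin n} (h : IsWord X O G e)
    (c : Fin N) (b : Bool) : e (c, !b) = (e (c, b)).swap := by
  cases b
  · exact h.2.1 c
  · have := h.2.1 c
    rw [this]
    simp

end Word

theorem desc_exists (hword : SWord) {n : ℕ} (hn : 3 ≤ n) (p : Fin n → Pt) (hp : Gen p) :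
    ∃ (N : ℕ) (G : GaussWord N) (w : Fin N → Bool), Describes p G w := by
  obtain ⟨N, G, e, h⟩ := exists_word hword hp
  have hCr : ∀ x, Cr p (e x).1 (e x).2 := fun x => (dat_X p _ _).1 (h.1 x)
  refine ⟨N, G, fun c => (dat p).2.2 (e (c, false)).1 (e (c, false)).2,
    fun x => (e x).1, fun x => par p (e x).1 (e x).2, ?_, ?_, ?_, ?_, ?_⟩
  · intro x
    exact (hCr x).2.1
  · intro c
    have hs := h.2.1 c
    have h1 : (e (c, true)).1 = (e (c, false)).2 := by rw [hs]; rfl
    have h2 : (e (c, true)).2 = (e (c, false)).1 := by rw [hs]; rfl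
    simp only [h1, h2]
    exact (meet (hCr (c, false)).1 _ _).2 ⟨rfl, rfl⟩
  · intro i j s r hs0 hs1 hr0 hr1 hne hx hy
    obtain ⟨hC, hs, hr⟩ := common hn hp hs0 hs1 hr0 hr1 hne hx hy
    obtain ⟨⟨c, b⟩, hx⟩ := h.2.2.1 i j ((dat_X p i j).2 hC)
    refine ⟨c, b, ?_, ?_, ?_, ?_⟩
    · simp only [hx]
    · simp only [hx]; exact hs.symm
    · simp only [desc_word_swap h, hx, Prod.swap]
    · simp only [desc_word_swap h, hx, Prod.swap]; exact hr.symm
  · intro x y
    rw [h.2.2.2 x y, dat_O]
    constructor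
    · rintro (h1 | ⟨h1, h2⟩)
      · exact Or.inl h1
      · right
        refine ⟨h1, ?_⟩
        simp only [← h1]
        exact h2
    · rintro (h1 | ⟨h1, h2⟩)
      · exact Or.inl h1
      · right
        refine ⟨h1, ?_⟩
        simp only [← h1] at h2
        exact h2
  · intro c
    have hs := h.2.1 c
    have h1 : (e (c, true)).1 = (e (c, false)).2 := by rw [hs]; rfl
    have h2 : (e (c, true)).2 = (e (c, false)).1 := by rw [hs]; rfl
    simp only [h1, h2, ept_z]
    have hc := hCr (c, false)
    have hg := hp.nogap _ _ hc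
    refine ⟨hc.1, ?_, ?_⟩
    · intro h0
      apply hg
      unfold gap
      rw [h0]; ring
    · rw [dat_S, sign_iff hc.1 hg]
      unfold gap
      rw [sub_pos]

/-- the polynomial of any description is computed from any word of the data -/
theorem desc_word (hrelabel : SRelabel) {n : ℕ} (p : Fin n → Pt)
    (hp : Gen p) {N N' : ℕ} (G : GaussWord N) (w : Fin N → Bool) (h : Describes p G w)
    (G' : GaussWord N') (e : Fin N' × Bool → Fin n × Fin n)
    (he : IsWord (dat p).1 (dat p).2.1 G' e) :
    fPoly G w = fPoly G' (fun c => (dat p).2.2 (e (c, false)).1 (e (c, false)).2) := by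
  obtain ⟨a, t, h1, h2, h3, h4, h5⟩ := h
  -- the two parameters
  have hpar0 : ∀ c, t (c, false) = par p (a (c, false)) (a (c, true)) ∧
      t (c, true) = par p (a (c, true)) (a (c, false)) := fun c =>
    (meet (h5 c).1 _ _).1 (h2 c)
  have hpar : ∀ x : Fin N × Bool, t x = par p (a x) (a (x.1, !x.2)) := by
    rintro ⟨c, b⟩
    cases b
    · exact (hpar0 c).1
    · exact (hpar0 c).2
  have hdet : ∀ x : Fin N × Bool, det p (a x) (a (x.1, !x.2)) ≠ 0 := by
    rintro ⟨c, b⟩
    cases b
    · exact (h5 c).1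
    · have := (h5 c).1
      show det p (a (c, true)) (a (c, false)) ≠ 0
      rw [det_swap]
      exact neg_ne_zero.mpr this
  have hCr : ∀ x : Fin N × Bool, Cr p (a x) (a (x.1, !x.2)) := by
    intro x
    refine ⟨hdet x, ?_, ?_⟩
    · rw [← hpar x]; exact h1 x
    · have h6 := hpar (x.1, !x.2)
      simp only [Bool.not_not] at h6
      have h7 := h1 (x.1, !x.2)
      rw [h6] at h7
      exact h7
  -- the map to the pairs of crossing edges
  have finj : ∀ x y : Fin N × Bool, a x = a y → a (x.1, !x.2) = a (y.1, !y.2) → x = y := by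
    intro x y hxy hxy'
    have ht : t x = t y := by rw [hpar x, hpar y, hxy, hxy']
    have g1 : ¬ G x < G y := by
      rw [h4]
      rintro (h | ⟨-, h⟩)
      · rw [hxy] at h; exact lt_irrefl _ h
      · rw [ht] at h; exact lt_irrefl _ h
    have g2 : ¬ G y < G x := by
      rw [h4]
      rintro (h | ⟨-, h⟩)
      · rw [hxy] at h; exact lt_irrefl _ h
      · rw [ht] at h; exact lt_irrefl _ h
    exact G.injective (le_antisymm (not_lt.mp g2) (not_lt.mp g1))
  have einj : Function.Injective e := by
    intro x y hxy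
    have key : ∀ x y : Fin N' × Bool, e x = e y → ¬ G' x < G' y := by
      intro x y hxy
      rw [he.2.2.2]
      rintro (h | ⟨-, h⟩)
      · rw [hxy] at h; exact lt_irrefl _ h
      · rw [dat_O, hxy] at h; exact lt_irrefl _ h
    exact G'.injective (le_antisymm (not_lt.mp (key y x hxy.symm)) (not_lt.mp (key x y hxy)))
  have hex : ∀ x : Fin N × Bool, ∃ y : Fin N' × Bool, e y = (a x, a (x.1, !x.2)) := fun x =>
    he.2.2.1 _ _ ((dat_X p _ _).2 (hCr x))
  choose f hf using hex
  have hfbij : Function.Bijective f := by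
    constructor
    · intro x y hxy
      have h6 := hf x
      rw [hxy, hf y] at h6
      have h7 := Prod.ext_iff.mp h6
      exact finj x y h7.1.symm h7.2.symm
    · intro y
      have hC : Cr p (e y).1 (e y).2 := (dat_X p _ _).1 (he.1 y)
      have hm := (meet hC.1 _ _).2 ⟨rfl, rfl⟩
      have hne : ((e y).1, par p (e y).1 (e y).2) ≠ ((e y).2, par p (e y).2 (e y).1) := by
        intro h6
        have h7 := (Prod.ext_iff.mp h6).1
        simp only at h7
        rw [← h7] at hC
        exact Cr_irrefl p _ hC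
      obtain ⟨c, b, g1, -, g2, -⟩ := h3 _ _ _ _ hC.2.1.1.le hC.2.1.2 hC.2.2.1.le hC.2.2.2 hne
        hm.1 hm.2
      refine ⟨(c, b), einj ?_⟩
      rw [hf, g1, g2]
  let φ : Fin N × Bool ≃ Fin N' × Bool := Equiv.ofBijective f hfbij
  have hφ : ∀ x, e (φ x) = (a x, a (x.1, !x.2)) := hf
  have hφs : ∀ c b, φ (c, !b) = ((φ (c, b)).1, !(φ (c, b)).2) := by
    intro c b
    apply einj
    rw [desc_word_swap he, Prod.mk.eta, hφ, hφ]
    simp
  have hord : ∀ x y, G' (φ x) < G' (φ y) ↔ G x < G y := by
    intro x y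
    rw [he.2.2.2, dat_O, hφ, hφ, h4, hpar x, hpar y]
    constructor
    · rintro (h | ⟨h, h'⟩)
      · exact Or.inl h
      · right
        refine ⟨h, ?_⟩
        simp only at h h'
        rw [← h]
        exact h'
    · rintro (h | ⟨h, h'⟩)
      · exact Or.inl h
      · right
        refine ⟨h, ?_⟩
        simp only
        rw [← h] at h'
        exact h'
  let ψ : Fin (2 * N) ≃o Fin (2 * N') :=
    { toEquiv := (G.symm.trans φ).trans G'
      map_rel_iff' := by
        intro u v
        simp only [Equiv.trans_apply]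
        rw [← not_lt, ← not_lt, hord]
        simp }
  have hval : ∀ x, (G' (φ x) : ℕ) = G x := by
    intro x
    have h6 := Fin.coe_orderIso_apply ψ (G x)
    have h7 : ψ (G x) = G' (φ x) := by
      show G' (φ (G.symm (G x))) = G' (φ x)
      rw [Equiv.symm_apply_apply]
    rw [h7] at h6
    exact h6
  apply hrelabel N N' G G' φ hφs hval
  have hw' : ∀ x : Fin N' × Bool, (dat p).2.2 (e (x.1, false)).1 (e (x.1, false)).2 =
      (dat p).2.2 (e x).1 (e x).2 := by
    rintro ⟨c, b⟩
    cases b
    · rfl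
    · show (dat p).2.2 (e (c, false)).1 (e (c, false)).2 =
        (dat p).2.2 (e (c, true)).1 (e (c, true)).2
      rw [he.2.1 c]
      exact dat_S_symm p _ _
  have key : ∀ c, (dat p).2.2 (e ((φ (c, false)).1, false)).1 (e ((φ (c, false)).1, false)).2 =
      w c := by
    intro c
    rw [hw' (φ (c, false)), hφ, Bool.eq_iff_iff, dat_S]
    show 0 < det p (a (c, false)) (a (c, true)) * gap p (a (c, false)) (a (c, true)) ↔ w c = true
    have hc : Cr p (a (c, false)) (a (c, true)) := hCr (c, false)
    have hg := hp.nogap _ _ hc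
    rw [sign_iff hc.1 hg, (h5 c).2.2, ept_z, ept_z, (hpar0 c).1, (hpar0 c).2]
    show (_ ↔ 0 < gap p (a (c, false)) (a (c, true))) ↔ _
    unfold gap
    rw [sub_pos]
  intro c b
  cases b
  · exact key c
  · have h6 := hφs c false
    simp only [Bool.not_false] at h6
    rw [h6]
    exact key c

theorem desc_pol (hword : SWord) (hrelabel : SRelabel) {n : ℕ} (hn : 3 ≤ n) (p : Fin n → Pt)
    (hp : Gen p) {N : ℕ} (G : GaussWord N) (w : Fin N → Bool) (h : Describes p G w) :
    fPoly G w = pol (dat p) := by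
  have hex := exists_word hword hp
  unfold pol
  rw [dif_pos hex]
  exact desc_word hrelabel p hp G w h _ _ hex.choose_spec.choose_spec.choose_spec

end Pool.Agent.H756.RP
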