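import Pool.Agent.H756.RP.Defs

set_option autoImplicit false

/-!
Reduction of a general density to the normal form `Law`.

`sim_describes`: `Describes` is invariant under `sim a s`, because `ept (sim a s ∘ p) i t = sim a s (ept p i t)` and
`det (sim a s ∘ p) i j = det p i j / s ^ 2`.

`reduce`: choose `a` and `s > 0` with `a + [0, s]^3 ⊆ U`; the density `ρ` is split into the part
`c' 1_Q`, `Q = sim ⁻¹ cube`, which carries the mark `true`, and the rest (mark `false`).
-/

namespace Pool.Agent.H756.RP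

open MeasureTheory LaurentPolynomial Pool.Agent.H832R2.JR
open scoped ENNReal

/-- a similarity of space -/
noncomputable def sim (a : Pt) (s : ℝ) (q : Pt) : Pt :=
  ((q.1 - a.1) / s, (q.2.1 - a.2.1) / s, (q.2.2 - a.2.2) / s)

namespace Reduce

theorem ept_1 {n : ℕ} (p : Fin n → Pt) (a : Pt) (s : ℝ) (i : Fin n) (t : ℝ) :
    (ept (fun i => sim a s (p i)) i t).1 = ((ept p i t).1 - a.1) / s := by
  unfold ept sim
  simp only [Prod.fst_add, Prod.smul_fst, smul_eq_mul]
  ring

theorem ept_2 {n : ℕ} (p : Fin n → Pt) (a : Pt) (s : ℝ) (i : Fin n) (t : ℝ) :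
    (ept (fun i => sim a s (p i)) i t).2.1 = ((ept p i t).2.1 - a.2.1) / s := by
  unfold ept sim
  simp only [Prod.fst_add, Prod.smul_fst, smul_eq_mul, Prod.snd_add, Prod.smul_snd]
  ring

theorem ept_3 {n : ℕ} (p : Fin n → Pt) (a : Pt) (s : ℝ) (i : Fin n) (t : ℝ) :
    (ept (fun i => sim a s (p i)) i t).2.2 = ((ept p i t).2.2 - a.2.2) / s := by
  unfold ept sim
  simp only [smul_eq_mul, Prod.snd_add, Prod.smul_snd]
  ring

theorem det_sim {n : ℕ} (p : Fin n → Pt) (a : Pt) (s : ℝ) (i j : Fin n) :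
    det (fun i => sim a s (p i)) i j = det p i j / s ^ 2 := by
  unfold det sim
  simp only
  ring

theorem div_eq {x y a s : ℝ} (hs : 0 < s) : (x - a) / s = (y - a) / s ↔ x = y := by
  rw [div_left_inj' hs.ne', sub_left_inj]

theorem div_lt {x y a s : ℝ} (hs : 0 < s) : (x - a) / s < (y - a) / s ↔ x < y := by
  rw [div_lt_div_iff_of_pos_right hs, sub_lt_sub_iff_right]

end Reduce

open Reduce

theorem sim_describes {n : ℕ} (p : Fin n → Pt) (a : Pt) (s : ℝ) (hs : 0 < s) {N : ℕ}
    (G : GaussWord N) (w : Fin N → Bool) :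
    Describes p G w ↔ Describes (fun i => sim a s (p i)) G w := by
  have hs2 : 0 < s ^ 2 := by positivity
  have h0 : ∀ i j : Fin n, (det p i j / s ^ 2 ≠ 0) ↔ (det p i j ≠ 0) := by
    intro i j
    rw [ne_eq, div_eq_zero_iff]
    simp [hs2.ne']
  have h1 : ∀ i j : Fin n, (0 < det p i j / s ^ 2) ↔ (0 < det p i j) := by
    intro i j
    rw [div_pos_iff_of_pos_right hs2]
  unfold Describes
  simp only [ept_1, ept_2, ept_3, det_sim, div_eq hs, div_lt hs, h0, h1, ne_eq]
  
namespace Reduce

theorem haar2 : (volume : Measure (ℝ × ℝ)).IsAddHaarMeasure :=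
  Measure.prod.instIsAddHaarMeasure _ _

theorem haar3 : (volume : Measure Pt).IsAddHaarMeasure := by
  rw [Measure.volume_eq_prod]
  have := haar2
  infer_instance

theorem vol_sim (a : Pt) (s : ℝ) (hs : 0 < s) (F : Set Pt) :
    volume (sim a s ⁻¹' F) = ENNReal.ofReal (s ^ 3) * volume F := by
  have e : sim a s = (fun q : Pt => s⁻¹ • q) ∘ (fun q : Pt => (-a) + q) := by
    funext q
    simp only [sim, Function.comp, smul_eq_mul, Prod.fst_add,
      Prod.snd_add, Prod.fst_neg, Prod.snd_neg, Prod.smul_fst, Prod.smul_snd, Prod.ext_iff]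
    refine ⟨by ring, by ring, by ring⟩
  have := haar3
  rw [e, Set.preimage_comp, measure_preimage_add,
    Measure.addHaar_preimage_smul volume (inv_ne_zero hs.ne')]
  congr 2
  have : Module.finrank ℝ Pt = 3 := by
    simp [Pt, Module.finrank_prod]
  rw [this, inv_pow, inv_inv, abs_of_pos (by positivity)]

theorem measurable_sim (a : Pt) (s : ℝ) : Measurable (sim a s) := by
  unfold sim
  fun_prop

theorem measurableSet_cube : MeasurableSet cube := by
  unfold cube
  measurability

/-- vertical planes are null sets -/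
theorem vol_wall (a b c : ℝ) (h : (a, b) ≠ (0, 0)) :
    volume {q : Pt | a * q.1 + b * q.2.1 = c} = 0 := by
  have hm : MeasurableSet {q : Pt | a * q.1 + b * q.2.1 = c} :=
    measurableSet_eq_fun (by fun_prop) (by fun_prop)
  by_cases ha : a = 0
  · have hb : b ≠ 0 := by
      rintro rfl; exact h (by rw [ha])
    rw [Measure.volume_eq_prod, Measure.prod_apply hm]
    refine (lintegral_congr fun x => ?_).trans lintegral_zero
    have e : (Prod.mk x ⁻¹' {q : Pt | a * q.1 + b * q.2.1 = c}) = {c / b} ×ˢ Set.univ := by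
      ext ⟨y, z⟩
      simp only [Set.mem_preimage, Set.mem_ofPred_eq, ha, zero_mul, zero_add, Set.mem_prod,
        Set.mem_singleton_iff, Set.mem_univ, and_true]
      rw [eq_div_iff hb, mul_comm]
    rw [e, Measure.volume_eq_prod, Measure.prod_prod]
    simp
  · rw [Measure.volume_eq_prod, Measure.prod_apply_symm hm]
    refine (lintegral_congr fun y => ?_).trans lintegral_zero
    have e : ((fun x => (x, y)) ⁻¹' {q : Pt | a * q.1 + b * q.2.1 = c}) =
        {(c - b * y.1) / a} := by
      ext x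
      simp only [Set.mem_preimage, Set.mem_ofPred_eq, Set.mem_singleton_iff]
      rw [eq_div_iff ha]
      constructor <;> intro h <;> linarith
    rw [e]
    simp

/-- the slab -/
theorem vol_slab (h : ℝ × ℝ → ℝ≥0∞) (hh : Measurable h) (τ : ℝ × ℝ → ℝ) (hτ : Measurable τ)
    (a : Pt) (s : ℝ) (hs : 0 < s) (r : ℝ) :
    ∫⁻ q in {q : Pt | |(sim a s q).2.2 - τ ((sim a s q).1, (sim a s q).2.1)| ≤ r}, h (q.1, q.2.1) ≤
      ENNReal.ofReal (2 * r * s) * ∫⁻ q, h q := by
  set S : Set Pt := {q : Pt | |(sim a s q).2.2 - τ ((sim a s q).1, (sim a s q).2.1)| ≤ r} with hS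
  have hm : MeasurableSet S := by
    have h1 := measurable_sim a s
    refine measurableSet_le ?_ measurable_const
    exact (((h1.snd.snd).sub (hτ.comp ((h1.fst).prodMk h1.snd.fst)))).abs
  rw [← lintegral_indicator hm]
  have hmeas : Measurable (S.indicator (fun q : Pt => h (q.1, q.2.1))) := by
    refine Measurable.indicator ?_ hm
    exact hh.comp (measurable_fst.prodMk measurable_snd.fst)
  rw [Measure.volume_eq_prod, lintegral_prod _ hmeas.aemeasurable]
  have hmeas2 : ∀ x : ℝ, Measurable (fun y : ℝ × ℝ =>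
      S.indicator (fun q : Pt => h (q.1, q.2.1)) (x, y)) := fun x =>
    hmeas.comp (measurable_const.prodMk measurable_id)
  calc ∫⁻ x, ∫⁻ y, S.indicator (fun q : Pt => h (q.1, q.2.1)) (x, y) ∂volume ∂volume
      ≤ ∫⁻ x, ∫⁻ y, h (x, y) * ENNReal.ofReal (2 * r * s) ∂volume ∂volume := by
        refine lintegral_mono fun x => ?_
        rw [Measure.volume_eq_prod, lintegral_prod _ (hmeas2 x).aemeasurable]
        refine lintegral_mono fun y => ?_
        have hsub : {z : ℝ | ((x, y, z) : Pt) ∈ S} ⊆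
            Set.Icc (a.2.2 + s * (τ ((x - a.1) / s, (y - a.2.1) / s) - r))
              (a.2.2 + s * (τ ((x - a.1) / s, (y - a.2.1) / s) + r)) := by
          intro z hz
          have hz' : |(z - a.2.2) / s - τ ((x - a.1) / s, (y - a.2.1) / s)| ≤ r := hz
          rw [abs_le] at hz'
          obtain ⟨h1, h2⟩ := hz'
          constructor
          · have h3 : τ ((x - a.1) / s, (y - a.2.1) / s) - r ≤ (z - a.2.2) / s := by linarith
            rw [le_div_iff₀ hs] at h3
            linarith
          · have h3 : (z - a.2.2) / s ≤ τ ((x - a.1) / s, (y - a.2.1) / s) + r := by linarith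
            rw [div_le_iff₀ hs] at h3
            linarith
        have hvol : volume {z : ℝ | ((x, y, z) : Pt) ∈ S} ≤ ENNReal.ofReal (2 * r * s) := by
          refine (measure_mono hsub).trans ?_
          rw [Real.volume_Icc]
          apply le_of_eq
          congr 1
          ring
        have hms : MeasurableSet {z : ℝ | ((x, y, z) : Pt) ∈ S} := by
          have : Measurable (fun z : ℝ => ((x, y, z) : Pt)) := by fun_prop
          exact this hm
        have e : (fun z : ℝ => S.indicator (fun q : Pt => h (q.1, q.2.1)) (x, y, z)) =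
            {z : ℝ | ((x, y, z) : Pt) ∈ S}.indicator (fun _ => h (x, y)) := by
          funext z
          by_cases hz : ((x, y, z) : Pt) ∈ S
          · rw [Set.indicator_of_mem hz, Set.indicator_of_mem (by exact hz)]
          · rw [Set.indicator_of_notMem hz, Set.indicator_of_notMem (by exact hz)]
        have e2 : (∫⁻ z : ℝ, S.indicator (fun q : Pt => h (q.1, q.2.1)) (x, y, z)) =
            h (x, y) * volume {z : ℝ | ((x, y, z) : Pt) ∈ S} := by
          rw [e, lintegral_indicator hms, setLIntegral_const]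
        rw [e2]
        gcongr
    _ = (∫⁻ x, ∫⁻ y, h (x, y) ∂volume ∂volume) * ENNReal.ofReal (2 * r * s) := by
        rw [← lintegral_mul_const' _ _ ENNReal.ofReal_ne_top]
        refine lintegral_congr fun x => ?_
        rw [lintegral_mul_const' _ _ ENNReal.ofReal_ne_top]
    _ = ENNReal.ofReal (2 * r * s) * ∫⁻ q, h q := by
        rw [mul_comm, Measure.volume_eq_prod, lintegral_prod _ hh.aemeasurable]

end Reduce

theorem reduce (ρ : Pt → ℝ≥0∞) (hρ : Measurable ρ) (h1 : ∫⁻ q, ρ q = 1) (h : ℝ × ℝ → ℝ≥0∞)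
    (hh : Measurable h) (hfin : ∫⁻ q, h q ≠ ∞) (hle : ∀ q, ρ q ≤ h (q.1, q.2.1)) (U : Set Pt)
    (hU : IsOpen U) (hne : U.Nonempty) (c : ℝ≥0∞) (hc : c ≠ 0) (hcU : ∀ q ∈ U, c ≤ ρ q) :
    ∃ (a : Pt) (s : ℝ) (κ : Measure (Pt × Bool)) (c₀ H : ℝ), 0 < s ∧ Law κ c₀ H ∧
      κ.map Prod.fst = (volume.withDensity ρ).map (sim a s) := by
  classical
  -- the cube in `U`
  obtain ⟨a, ha⟩ := hne
  obtain ⟨ε, hε, hball⟩ := Metric.isOpen_iff.1 hU a ha
  set s : ℝ := ε / 2 with hs_def
  have hs : 0 < s := by positivity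
  have hsim := measurable_sim a s
  set Q : Set Pt := sim a s ⁻¹' cube with hQ
  have hQm : MeasurableSet Q := hsim measurableSet_cube
  have hQU : Q ⊆ U := by
    intro q hq
    apply hball
    obtain ⟨⟨q1, q2⟩, ⟨q3, q4⟩, q5, q6⟩ := hq
    simp only [sim] at q1 q2 q3 q4 q5 q6
    rw [le_div_iff₀ hs] at q1 q3 q5
    rw [div_le_iff₀ hs] at q2 q4
    rw [div_lt_iff₀ hs] at q6
    have key : ∀ x y : ℝ, 0 * s ≤ x - y → x - y ≤ 1 * s → dist x y < ε := by
      intro x y h1 h2
      rw [Real.dist_eq, abs_of_nonneg (by linarith)]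
      have : s < ε := by rw [hs_def]; linarith
      linarith
    rw [Metric.mem_ball]
    refine max_lt (key _ _ q1 q2) (max_lt (key _ _ q3 q4) (key _ _ q5 q6.le))
  -- the constant
  set c' : ℝ≥0∞ := min c 1 with hc'
  have hc'0 : c' ≠ 0 := by
    rw [hc']
    exact (lt_min (pos_iff_ne_zero.2 hc) one_pos).ne'
  have hc't : c' ≠ ∞ := (lt_of_le_of_lt (min_le_right _ _) ENNReal.one_lt_top).ne
  have hcr : 0 < c'.toReal := ENNReal.toReal_pos hc'0 hc't
  -- the two densities
  set f1 : Pt → ℝ≥0∞ := Q.indicator (fun _ => c') with hf1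
  have hf1m : Measurable f1 := measurable_const.indicator hQm
  have hf1le : ∀ q, f1 q ≤ ρ q := by
    intro q
    by_cases hq : q ∈ Q
    · rw [hf1, Set.indicator_of_mem hq]
      exact (min_le_left _ _).trans (hcU q (hQU hq))
    · rw [hf1, Set.indicator_of_notMem hq]
      exact bot_le
  set f2 : Pt → ℝ≥0∞ := fun q => ρ q - f1 q with hf2
  have hf2m : Measurable f2 := hρ.sub hf1m
  have hsum : f1 + f2 = ρ := by
    funext q
    exact add_tsub_cancel_of_le (hf1le q)
  set ν1 : Measure Pt := volume.withDensity f1 with hν1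
  set ν2 : Measure Pt := volume.withDensity f2 with hν2
  have hν : ν1 + ν2 = volume.withDensity ρ := by
    rw [hν1, hν2, ← withDensity_add_left hf1m, hsum]
  -- the marked measure
  have hg1 : Measurable (fun q : Pt => (sim a s q, true)) := hsim.prodMk measurable_const
  have hg2 : Measurable (fun q : Pt => (sim a s q, false)) := hsim.prodMk measurable_const
  set κ : Measure (Pt × Bool) := ν1.map (fun q => (sim a s q, true)) +
    ν2.map (fun q => (sim a s q, false)) with hκ
  have hfst : κ.map Prod.fst = (volume.withDensity ρ).map (sim a s) := by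
    rw [hκ, Measure.map_add _ _ measurable_fst, Measure.map_map measurable_fst hg1,
      Measure.map_map measurable_fst hg2, ← hν, Measure.map_add _ _ hsim]
    rfl
  have hκE : ∀ E : Set Pt, MeasurableSet E →
      κ {y | y.1 ∈ E} = (volume.withDensity ρ) (sim a s ⁻¹' E) := by
    intro E hE
    have : κ {y | y.1 ∈ E} = κ.map Prod.fst E := by
      rw [Measure.map_apply measurable_fst hE]; rfl
    rw [this, hfst, Measure.map_apply hsim hE]
  have hρu : (volume.withDensity ρ) Set.univ = 1 := by
    rw [withDensity_apply _ MeasurableSet.univ, setLIntegral_univ, h1]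
  refine ⟨a, s, κ, c'.toReal * s ^ 3, 2 * s * (∫⁻ q, h q).toReal + 1, hs, ?_, hfst⟩
  refine ⟨⟨?_⟩, by positivity, by positivity, ?_, ?_, ?_⟩
  · have := hκE Set.univ MeasurableSet.univ
    simp only [Set.mem_univ, Set.preimage_univ] at this
    rw [← hρu, ← this]
    rfl
  · intro E hE
    have hset : MeasurableSet {y : Pt × Bool | y.2 = true ∧ y.1 ∈ E} := by
      have e : {y : Pt × Bool | y.2 = true ∧ y.1 ∈ E} = E ×ˢ {true} := by
        ext ⟨x, b⟩
        simp [and_comm]
      rw [e]
      exact hE.prod (measurableSet_singleton _)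
    rw [hκ, Measure.add_apply, Measure.map_apply hg1 hset, Measure.map_apply hg2 hset]
    have e1 : (fun q : Pt => (sim a s q, true)) ⁻¹' {y : Pt × Bool | y.2 = true ∧ y.1 ∈ E} =
        sim a s ⁻¹' E := by
      ext q; simp
    have e2 : (fun q : Pt => (sim a s q, false)) ⁻¹' {y : Pt × Bool | y.2 = true ∧ y.1 ∈ E} =
        ∅ := by
      ext q; simp
    rw [e1, e2, measure_empty, add_zero, hν1, withDensity_apply _ (hsim hE), hf1,
      lintegral_indicator hQm, Measure.restrict_restrict hQm, setLIntegral_const,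
      Set.inter_comm, hQ, ← Set.preimage_inter, vol_sim a s hs, ← mul_assoc]
    congr 1
    rw [ENNReal.ofReal_mul hcr.le, ENNReal.ofReal_toReal hc't]
  · intro τ hτ r hr
    have hset : MeasurableSet {p : Pt | |p.2.2 - τ (p.1, p.2.1)| ≤ r} := by
      refine measurableSet_le ?_ measurable_const
      exact ((measurable_snd.snd).sub (hτ.comp (measurable_fst.prodMk measurable_snd.fst))).abs
    have h2 := hκE _ hset
    have h3 : κ {y | |y.1.2.2 - τ (y.1.1, y.1.2.1)| ≤ r} =
        (volume.withDensity ρ) (sim a s ⁻¹' {p : Pt | |p.2.2 - τ (p.1, p.2.1)| ≤ r}) := h2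
    rw [h3, withDensity_apply _ (hsim hset)]
    calc ∫⁻ q in sim a s ⁻¹' {p : Pt | |p.2.2 - τ (p.1, p.2.1)| ≤ r}, ρ q
        ≤ ∫⁻ q in sim a s ⁻¹' {p : Pt | |p.2.2 - τ (p.1, p.2.1)| ≤ r}, h (q.1, q.2.1) :=
          lintegral_mono fun q => hle q
      _ ≤ ENNReal.ofReal (2 * r * s) * ∫⁻ q, h q := vol_slab h hh τ hτ a s hs r
      _ = ENNReal.ofReal (2 * r * s * (∫⁻ q, h q).toReal) := by
          rw [ENNReal.ofReal_mul (p := 2 * r * s) (by positivity), ENNReal.ofReal_toReal hfin]
      _ ≤ _ := by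
          apply ENNReal.ofReal_le_ofReal
          nlinarith
  · intro α β γ hαβ
    have hset : MeasurableSet {q : Pt | α * q.1 + β * q.2.1 = γ} :=
      measurableSet_eq_fun (by fun_prop) (by fun_prop)
    have h2 : κ {y | α * y.1.1 + β * y.1.2.1 = γ} =
        (volume.withDensity ρ) (sim a s ⁻¹' {q : Pt | α * q.1 + β * q.2.1 = γ}) := hκE _ hset
    rw [h2]
    apply withDensity_absolutelyContinuous
    have h3 : sim a s ⁻¹' {q : Pt | α * q.1 + β * q.2.1 = γ} =
        {q : Pt | α * q.1 + β * q.2.1 = γ * s + α * a.1 + β * a.2.1} := by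
      ext q
      simp only [Set.mem_preimage, Set.mem_ofPred_eq, sim]
      rw [mul_div_assoc', mul_div_assoc', ← add_div, div_eq_iff hs.ne']
      constructor <;> intro h <;> linarith
    rw [h3]
    exact vol_wall _ _ _ hαβ

end Pool.Agent.H756.RP
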