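import Pool.Graph.R_seed8.H832R2.JR.Defs

set_option autoImplicit false

/-!
Relabelling the crossings does not change the normalised bracket.

Proof: `N = N'` (cardinalities).  The map `h (x, e) = (φ x, e)` on half edges satisfies
`Joined G s x y → (h x, h y joined in G' up to exchanging x and y)` for the state `s' (φ (c, b)).1 = s c`
(`next G' (φ p) = φ (next G p)` because `G' ∘ φ = G` as natural numbers and `next` is the cyclic shift), so
`Quot (Joined G s) ≃ Quot (Joined G' s')` and `loops G s = loops G' s'`.  The sum over the states, the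
weight and the writhe are reindexed by the bijection `σ c = (φ (c, false)).1` of the crossings.
-/

namespace Pool.Agent.H756.RP

open Finset LaurentPolynomial Pool.Agent.H832R2.JR

theorem relabel_next {N : ℕ} (G G' : GaussWord N) (φ : Fin N × Bool ≃ Fin N × Bool)
    (hG : ∀ x, G' (φ x) = G x) (p : Fin N × Bool) : next G' (φ p) = φ (next G p) := by
  apply G'.injective
  rw [hG]
  simp [next, hG]

theorem relabel_joined {N : ℕ} (G G' : GaussWord N) (φ : Fin N × Bool ≃ Fin N × Bool)
    (hφ : ∀ c b, φ (c, !b) = ((φ (c, b)).1, !(φ (c, b)).2)) (hG : ∀ x, G' (φ x) = G x)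
    (s s' : Fin N → Bool) (hs : ∀ c b, s' (φ (c, b)).1 = s c) (x y : Half N)
    (h : Joined G s x y) :
    Joined G' s' (φ x.1, x.2) (φ y.1, y.2) ∨ Joined G' s' (φ y.1, y.2) (φ x.1, x.2) := by
  rcases h with ⟨p, rfl, rfl⟩ | ⟨c, b, hc, rfl, rfl⟩ | ⟨c, e, hc, rfl, rfl⟩
  · left; left
    exact ⟨φ p, rfl, by rw [relabel_next G G' φ hG]⟩
  · left; right; left
    refine ⟨(φ (c, b)).1, (φ (c, b)).2, by rw [hs, hc], rfl, ?_⟩
    simp only [hφ c b]
  · have h1 : φ (c, true) = ((φ (c, false)).1, !(φ (c, false)).2) := hφ c false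
    rcases hb : (φ (c, false)).2 with _ | _
    · left; right; right
      refine ⟨(φ (c, false)).1, e, by rw [hs, hc], ?_, ?_⟩
      · simp only [Prod.mk.injEq, and_true]
        exact Prod.ext rfl hb
      · simp only [h1, hb, Bool.not_false]
    · right; right; right
      refine ⟨(φ (c, false)).1, e, by rw [hs, hc], ?_, ?_⟩
      · simp only [h1, hb, Bool.not_true]
      · simp only [Prod.mk.injEq, and_true]
        exact Prod.ext rfl hb

theorem relabel_quot {N : ℕ} (G G' : GaussWord N) (φ : Fin N × Bool ≃ Fin N × Bool)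
    (hφ : ∀ c b, φ (c, !b) = ((φ (c, b)).1, !(φ (c, b)).2)) (hG : ∀ x, G' (φ x) = G x)
    (s s' : Fin N → Bool) (hs : ∀ c b, s' (φ (c, b)).1 = s c) (x y : Half N)
    (h : Joined G s x y) :
    Quot.mk (Joined G' s') (φ x.1, x.2) = Quot.mk (Joined G' s') (φ y.1, y.2) := by
  rcases relabel_joined G G' φ hφ hG s s' hs x y h with h1 | h1
  · exact Quot.sound h1
  · exact (Quot.sound h1).symm

theorem relabel_loops {N : ℕ} (G G' : GaussWord N) (φ : Fin N × Bool ≃ Fin N × Bool)
    (hφ : ∀ c b, φ (c, !b) = ((φ (c, b)).1, !(φ (c, b)).2)) (hG : ∀ x, G' (φ x) = G x)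
    (s s' : Fin N → Bool) (hs : ∀ c b, s' (φ (c, b)).1 = s c) : loops G s = loops G' s' := by
  have hφ' : ∀ c b, φ.symm (c, !b) = ((φ.symm (c, b)).1, !(φ.symm (c, b)).2) := by
    intro c b
    apply φ.injective
    rw [hφ (φ.symm (c, b)).1 (φ.symm (c, b)).2]
    simp
  have hG' : ∀ x, G (φ.symm x) = G' x := by
    intro x
    rw [← hG, Equiv.apply_symm_apply]
  have hs' : ∀ c b, s (φ.symm (c, b)).1 = s' c := by
    intro c b
    rw [← hs (φ.symm (c, b)).1 (φ.symm (c, b)).2]
    simp
  refine Nat.card_congr ?_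
  refine ⟨Quot.lift (fun x => Quot.mk _ (φ x.1, x.2)) (relabel_quot G G' φ hφ hG s s' hs),
    Quot.lift (fun x => Quot.mk _ (φ.symm x.1, x.2)) (relabel_quot G' G φ.symm hφ' hG' s' s hs'),
    ?_, ?_⟩
  · rintro ⟨x⟩
    simp
  · rintro ⟨x⟩
    simp

theorem relabel {N N' : ℕ} (G : GaussWord N) (G' : GaussWord N')
    (φ : Fin N × Bool ≃ Fin N' × Bool)
    (hφ : ∀ c b, φ (c, !b) = ((φ (c, b)).1, !(φ (c, b)).2)) (hG : ∀ x, (G' (φ x) : ℕ) = G x)
    (w : Fin N → Bool) (w' : Fin N' → Bool) (hw : ∀ c b, w' (φ (c, b)).1 = w c) :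
    fPoly G w = fPoly G' w' := by
  have hN : N = N' := by
    have h := Fintype.card_congr φ
    simp only [Fintype.card_prod, Fintype.card_fin, Fintype.card_bool] at h
    omega
  subst hN
  have hG1 : ∀ x, G' (φ x) = G x := fun x => Fin.ext (hG x)
  have hfst : ∀ c b, (φ (c, b)).1 = (φ (c, false)).1 := by
    intro c b
    cases b with
    | false => rfl
    | true => rw [show (true : Bool) = !false from rfl, hφ]
  have hinj : Function.Injective fun c => (φ (c, false)).1 := by
    intro c c' h
    simp only at h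
    by_cases h2 : (φ (c, false)).2 = (φ (c', false)).2
    · have := φ.injective (Prod.ext h h2)
      exact (Prod.mk.inj this).1
    · exfalso
      have h3 : φ (c', !false) = φ (c, false) := by
        rw [hφ]
        refine Prod.ext h.symm ?_
        revert h2
        cases (φ (c, false)).2 <;> cases (φ (c', false)).2 <;> simp
      have := φ.injective h3
      simp at this
  let σ : Fin N ≃ Fin N := Equiv.ofBijective _ (Finite.injective_iff_bijective.mp hinj)
  have hσ : ∀ c b, (φ (c, b)).1 = σ c := fun c b => hfst c b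
  have hw1 : ∀ c, w' (σ c) = w c := fun c => hw c false
  have hwr : writhe w' = writhe w := by
    unfold writhe
    rw [← Equiv.sum_comp σ]
    exact Finset.sum_congr rfl fun c _ => by rw [hw1]
  have hbr : bracket G' w' = bracket G w := by
    unfold bracket
    rw [← Equiv.sum_comp (Equiv.arrowCongr σ (Equiv.refl Bool))]
    refine Finset.sum_congr rfl fun s _ => ?_
    have hs : ∀ c, (Equiv.arrowCongr σ (Equiv.refl Bool)) s (σ c) = s c := by
      intro c
      simp [Equiv.arrowCongr]
    have h1 : loops G s = loops G' ((Equiv.arrowCongr σ (Equiv.refl Bool)) s) :=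
      relabel_loops G G' φ hφ hG1 s _ fun c b => by rw [hσ, hs]
    have h2 : weight w' ((Equiv.arrowCongr σ (Equiv.refl Bool)) s) = weight w s := by
      unfold weight
      rw [← Equiv.sum_comp σ]
      exact Finset.sum_congr rfl fun c _ => by rw [hw1, hs]
    rw [h1, h2]
  unfold fPoly
  rw [hwr, hbr]

end Pool.Agent.H756.RP
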