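import Pool.Agent.H756.RP.Asm5
import Pool.Agent.H756.RP.Reduce
import Pool.Agent.H756.RP.Desc
import Pool.Agent.H756.RP.Relabel

set_option autoImplicit false

/-!
The final step: transfer to the polygon with the given density.
-/

namespace Pool.Agent.H756.RP

open MeasureTheory Finset LaurentPolynomial
open scoped ENNReal
open Pool.Agent.H832R2.JR (GaussWord fPoly)
open Pool.Agent.H832R3.VJ (moment)

variable {n : ℕ}

theorem sword : SWord := fun _ X O h1 h2 h3 h4 h5 => word_exists X O h1 h2 h3 h4 h5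

theorem srelabel : SRelabel := fun _ _ G G' φ hφ hG w w' hw => relabel G G' φ hφ hG w w' hw

theorem measurableSet_gen : MeasurableSet {p : Fin n → Pt | Gen p} := by
  have hx : ∀ i : Fin n, Measurable fun p : Fin n → Pt => (p i).1 := fun i => by fun_prop
  have hy : ∀ i : Fin n, Measurable fun p : Fin n → Pt => (p i).2.1 := fun i => by fun_prop
  have h1 : MeasurableSet {p : Fin n → Pt | ∀ i j k, i ≠ j → j ≠ k → i ≠ k →
      ((p j).1 - (p i).1) * ((p k).2.1 - (p i).2.1) -
      ((p j).2.1 - (p i).2.1) * ((p k).1 - (p i).1) ≠ 0} := by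
    simp only [Set.ofPred_forall]
    refine MeasurableSet.iInter fun i => MeasurableSet.iInter fun j => MeasurableSet.iInter fun k =>
      MeasurableSet.iInter fun _ => MeasurableSet.iInter fun _ => MeasurableSet.iInter fun _ => ?_
    exact (measurableSet_eq_fun ((((hx j).sub (hx i)).mul ((hy k).sub (hy i))).sub
      (((hy j).sub (hy i)).mul ((hx k).sub (hx i)))) measurable_const).compl
  have h2 : MeasurableSet {p : Fin n → Pt | ∀ i j k, Cr p i j → Cr p i k → j ≠ k →
      par p i j ≠ par p i k} := by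
    have e : {p : Fin n → Pt | ∀ i j k, Cr p i j → Cr p i k → j ≠ k → par p i j ≠ par p i k} =
        ⋂ i, ⋂ j, ⋂ k, ({p | Cr p i j}ᶜ ∪ {p | Cr p i k}ᶜ ∪ {_p | j = k} ∪
          {p | par p i j = par p i k}ᶜ) := by
      ext p
      simp only [Set.mem_ofPred_eq, Set.mem_iInter, Set.mem_union, Set.mem_compl_iff]
      refine forall_congr' fun i => forall_congr' fun j => forall_congr' fun k => ?_
      tauto
    rw [e]
    refine MeasurableSet.iInter fun i => MeasurableSet.iInter fun j => MeasurableSet.iInter fun k => ?_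
    exact (((measurableSet_cr i j).compl.union (measurableSet_cr i k).compl).union
      (MeasurableSet.const _)).union
      (measurableSet_eq_fun (measurable_par i j) (measurable_par i k)).compl
  have h3 : MeasurableSet {p : Fin n → Pt | ∀ i j, Cr p i j → gap p i j ≠ 0} := by
    have e : {p : Fin n → Pt | ∀ i j, Cr p i j → gap p i j ≠ 0} =
        ⋂ i, ⋂ j, ({p | Cr p i j}ᶜ ∪ {p | gap p i j = 0}ᶜ) := by
      ext p
      simp only [Set.mem_ofPred_eq, Set.mem_iInter, Set.mem_union, Set.mem_compl_iff]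
      refine forall_congr' fun i => forall_congr' fun j => ?_
      tauto
    rw [e]
    refine MeasurableSet.iInter fun i => MeasurableSet.iInter fun j => ?_
    exact (measurableSet_cr i j).compl.union
      (measurableSet_eq_fun (measurable_gap i j) measurable_const).compl
  have e : {p : Fin n → Pt | Gen p} = {p : Fin n → Pt | ∀ i j k, i ≠ j → j ≠ k → i ≠ k →
      ((p j).1 - (p i).1) * ((p k).2.1 - (p i).2.1) -
      ((p j).2.1 - (p i).2.1) * ((p k).1 - (p i).1) ≠ 0} ∩ ({p : Fin n → Pt | ∀ i j k, Cr p i j →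
      Cr p i k → j ≠ k → par p i j ≠ par p i k} ∩ {p : Fin n → Pt | ∀ i j, Cr p i j →
      gap p i j ≠ 0}) := by
    ext p
    exact ⟨fun h => ⟨h.1, h.2, h.3⟩, fun h => ⟨h.1, h.2.1, h.2.2⟩⟩
  rw [e]
  exact h1.inter (h2.inter h3)

theorem transfer (ρ : Pt → ℝ≥0∞) (hρ : Measurable ρ) (h1 : ∫⁻ q, ρ q = 1) {a : Pt} {s : ℝ}
    {κ : Measure (Pt × Bool)} {c₀ H : ℝ} (hκ : Law κ c₀ H)
    (hmap : κ.map Prod.fst = (volume.withDensity ρ).map (sim a s)) (hsim : Measurable (sim a s))
    (n : ℕ) (E : Set (Fin n → Pt)) (hE : MeasurableSet E) :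
    (Measure.pi fun _ : Fin n => (volume : Measure Pt).withDensity ρ)
        {p | (fun i => sim a s (p i)) ∈ E} =
      (Measure.pi fun _ : Fin n => κ) {ω | pts ω ∈ E} := by
  have hprob := hκ.prob
  have hprob' : IsProbabilityMeasure ((volume : Measure Pt).withDensity ρ) :=
    ⟨by rw [withDensity_apply _ MeasurableSet.univ, Measure.restrict_univ, h1]⟩
  have hfst : IsProbabilityMeasure (κ.map Prod.fst) :=
    Measure.isProbabilityMeasure_map measurable_fst.aemeasurable
  have hfst' : IsProbabilityMeasure (((volume : Measure Pt).withDensity ρ).map (sim a s)) :=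
    Measure.isProbabilityMeasure_map hsim.aemeasurable
  have e1 := Measure.pi_map_pi (μ := fun _ : Fin n => κ) (f := fun _ => (Prod.fst : Pt × Bool → Pt))
    (fun _ => measurable_fst.aemeasurable)
  have e2 := Measure.pi_map_pi (μ := fun _ : Fin n => (volume : Measure Pt).withDensity ρ)
    (f := fun _ => sim a s) (fun _ => hsim.aemeasurable)
  have m1 : Measurable fun ω : Fin n → Pt × Bool => fun i => (ω i).1 :=
    measurable_pi_lambda _ fun i => measurable_fst.comp (measurable_pi_apply i)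
  have m2 : Measurable fun p : Fin n → Pt => fun i => sim a s (p i) :=
    measurable_pi_lambda _ fun i => hsim.comp (measurable_pi_apply i)
  have f1 := congrArg (fun μ => μ E) e1
  have f2 := congrArg (fun μ => μ E) e2

  rw [Measure.map_apply m1 hE] at f1
  rw [Measure.map_apply m2 hE] at f2
  have f3 : (Measure.pi fun _ : Fin n => κ.map Prod.fst) E =
      (Measure.pi fun _ : Fin n => ((volume : Measure Pt).withDensity ρ).map (sim a s)) E := by
    rw [hmap]
  exact f2.trans (f3.symm.trans f1.symm)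

theorem final (ρ : Pt → ℝ≥0∞) (hρ : Measurable ρ) (h1 : ∫⁻ q, ρ q = 1) (h : ℝ × ℝ → ℝ≥0∞)
    (hh : Measurable h) (hfin : ∫⁻ q, h q ≠ ∞) (hle : ∀ q, ρ q ≤ h (q.1, q.2.1)) (U : Set Pt)
    (hU : IsOpen U) (hne : U.Nonempty) (b : ℝ≥0∞) (hb : b ≠ 0) (hbU : ∀ q ∈ U, b ≤ ρ q) :
    ∃ C : ℝ, 0 < C ∧ ∀ n : ℕ, 3 ≤ n →
      (∀ᵐ p ∂(Measure.pi fun _ : Fin n => (volume : Measure Pt).withDensity ρ),
        ∃ (N : ℕ) (G : GaussWord N) (w : Fin N → Bool), Describes p G w) ∧
      ∀ c : ℤ, (Measure.pi fun _ : Fin n => (volume : Measure Pt).withDensity ρ)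
        {p | ∃ (N : ℕ) (G : GaussWord N) (w : Fin N → Bool), Describes p G w ∧
          moment 2 (fPoly G w) = c} ≤ ENNReal.ofReal (C * (n : ℝ) ^ (-(1 / 5) : ℝ)) := by
  obtain ⟨a, s, κ, c₀, H, hs, hκ, hmap⟩ := reduce ρ hρ h1 h hh hfin hle U hU hne b hb hbU
  have hsim : Measurable (sim a s) := Reduce.measurable_sim a s
  obtain ⟨C, hC, hbd⟩ := bound_n hκ
  refine ⟨C, hC, fun n hn => ?_⟩
  have hgen0 : (Measure.pi fun _ : Fin n => (volume : Measure Pt).withDensity ρ)
      {p | (fun i => sim a s (p i)) ∈ {p : Fin n → Pt | Gen p}ᶜ} = 0 := by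
    rw [transfer ρ hρ h1 hκ hmap hsim n _ measurableSet_gen.compl]
    exact gen_ae hκ hn
  have hgen : ∀ᵐ p ∂(Measure.pi fun _ : Fin n => (volume : Measure Pt).withDensity ρ),
      Gen (fun i => sim a s (p i)) := by
    rw [ae_iff]
    exact hgen0
  refine ⟨?_, ?_⟩
  · filter_upwards [hgen] with p hp
    obtain ⟨N, G, w, hG⟩ := desc_exists sword hn _ hp
    exact ⟨N, G, w, (sim_describes p a s hs G w).2 hG⟩
  · intro c
    have hmeas : MeasurableSet {p : Fin n → Pt | moment 2 (pol (dat p)) = c} :=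
      (measurable_dat n) (t := {d : Dat n | moment 2 (pol d) = c}) (Set.toFinite _).measurableSet
    have hsub : {p : Fin n → Pt | ∃ (N : ℕ) (G : GaussWord N) (w : Fin N → Bool),
        Describes p G w ∧ moment 2 (fPoly G w) = c} ⊆
        {p | (fun i => sim a s (p i)) ∈ {p : Fin n → Pt | Gen p}ᶜ} ∪
        {p | (fun i => sim a s (p i)) ∈ {p : Fin n → Pt | moment 2 (pol (dat p)) = c}} := by
      rintro p ⟨N, G, w, hd, hc⟩
      rw [Set.mem_union]
      by_cases hg : Gen (fun i => sim a s (p i))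
      · right
        have h2 := desc_pol sword srelabel hn _ hg G w ((sim_describes p a s hs G w).1 hd)
        show moment 2 (pol (dat (fun i => sim a s (p i)))) = c
        rw [← h2, hc]
      · left
        exact hg
    refine (measure_mono hsub).trans ((measure_union_le _ _).trans ?_)
    rw [hgen0, zero_add, transfer ρ hρ h1 hκ hmap hsim n _ hmeas]
    exact hbd n (by omega) c

end Pool.Agent.H756.RP
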