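import Mathlib

set_option autoImplicit false

/-!
Counting events: second moment, first moment, averaging.
-/

namespace Pool.Agent.H756.RP

open MeasureTheory Finset
open scoped ENNReal

variable {Ω : Type}

/-- the number of the events of a finite family which contain `ω` -/
noncomputable def cnt {Z : Type} (S : Finset Z) (A : Z → Set Ω) (ω : Ω) : ℝ :=
  ∑ z ∈ S, (A z).indicator (fun _ => (1 : ℝ)) ω

theorem cnt_eq {Z : Type} (S : Finset Z) (A : Z → Set Ω) (ω : Ω) [DecidablePred fun z => ω ∈ A z] :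
    cnt S A ω = ((S.filter fun z => ω ∈ A z).card : ℝ) := by
  unfold cnt
  rw [card_filter]
  push_cast
  refine sum_congr rfl fun z _ => ?_
  by_cases h : ω ∈ A z
  · rw [Set.indicator_of_mem h, if_pos h]
  · rw [Set.indicator_of_notMem h, if_neg h]

theorem cnt_nonneg {Z : Type} (S : Finset Z) (A : Z → Set Ω) (ω : Ω) : 0 ≤ cnt S A ω :=
  sum_nonneg fun _ _ => Set.indicator_nonneg (fun _ _ => zero_le_one) _

variable [MeasurableSpace Ω] (P : Measure Ω) [IsProbabilityMeasure P]

theorem ind_int {A : Set Ω} (hA : MeasurableSet A) :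
    Integrable (A.indicator (fun _ => (1 : ℝ))) P :=
  (integrable_const 1).indicator hA

theorem cnt_int {Z : Type} (S : Finset Z) (A : Z → Set Ω) (hA : ∀ z ∈ S, MeasurableSet (A z)) :
    Integrable (cnt S A) P := by
  unfold cnt
  exact integrable_finsetSum _ fun z hz => ind_int P (hA z hz)

theorem integral_cnt {Z : Type} (S : Finset Z) (A : Z → Set Ω)
    (hA : ∀ z ∈ S, MeasurableSet (A z)) : ∫ ω, cnt S A ω ∂P = ∑ z ∈ S, P.real (A z) := by
  unfold cnt
  rw [integral_finsetSum _ fun z hz => ind_int P (hA z hz)]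
  refine sum_congr rfl fun z hz => ?_
  exact integral_indicator_one (hA z hz)

/-- Markov -/
theorem markov {Z : Type} (S : Finset Z) (A : Z → Set Ω) (hA : ∀ z ∈ S, MeasurableSet (A z))
    (q t : ℝ) (ht : 0 < t) (hq : ∀ z ∈ S, P.real (A z) ≤ q) :
    P.real {ω | t ≤ cnt S A ω} ≤ S.card * q / t := by
  have h1 := mul_meas_ge_le_integral_of_nonneg (μ := P) (f := cnt S A)
    (Filter.Eventually.of_forall fun ω => cnt_nonneg S A ω) (cnt_int P S A hA) t
  rw [integral_cnt P S A hA] at h1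
  have h2 : ∑ z ∈ S, P.real (A z) ≤ S.card * q := by
    rw [← nsmul_eq_mul]
    exact sum_le_card_nsmul _ _ _ hq
  rw [le_div_iff₀ ht, mul_comm]
  exact h1.trans h2

theorem cnt_sq {Z : Type} (S : Finset Z) (A : Z → Set Ω) (ω : Ω) :
    cnt S A ω ^ 2 = ∑ z ∈ S, ∑ z' ∈ S, (A z ∩ A z').indicator (fun _ => (1 : ℝ)) ω := by
  unfold cnt
  rw [sq, sum_mul_sum]
  refine sum_congr rfl fun z _ => sum_congr rfl fun z' _ => ?_
  by_cases h : ω ∈ A z <;> by_cases h' : ω ∈ A z' <;> simp [Set.indicator, h, h']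

theorem integral_cnt_sq {Z : Type} (S : Finset Z) (A : Z → Set Ω)
    (hA : ∀ z ∈ S, MeasurableSet (A z)) :
    Integrable (fun ω => cnt S A ω ^ 2) P ∧
      ∫ ω, cnt S A ω ^ 2 ∂P = ∑ z ∈ S, ∑ z' ∈ S, P.real (A z ∩ A z') := by
  simp only [cnt_sq]
  have hi : ∀ z ∈ S, ∀ z' ∈ S, Integrable ((A z ∩ A z').indicator (fun _ => (1 : ℝ))) P :=
    fun z hz z' hz' => ind_int P ((hA z hz).inter (hA z' hz'))
  refine ⟨integrable_finsetSum _ fun z hz => integrable_finsetSum _ fun z' hz' =>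
    hi z hz z' hz', ?_⟩
  rw [integral_finsetSum _ fun z hz => integrable_finsetSum _ fun z' hz' => hi z hz z' hz']
  refine sum_congr rfl fun z hz => ?_
  rw [integral_finsetSum _ fun z' hz' => hi z hz z' hz']
  refine sum_congr rfl fun z' hz' => ?_
  exact integral_indicator_one ((hA z hz).inter (hA z' hz'))

/-- Chebyshev -/
theorem cheb {Z : Type} (S : Finset Z) (A : Z → Set Ω) (hA : ∀ z ∈ S, MeasurableSet (A z))
    (q D : ℝ) (hq : ∀ z ∈ S, P.real (A z) = q) (hpos : 0 < S.card * q)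
    (hD : ∑ z ∈ S, ∑ z' ∈ S, P.real (A z ∩ A z') ≤ (S.card * q) ^ 2 + D) :
    P.real {ω | cnt S A ω ≤ S.card * q / 2} ≤ 4 * D / (S.card * q) ^ 2 := by
  set a : ℝ := S.card * q with ha
  have hmean : ∫ ω, cnt S A ω ∂P = a := by
    rw [integral_cnt P S A hA, sum_congr rfl hq, sum_const, nsmul_eq_mul]
  obtain ⟨hi2, h2⟩ := integral_cnt_sq P S A hA
  have hi1 := cnt_int P S A hA
  have hint : Integrable (fun ω => (cnt S A ω - a) ^ 2) P := by
    have : (fun ω => (cnt S A ω - a) ^ 2) = fun ω => cnt S A ω ^ 2 - 2 * a * cnt S A ω + a ^ 2 := by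
      funext ω
      ring
    rw [this]
    exact (hi2.sub (hi1.const_mul (2 * a))).add (integrable_const _)
  have hval : ∫ ω, (cnt S A ω - a) ^ 2 ∂P ≤ D := by
    have : (fun ω => (cnt S A ω - a) ^ 2) = fun ω => cnt S A ω ^ 2 - 2 * a * cnt S A ω + a ^ 2 := by
      funext ω
      ring
    have e1 : ∫ ω, (cnt S A ω - a) ^ 2 ∂P =
        (∫ ω, cnt S A ω ^ 2 ∂P) - 2 * a * (∫ ω, cnt S A ω ∂P) + a ^ 2 := by
      have hs : Integrable (fun ω => cnt S A ω ^ 2 - 2 * a * cnt S A ω) P :=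
        hi2.sub (hi1.const_mul (2 * a))
      rw [this, integral_add hs (integrable_const _),
        integral_sub hi2 (hi1.const_mul (2 * a)), integral_const_mul, integral_const]
      simp
    rw [e1, h2, hmean]
    linarith
  have hmk := mul_meas_ge_le_integral_of_nonneg (μ := P) (f := fun ω => (cnt S A ω - a) ^ 2)
    (Filter.Eventually.of_forall fun ω => sq_nonneg _) hint ((a / 2) ^ 2)
  have hsub : {ω | cnt S A ω ≤ a / 2} ⊆ {ω | (a / 2) ^ 2 ≤ (cnt S A ω - a) ^ 2} := by
    intro ω hω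
    simp only [Set.mem_ofPred_eq] at hω ⊢
    nlinarith
  have h3 := measureReal_mono (μ := P) hsub
  have ha2 : 0 < (a / 2) ^ 2 := by positivity
  have h4 : P.real {ω | (a / 2) ^ 2 ≤ (cnt S A ω - a) ^ 2} ≤ D / (a / 2) ^ 2 := by
    rw [le_div_iff₀ ha2, mul_comm]
    exact hmk.trans hval
  refine (h3.trans h4).trans (le_of_eq ?_)
  field_simp
  ring

/-- averaging over a finite family of measure preserving maps -/
theorem avg {ι : Type} [Fintype ι] [Nonempty ι] (T : ι → Ω → Ω)
    (hT : ∀ i, MeasurePreserving (T i) P P) (E : Set Ω) (hE : MeasurableSet E) (Bad : Set Ω)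
    (b : ℝ) (hb : 0 ≤ b) [∀ ω, DecidablePred fun i => T i ω ∈ E]
    (hcnt : ∀ ω, ω ∉ Bad →
      ((univ.filter fun i => T i ω ∈ E).card : ℝ) ≤ b * Fintype.card ι) :
    P E ≤ P Bad + ENNReal.ofReal b := by
  classical
  have h1 : ∀ i, P E = P ((T i) ⁻¹' E) := fun i => ((hT i).measure_preimage hE.nullMeasurableSet).symm
  have hmeas : ∀ i, MeasurableSet ((T i) ⁻¹' E) := fun i => (hT i).measurable hE
  set K : ℝ≥0∞ := (Fintype.card ι : ℝ≥0∞) with hK
  have hK0 : K ≠ 0 := by
    rw [hK]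
    exact Nat.cast_ne_zero.2 Fintype.card_ne_zero
  have hKt : K ≠ ∞ := ENNReal.natCast_ne_top _
  have h2 : K * P E = ∫⁻ ω, ∑ i, ((T i) ⁻¹' E).indicator 1 ω ∂P := by
    rw [lintegral_finsetSum _ fun i _ => (measurable_one.indicator (hmeas i))]
    have : ∀ i ∈ (univ : Finset ι), ∫⁻ ω, ((T i) ⁻¹' E).indicator 1 ω ∂P = P E := by
      intro i _
      rw [lintegral_indicator_one (hmeas i), ← h1 i]
    rw [sum_congr rfl this, sum_const, nsmul_eq_mul, card_univ]
  set B' := toMeasurable P Bad with hB'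
  have h3 : ∀ ω, ∑ i, ((T i) ⁻¹' E).indicator (1 : Ω → ℝ≥0∞) ω ≤
      B'.indicator (fun _ => K) ω + ENNReal.ofReal b * K := by
    intro ω
    have e1 : ∑ i, ((T i) ⁻¹' E).indicator (1 : Ω → ℝ≥0∞) ω =
        ((univ.filter fun i => T i ω ∈ E).card : ℝ≥0∞) := by
      rw [card_filter]
      push_cast
      refine sum_congr rfl fun i _ => ?_
      by_cases h : T i ω ∈ E
      · rw [Set.indicator_of_mem (show ω ∈ (T i) ⁻¹' E from h), if_pos h]
        rfl
      · rw [Set.indicator_of_notMem (show ω ∉ (T i) ⁻¹' E from h), if_neg h]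
    rw [e1]
    by_cases hω : ω ∈ B'
    · rw [Set.indicator_of_mem hω]
      refine le_trans ?_ le_self_add
      rw [hK]
      exact Nat.cast_le.2 (card_le_univ _)
    · have hω' : ω ∉ Bad := fun h => hω (subset_toMeasurable P Bad h)
      have h4 := hcnt ω hω'
      refine le_trans ?_ le_add_self
      calc ((univ.filter fun i => T i ω ∈ E).card : ℝ≥0∞)
          = ENNReal.ofReal ((univ.filter fun i => T i ω ∈ E).card : ℝ) := by
            rw [ENNReal.ofReal_natCast]
        _ ≤ ENNReal.ofReal (b * Fintype.card ι) := ENNReal.ofReal_le_ofReal h4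
        _ = ENNReal.ofReal b * K := by
            rw [ENNReal.ofReal_mul hb, ENNReal.ofReal_natCast]
  have h5 : K * P E ≤ K * (P Bad + ENNReal.ofReal b) := by
    rw [h2]
    refine (lintegral_mono h3).trans ?_
    rw [lintegral_add_right _ measurable_const, lintegral_const,
      lintegral_indicator (measurableSet_toMeasurable P Bad), setLIntegral_const, measure_univ,
      mul_one, measure_toMeasurable]
    rw [mul_add, mul_comm (ENNReal.ofReal b) K]
  exact (ENNReal.mul_le_mul_iff_right hK0 hKt).1 h5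

end Pool.Agent.H756.RP
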