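import Pool.Agent.H756.RP.Geo

set_option autoImplicit false

/-!
# Events
-/

namespace Pool.Agent.H756.RP

variable {n : ℕ}

/-- the marked points of a box -/
def bx (xl xu yl yu zl zu : ℝ) : Set (Pt × Bool) :=
  {y | y.2 = true ∧ (xl ≤ y.1.1 ∧ y.1.1 ≤ xu) ∧ (yl ≤ y.1.2.1 ∧ y.1.2.1 ≤ yu) ∧
    zl ≤ y.1.2.2 ∧ y.1.2.2 ≤ zu}

def b1 : Set (Pt × Bool) := bx 0 (1 / 10) (9 / 20) (11 / 20) 0 1
def b2 : Set (Pt × Bool) := bx (9 / 10) 1 (9 / 20) (11 / 20) (9 / 20) (11 / 20)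
def b3 : Set (Pt × Bool) := bx (9 / 20) (11 / 20) 0 (1 / 10) (9 / 20) (11 / 20)
def b4 : Set (Pt × Bool) := bx (9 / 20) (11 / 20) (9 / 10) 1 (9 / 20) (11 / 20)

/-- the polygon without the marks -/
def pts (ω : Fin n → Pt × Bool) : Fin n → Pt := fun i => (ω i).1

/-- the ends of the edges `i` and `k` are in the four boxes, and the edge `i` is below the edge `k`,
but it is above it after the height of the vertex `i` has been increased by `δ` -/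
def Av (i k : Fin n) (δ : ℝ) : Set (Fin n → Pt × Bool) :=
  {ω | (ω i ∈ b1 ∧ ω (nx i) ∈ b2 ∧ ω k ∈ b3 ∧ ω (nx k) ∈ b4) ∧
    gap (pts ω) i k < 0 ∧ 0 < gap (pts ω) i k + (1 - par (pts ω) i k) * δ}

end Pool.Agent.H756.RP
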