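import Pool.Agent.H756.RP.Flip4
import Pool.Agent.H756.RP.Asm1
import Pool.Agent.H756.RP.Ev

set_option autoImplicit false

/-!
The blocks of vertices, and the vertices whose height can be used to change one crossing.
-/

namespace Pool.Agent.H756.RP

open MeasureTheory Finset
open scoped ENNReal

variable {n : ℕ}

/-- the vertices with odd numbers in `[2 m a, 2 m (a + 1))` -/
def blk (n m a : ℕ) : Finset (Fin n) :=
  univ.filter fun i => (i : ℕ) % 2 = 1 ∧ 2 * m * a ≤ i ∧ (i : ℕ) < 2 * m * (a + 1)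

theorem mem_blk {m a : ℕ} {i : Fin n} :
    i ∈ blk n m a ↔ (i : ℕ) % 2 = 1 ∧ 2 * m * a ≤ i ∧ (i : ℕ) < 2 * m * (a + 1) := by
  unfold blk
  rw [mem_filter]
  simp

theorem card_blk {m a : ℕ} (hn : 2 * m * (a + 1) ≤ n) : (blk n m a).card = m := by
  have h : (blk n m a).card = (range m).card := by
    symm
    refine card_bij (fun r hr => (⟨2 * m * a + 2 * r + 1, ?_⟩ : Fin n)) ?_ ?_ ?_
    · rw [mem_range] at hr
      have e : 2 * m * (a + 1) = 2 * m * a + 2 * m := by ring
      omega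
    · intro r hr
      rw [mem_range] at hr
      rw [mem_blk]
      have e : 2 * m * (a + 1) = 2 * m * a + 2 * m := by ring
      have e2 : 2 * m * a = 2 * (m * a) := by ring
      refine ⟨?_, ?_, ?_⟩
      · show (2 * m * a + 2 * r + 1) % 2 = 1
        omega
      · show 2 * m * a ≤ 2 * m * a + 2 * r + 1
        omega
      · show 2 * m * a + 2 * r + 1 < _
        omega
    · intro r hr r' hr' h
      have := congrArg Fin.val h
      simp only at this
      omega
    · intro i hi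
      rw [mem_blk] at hi
      have e : 2 * m * (a + 1) = 2 * m * a + 2 * m := by ring
      have e2 : 2 * m * a = 2 * (m * a) := by ring
      refine ⟨((i : ℕ) - 2 * m * a) / 2, ?_, ?_⟩
      · rw [mem_range]
        omega
      · apply Fin.ext
        show 2 * m * a + 2 * (((i : ℕ) - 2 * m * a) / 2) + 1 = i
        omega
  rw [h, card_range]

theorem nx_val (i : Fin n) : ((nx i : Fin n) : ℕ) = if (i : ℕ) + 1 = n then 0 else (i : ℕ) + 1 := by
  unfold nx
  exact Pool.Agent.H832R2.JR.finRotate_val i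

theorem nx_inj {i j : Fin n} (h : nx i = nx j) : i = j := (finRotate n).injective h

/-- the arithmetic of the blocks -/
theorem blk_far {m a : ℕ} (hn : 8 * m + 1 ≤ n) (ha : a ≤ 1) {i k : Fin n} (hi : i ∈ blk n m a)
    (hk : k ∈ blk n m (a + 2)) : 1 ≤ (i : ℕ) ∧ (i : ℕ) + 2 < k ∧ (k : ℕ) + 1 < n := by
  rw [mem_blk] at hi hk
  interval_cases a <;> omega

theorem blk_ne {m a : ℕ} (hn : 8 * m + 1 ≤ n) (ha : a ≤ 1) {i k : Fin n} (hi : i ∈ blk n m a)
    (hk : k ∈ blk n m (a + 2)) :
    i ≠ nx i ∧ i ≠ k ∧ i ≠ nx k ∧ nx i ≠ k ∧ nx i ≠ nx k ∧ k ≠ nx k := by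
  obtain ⟨h1, h2, h3⟩ := blk_far hn ha hi hk
  have e1 := nx_val i
  have e2 := nx_val k
  rw [if_neg (by omega)] at e1 e2
  refine ⟨?_, ?_, ?_, ?_, ?_, ?_⟩ <;> intro h <;> have h' := congrArg Fin.val h <;> omega

open Classical in
/-- the vertices `i` of the block `a` such that for some edge `k` of the block `a + 2` the increase of
the height of `i` changes the crossing with `k` and no other crossing -/
noncomputable def good (n m a : ℕ) (δ : ℝ) (ω : Fin n → Pt × Bool) : Finset (Fin n) :=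
  (blk n m a).filter fun i => ∃ k ∈ blk n m (a + 2), ω ∈ Av i k δ ∧
    ∀ e f, (e = i ∨ nx e = i) → Cr (pts ω) e f → (e, f) ≠ (i, k) → 2 * δ < |gap (pts ω) e f|

/-- the pairs of a vertex and an edge -/
def prs (n m a : ℕ) : Finset (Fin n × Fin n) := blk n m a ×ˢ blk n m (a + 2)

/-- the pairs with a further crossing -/
def qds (n m a : ℕ) : Finset ((Fin n × Fin n) × Fin n × Fin n) :=
  (prs n m a ×ˢ univ).filter fun y =>
    (y.2.1 = y.1.1 ∨ nx y.2.1 = y.1.1) ∧ (y.2.1, y.2.2) ≠ (y.1.1, y.1.2)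

/-- the event of a further crossing with a small difference of heights -/
def Bv (δ : ℝ) (y : (Fin n × Fin n) × Fin n × Fin n) : Set (Fin n → Pt × Bool) :=
  Av y.1.1 y.1.2 δ ∩ {ω | Cr (pts ω) y.2.1 y.2.2 ∧ |gap (pts ω) y.2.1 y.2.2| ≤ 2 * δ}

theorem card_prs {m a : ℕ} (hn : 8 * m + 1 ≤ n) (ha : a ≤ 1) : (prs n m a).card = m * m := by
  unfold prs
  rw [card_product, card_blk, card_blk]
  · interval_cases a <;> omega
  · interval_cases a <;> omega

theorem card_qds {m a : ℕ} (hn : 8 * m + 1 ≤ n) (ha : a ≤ 1) :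
    (qds n m a).card ≤ m * m * (2 * n) := by
  classical
  have h1 : qds n m a ⊆ (prs n m a).biUnion (fun z =>
      (({z.1, (finRotate n).symm z.1} : Finset (Fin n)) ×ˢ univ).image (fun w => (z, w))) := by
    intro y hy
    unfold qds at hy
    rw [mem_filter, mem_product] at hy
    rw [mem_biUnion]
    refine ⟨y.1, hy.1.1, ?_⟩
    rw [mem_image]
    refine ⟨y.2, ?_, rfl⟩
    rw [mem_product, mem_insert, mem_singleton]
    refine ⟨?_, mem_univ _⟩
    rcases hy.2.1 with h | h
    · exact Or.inl h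
    · right
      rw [← h]
      exact ((finRotate n).symm_apply_apply _).symm
  refine (card_le_card h1).trans ?_
  refine (card_biUnion_le_card_mul _ _ (2 * n) ?_).trans ?_
  · intro z _
    refine card_image_le.trans ?_
    rw [card_product, card_univ, Fintype.card_fin]
    exact Nat.mul_le_mul_right _ card_le_two
  · rw [card_prs hn ha]

theorem gap_of_Av {i k : Fin n} {δ : ℝ} {ω : Fin n → Pt × Bool} (hδ : 0 < δ) (h : ω ∈ Av i k δ)
    (hp : 0 < par (pts ω) i k) : |gap (pts ω) i k| ≤ δ := by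
  obtain ⟨_, h1, h2⟩ := h
  rw [abs_le]
  constructor
  · nlinarith
  · linarith

/-- the number of the good vertices -/
theorem card_good {m a : ℕ} {δ : ℝ} (hδ : 0 < δ) (ω : Fin n → Pt × Bool)
    (hcr : ∀ i k, ω ∈ Av i k δ → Cr (pts ω) i k) :
    cnt (prs n m a) (fun z => Av z.1 z.2 δ) ω - cnt (qds n m a) (Bv δ) ω ≤
      (good n m a δ ω).card := by
  classical
  rw [cnt_eq, cnt_eq]
  set X := (prs n m a).filter fun z => ω ∈ Av z.1 z.2 δ with hX
  set Y := (qds n m a).filter fun y => ω ∈ Bv δ y with hY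
  set W := X.filter fun z => ∀ e f, (e = z.1 ∨ nx e = z.1) → Cr (pts ω) e f →
    (e, f) ≠ (z.1, z.2) → 2 * δ < |gap (pts ω) e f| with hW
  have h1 : (X.filter fun z => ¬ ∀ e f, (e = z.1 ∨ nx e = z.1) → Cr (pts ω) e f →
      (e, f) ≠ (z.1, z.2) → 2 * δ < |gap (pts ω) e f|).card ≤ Y.card := by
    refine (card_le_card ?_).trans (card_image_le (s := Y) (f := Prod.fst))
    intro z hz
    rw [mem_filter] at hz
    obtain ⟨hz1, hz2⟩ := hz
    push Not at hz2
    obtain ⟨e, f, he, hc, hne, hg⟩ := hz2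
    rw [hX, mem_filter] at hz1
    rw [mem_image]
    refine ⟨(z, (e, f)), ?_, rfl⟩
    rw [hY, mem_filter]
    refine ⟨?_, hz1.2, hc, hg⟩
    unfold qds
    rw [mem_filter, mem_product]
    exact ⟨⟨hz1.1, mem_univ _⟩, he, hne⟩
  have h2 : W.card ≤ (good n m a δ ω).card := by
    refine card_le_card_of_injOn Prod.fst ?_ ?_
    · intro z hz
      rw [mem_coe, hW, mem_filter, hX, mem_filter] at hz
      have hz1 := hz.1.1
      unfold prs at hz1
      rw [mem_product] at hz1
      rw [mem_coe]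
      unfold good
      rw [mem_filter]
      exact ⟨hz1.1, z.2, hz1.2, hz.1.2, hz.2⟩
    · intro z hz z' hz' h
      rw [mem_coe, hW, mem_filter, hX, mem_filter] at hz hz'
      by_contra hne
      have h3 : z.2 ≠ z'.2 := fun h4 => hne (Prod.ext h h4)
      have h4 : ω ∈ Av z.1 z'.2 δ := by
        rw [h]
        exact hz'.1.2
      have h5 := hcr _ _ h4
      have h6 := hz.2 z.1 z'.2 (Or.inl rfl) h5 (by
        intro h7
        exact h3 (Prod.ext_iff.1 h7).2.symm)
      have h7 := gap_of_Av hδ h4 h5.2.1.1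
      linarith
  have h3 := card_filter_add_card_filter_not (s := X) (fun z => ∀ e f,
    (e = z.1 ∨ nx e = z.1) → Cr (pts ω) e f → (e, f) ≠ (z.1, z.2) → 2 * δ < |gap (pts ω) e f|)
  have h4 : X.card ≤ (good n m a δ ω).card + Y.card := by
    rw [← h3]
    exact Nat.add_le_add h2 h1
  have h5 : (X.card : ℝ) ≤ (good n m a δ ω).card + Y.card := by exact_mod_cast h4
  linarith

/-- the marked vertices of the first two blocks in the slab `0 ≤ z < 1` -/
noncomputable def act0 (n m : ℕ) (ω : Fin n → Pt × Bool) : Finset (Fin n) :=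
  open Classical in
  (blk n m 0 ∪ blk n m 1).filter fun i =>
    (ω i).2 = true ∧ 0 ≤ (ω i).1.2.2 ∧ (ω i).1.2.2 < 1

/-- the translation does not wrap around -/
def nowrap (n m : ℕ) (δ : ℝ) (ω : Fin n → Pt × Bool) : Prop :=
  ∀ i ∈ act0 n m ω, (ω i).1.2.2 + δ < 1

theorem pts_act {m : ℕ} {δ : ℝ} (ω : Fin n → Pt × Bool) (hω : nowrap n m δ ω)
    (ε : Fin n → Bool) :
    pts (act (blk n m 0 ∪ blk n m 1) δ ε ω) = shift (pts ω) (act0 n m ω) δ ε := by
  classical
  funext i
  unfold pts act shift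
  by_cases h1 : i ∈ blk n m 0 ∪ blk n m 1 ∧ ε i = true
  · rw [if_pos h1]
    by_cases h2 : (ω i).2 = true ∧ 0 ≤ (ω i).1.2.2 ∧ (ω i).1.2.2 < 1
    · have h3 : i ∈ act0 n m ω := by
        unfold act0
        rw [mem_filter]
        exact ⟨h1.1, h2⟩
      rw [if_pos ⟨h3, h1.2⟩]
      unfold tr
      rw [if_pos h2, if_pos (hω i h3)]
    · rw [if_neg]
      · unfold tr
        rw [if_neg h2]
      · rintro ⟨h3, _⟩
        unfold act0 at h3
        rw [mem_filter] at h3
        exact h2 h3.2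
  · rw [if_neg h1, if_neg]
    rintro ⟨h3, h4⟩
    unfold act0 at h3
    rw [mem_filter] at h3
    exact h1 ⟨h3.1, h4⟩

end Pool.Agent.H756.RP
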