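import Pool.Agent.H756.RP.Ev

set_option autoImplicit false

/-!
Fubini for one coordinate, and the probability of the events `Av i k δ`.

`sec_le`, `sec_eq`: `P (A ∩ B) = ∫⁻ ω, κ {y | update ω v y ∈ A ∩ B} dP` (`lintegral_indicator`, `lmarginal_singleton`,
`lintegral_eq_lmarginal_univ`, `lmarginal_erase`..., or `lintegral_eq_of_lmarginal_eq`), and `update ω v y ∈ B ↔ ω ∈ B`.

Geometry (`box_par`): write `λ = par p i k`, `μ = par p k i`.  If the four ends are in the boxes, then the lines cross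
in a point with both coordinates in `[9/20, 11/20]` (it is on the edge `k`, `x ∈ [9/20, 11/20]`, and on the edge `i`,
`y ∈ [9/20, 11/20]`), `det ≥ 16/25 - 1/100 > 0`, and `λ, μ ∈ [35/90, 55/90] ⊆ [3/8, 5/8]`.

`gap = (1-λ) z_i + λ z_{nx i} - (1-μ) z_k - μ z_{nx k}`; `λ`, `μ` do not depend on heights.
`Av_sec`: for fixed other coordinates the condition `-(1-λ) δ < gap < 0` restricts the height of the vertex `v` to an
open interval of length `(1-λ)δ/|coefficient of z_v| ≤ 3 δ` depending measurably on `(x, y)`, and `(x, y)` is in a square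
of area `1/100`, so by `unif` and Fubini the measure is at most `c₀ * (1/100) * (3 δ)`.
`Av_prob`: coordinate `i`: if the other three ends are in their boxes then the section is
`{marked, (x,y) in the box, z ∈ (θ - δ, θ)}` with `θ = ((1-μ) z_k + μ z_{nx k} - λ z_{nx i})/(1-λ) ∈ [1/4, 3/4]` and
`δ ≤ 1/10`, so it is contained in the cube and its measure is exactly `c₀ δ / 100`.  The other three coordinates:
`κ b2 = κ b3 = κ b4 = c₀ / 1000`.  Use `sec_eq` four times.
-/

namespace Pool.Agent.H756.RP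

open MeasureTheory
open scoped ENNReal

variable {n : ℕ}

theorem sec_aux {κ : Measure (Pt × Bool)} [IsProbabilityMeasure κ] {A B : Set (Fin n → Pt × Bool)}
    (v : Fin n) (hBv : ∀ ω y, Function.update ω v y ∈ B ↔ ω ∈ B) (ω : Fin n → Pt × Bool)
    (hA : MeasurableSet A) :
    (∫⋯∫⁻_{v}, (A ∩ B).indicator (fun _ => 1) ∂(fun _ : Fin n => κ)) ω =
      B.indicator (fun ω => κ {y | Function.update ω v y ∈ A}) ω := by
  rw [lmarginal_singleton]
  by_cases h : ω ∈ B
  · rw [Set.indicator_of_mem h]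
    have hm : MeasurableSet {y | Function.update ω v y ∈ A} :=
      (measurable_update ω) hA
    rw [← lintegral_indicator_one hm]
    apply lintegral_congr
    intro y
    by_cases h2 : Function.update ω v y ∈ A
    · rw [Set.indicator_of_mem (show y ∈ {y | Function.update ω v y ∈ A} from h2),
        Set.indicator_of_mem (show Function.update ω v y ∈ A ∩ B from ⟨h2, (hBv ω y).2 h⟩)]
      rfl
    · rw [Set.indicator_of_notMem (show y ∉ {y | Function.update ω v y ∈ A} from h2),
        Set.indicator_of_notMem (fun h3 => h2 h3.1)]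
  · rw [Set.indicator_of_notMem h]
    have : ∀ y, (A ∩ B).indicator (fun _ => (1 : ℝ≥0∞)) (Function.update ω v y) = 0 := by
      intro y
      apply Set.indicator_of_notMem
      intro h3
      exact h ((hBv ω y).1 h3.2)
    simp only [this, lintegral_zero]

theorem sec_aux2 {κ : Measure (Pt × Bool)} [IsProbabilityMeasure κ] {B : Set (Fin n → Pt × Bool)}
    (v : Fin n) (b : ℝ≥0∞) (hBv : ∀ ω y, Function.update ω v y ∈ B ↔ ω ∈ B)
    (ω : Fin n → Pt × Bool) :
    (∫⋯∫⁻_{v}, B.indicator (fun _ => b) ∂(fun _ : Fin n => κ)) ω =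
      B.indicator (fun _ => b) ω := by
  rw [lmarginal_singleton]
  have : ∀ y, B.indicator (fun _ => b) (Function.update ω v y) = B.indicator (fun _ => b) ω := by
    intro y
    by_cases h : ω ∈ B
    · rw [Set.indicator_of_mem h, Set.indicator_of_mem ((hBv ω y).2 h)]
    · rw [Set.indicator_of_notMem h, Set.indicator_of_notMem (fun h2 => h ((hBv ω y).1 h2))]
  simp only [this, lintegral_const, measure_univ, mul_one]

theorem sec_le {κ : Measure (Pt × Bool)} [IsProbabilityMeasure κ] {A B : Set (Fin n → Pt × Bool)}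
    (hA : MeasurableSet A) (hB : MeasurableSet B) (v : Fin n) (b : ℝ≥0∞)
    (hBv : ∀ ω y, Function.update ω v y ∈ B ↔ ω ∈ B)
    (hs : ∀ ω, κ {y | Function.update ω v y ∈ A} ≤ b) :
    (Measure.pi fun _ : Fin n => κ) (A ∩ B) ≤ b * (Measure.pi fun _ : Fin n => κ) B := by
  rw [← lintegral_indicator_const (hA.inter hB) 1 |>.trans (one_mul _),
    ← lintegral_indicator_const hB b]
  refine lintegral_le_of_lmarginal_le {v} (measurable_const.indicator (hA.inter hB))
    (measurable_const.indicator hB) ?_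
  intro ω
  rw [sec_aux v hBv ω hA, sec_aux2 v b hBv ω]
  by_cases h : ω ∈ B
  · rw [Set.indicator_of_mem h, Set.indicator_of_mem h]; exact hs ω
  · rw [Set.indicator_of_notMem h, Set.indicator_of_notMem h]

theorem sec_eq {κ : Measure (Pt × Bool)} [IsProbabilityMeasure κ] {A B : Set (Fin n → Pt × Bool)}
    (hA : MeasurableSet A) (hB : MeasurableSet B) (v : Fin n) (b : ℝ≥0∞)
    (hBv : ∀ ω y, Function.update ω v y ∈ B ↔ ω ∈ B)
    (hs : ∀ ω ∈ B, κ {y | Function.update ω v y ∈ A} = b) :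
    (Measure.pi fun _ : Fin n => κ) (A ∩ B) = b * (Measure.pi fun _ : Fin n => κ) B := by
  rw [← lintegral_indicator_const (hA.inter hB) 1 |>.trans (one_mul _),
    ← lintegral_indicator_const hB b]
  refine lintegral_eq_of_lmarginal_eq {v} (measurable_const.indicator (hA.inter hB))
    (measurable_const.indicator hB) ?_
  funext ω
  rw [sec_aux v hBv ω hA, sec_aux2 v b hBv ω]
  by_cases h : ω ∈ B
  · rw [Set.indicator_of_mem h, Set.indicator_of_mem h]; exact hs ω h
  · rw [Set.indicator_of_notMem h, Set.indicator_of_notMem h]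

theorem box_num (x1 x2 x3 x4 y1 y2 y3 y4 : ℝ) (a1 : 0 ≤ x1) (a1' : x1 ≤ 1 / 10)
    (a2 : 9 / 10 ≤ x2) (a2' : x2 ≤ 1) (a3 : 9 / 20 ≤ x3) (a3' : x3 ≤ 11 / 20) (a4 : 9 / 20 ≤ x4)
    (a4' : x4 ≤ 11 / 20) (c1 : 9 / 20 ≤ y1) (c1' : y1 ≤ 11 / 20) (c2 : 9 / 20 ≤ y2)
    (c2' : y2 ≤ 11 / 20) (c3 : 0 ≤ y3) (c3' : y3 ≤ 1 / 10) (c4 : 9 / 10 ≤ y4) (c4' : y4 ≤ 1) :
    let D := (x2 - x1) * (y4 - y3) - (y2 - y1) * (x4 - x3)
    let L := ((x3 - x1) * (y4 - y3) - (y3 - y1) * (x4 - x3)) / D
    let M := ((x1 - x3) * (y2 - y1) - (y1 - y3) * (x2 - x1)) / (-D)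
    0 < D ∧ (3 / 8 ≤ L ∧ L ≤ 5 / 8) ∧ 3 / 8 ≤ M ∧ M ≤ 5 / 8 := by
  intro D L M
  have hDef : D = (x2 - x1) * (y4 - y3) - (y2 - y1) * (x4 - x3) := rfl
  have hD : 0 < D := by
    have e1 : (8 / 10 : ℝ) * (8 / 10) ≤ (x2 - x1) * (y4 - y3) :=
      mul_le_mul (by linarith) (by linarith) (by norm_num) (by linarith)
    have e2 : |(y2 - y1) * (x4 - x3)| ≤ (1 / 10) * (1 / 10) := by
      rw [abs_mul]
      exact mul_le_mul (abs_le.2 ⟨by linarith, by linarith⟩) (abs_le.2 ⟨by linarith, by linarith⟩)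
        (abs_nonneg _) (by norm_num)
    have e3 := (abs_le.1 e2).2
    rw [hDef]
    linarith
  have hL : L * D = (x3 - x1) * (y4 - y3) - (y3 - y1) * (x4 - x3) :=
    div_mul_cancel₀ _ hD.ne'
  have hM : M * D = (y1 - y3) * (x2 - x1) - (x1 - x3) * (y2 - y1) := by
    have : M * (-D) = (x1 - x3) * (y2 - y1) - (y1 - y3) * (x2 - x1) :=
      div_mul_cancel₀ _ (neg_ne_zero.2 hD.ne')
    linarith
  have hx : (1 - L) * x1 + L * x2 = (1 - M) * x3 + M * x4 := by
    apply mul_right_cancel₀ hD.ne'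
    have e : ((1 - L) * x1 + L * x2) * D - ((1 - M) * x3 + M * x4) * D =
        (x1 - x3) * D + (L * D) * (x2 - x1) - (M * D) * (x4 - x3) := by ring
    rw [← sub_eq_zero, e, hL, hM, hDef]
    ring
  have hy : (1 - L) * y1 + L * y2 = (1 - M) * y3 + M * y4 := by
    apply mul_right_cancel₀ hD.ne'
    have e : ((1 - L) * y1 + L * y2) * D - ((1 - M) * y3 + M * y4) * D =
        (y1 - y3) * D + (L * D) * (y2 - y1) - (M * D) * (y4 - y3) := by ring
    rw [← sub_eq_zero, e, hL, hM, hDef]
    ring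
  have hM0 : 0 < M := by
    have : 0 < M * D := by
      rw [hM]
      have e1 : (7 / 20 : ℝ) * (8 / 10) ≤ (y1 - y3) * (x2 - x1) :=
        mul_le_mul (by linarith) (by linarith) (by norm_num) (by linarith)
      have e2 : |(x1 - x3) * (y2 - y1)| ≤ (11 / 20) * (1 / 10) := by
        rw [abs_mul]
        exact mul_le_mul (abs_le.2 ⟨by linarith, by linarith⟩)
          (abs_le.2 ⟨by linarith, by linarith⟩) (abs_nonneg _) (by norm_num)
      have e3 := (abs_le.1 e2).2
      linarith
    exact pos_of_mul_pos_left this hD.le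
  have hM1 : M < 1 := by
    have : 0 < (1 - M) * D := by
      have e0 : (1 - M) * D = (x2 - x1) * (y4 - y1) - (y2 - y1) * (x4 - x1) := by
        rw [sub_mul, hM, hDef]; ring
      rw [e0]
      have e1 : (8 / 10 : ℝ) * (7 / 20) ≤ (x2 - x1) * (y4 - y1) :=
        mul_le_mul (by linarith) (by linarith) (by norm_num) (by linarith)
      have e2 : |(y2 - y1) * (x4 - x1)| ≤ (1 / 10) * (11 / 20) := by
        rw [abs_mul]
        exact mul_le_mul (abs_le.2 ⟨by linarith, by linarith⟩)
          (abs_le.2 ⟨by linarith, by linarith⟩) (abs_nonneg _) (by norm_num)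
      have e3 := (abs_le.1 e2).2
      linarith
    have := pos_of_mul_pos_left this hD.le
    linarith
  have hL0 : 0 < L := by
    have : 0 < L * D := by
      rw [hL]
      have e1 : (7 / 20 : ℝ) * (8 / 10) ≤ (x3 - x1) * (y4 - y3) :=
        mul_le_mul (by linarith) (by linarith) (by norm_num) (by linarith)
      have e2 : |(y3 - y1) * (x4 - x3)| ≤ (11 / 20) * (1 / 10) := by
        rw [abs_mul]
        exact mul_le_mul (abs_le.2 ⟨by linarith, by linarith⟩)
          (abs_le.2 ⟨by linarith, by linarith⟩) (abs_nonneg _) (by norm_num)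
      have e3 := (abs_le.1 e2).2
      linarith
    exact pos_of_mul_pos_left this hD.le
  have hL1 : L < 1 := by
    have : 0 < (1 - L) * D := by
      have e0 : (1 - L) * D = (x2 - x3) * (y4 - y3) - (y2 - y3) * (x4 - x3) := by
        rw [sub_mul, hL, hDef]; ring
      rw [e0]
      have e1 : (7 / 20 : ℝ) * (8 / 10) ≤ (x2 - x3) * (y4 - y3) :=
        mul_le_mul (by linarith) (by linarith) (by norm_num) (by linarith)
      have e2 : |(y2 - y3) * (x4 - x3)| ≤ (11 / 20) * (1 / 10) := by
        rw [abs_mul]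
        exact mul_le_mul (abs_le.2 ⟨by linarith, by linarith⟩)
          (abs_le.2 ⟨by linarith, by linarith⟩) (abs_nonneg _) (by norm_num)
      have e3 := (abs_le.1 e2).2
      linarith
    have := pos_of_mul_pos_left this hD.le
    linarith
  -- the common point
  have nM : 0 ≤ 1 - M := by linarith
  have nL : 0 ≤ 1 - L := by linarith
  have X1 : 9 / 20 ≤ (1 - M) * x3 + M * x4 := by
    have e1 := mul_nonneg nM (sub_nonneg.2 a3)
    have e2 := mul_nonneg hM0.le (sub_nonneg.2 a4)
    linarith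
  have X2 : (1 - M) * x3 + M * x4 ≤ 11 / 20 := by
    have e1 := mul_nonneg nM (sub_nonneg.2 a3')
    have e2 := mul_nonneg hM0.le (sub_nonneg.2 a4')
    linarith
  have Y1 : 9 / 20 ≤ (1 - L) * y1 + L * y2 := by
    have e1 := mul_nonneg nL (sub_nonneg.2 c1)
    have e2 := mul_nonneg hL0.le (sub_nonneg.2 c2)
    linarith
  have Y2 : (1 - L) * y1 + L * y2 ≤ 11 / 20 := by
    have e1 := mul_nonneg nL (sub_nonneg.2 c1')
    have e2 := mul_nonneg hL0.le (sub_nonneg.2 c2')
    linarith
  refine ⟨hD, ⟨?_, ?_⟩, ?_, ?_⟩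
  · have e1 := mul_nonneg nL (sub_nonneg.2 a1')
    have e2 := mul_nonneg hL0.le (sub_nonneg.2 a2')
    linarith
  · have e1 := mul_nonneg nL a1
    have e2 := mul_nonneg hL0.le (sub_nonneg.2 a2)
    linarith
  · have e1 := mul_nonneg nM (sub_nonneg.2 c3')
    have e2 := mul_nonneg hM0.le (sub_nonneg.2 c4')
    linarith
  · have e1 := mul_nonneg nM c3
    have e2 := mul_nonneg hM0.le (sub_nonneg.2 c4)
    linarith

theorem box_par (p : Fin n → Pt) (i k : Fin n) (m : Fin n → Bool)
    (h1 : (p i, m i) ∈ b1) (h2 : (p (nx i), m (nx i)) ∈ b2) (h3 : (p k, m k) ∈ b3)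
    (h4 : (p (nx k), m (nx k)) ∈ b4) :
    Cr p i k ∧ (3 / 8 ≤ par p i k ∧ par p i k ≤ 5 / 8) ∧ 3 / 8 ≤ par p k i ∧ par p k i ≤ 5 / 8 := by
  obtain ⟨-, ⟨h11, h12⟩, ⟨h13, h14⟩, -⟩ := h1
  obtain ⟨-, ⟨h21, h22⟩, ⟨h23, h24⟩, -⟩ := h2
  obtain ⟨-, ⟨h31, h32⟩, ⟨h33, h34⟩, -⟩ := h3
  obtain ⟨-, ⟨h41, h42⟩, ⟨h43, h44⟩, -⟩ := h4
  obtain ⟨hD, ⟨hL1, hL2⟩, hM1, hM2⟩ := box_num _ _ _ _ _ _ _ _ h11 h12 h21 h22 h31 h32 h41 h42
    h13 h14 h23 h24 h33 h34 h43 h44
  have e1 : det p k i = - det p i k := by unfold det; ring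
  have e2 : par p k i = (((p i).1 - (p k).1) * ((p (nx i)).2.1 - (p i).2.1) -
    ((p i).2.1 - (p k).2.1) * ((p (nx i)).1 - (p i).1)) / (- det p i k) := by
    rw [← e1]; rfl
  have L1 : 3 / 8 ≤ par p i k := hL1
  have L2 : par p i k ≤ 5 / 8 := hL2
  have M1 : 3 / 8 ≤ par p k i := by rw [e2]; exact hM1
  have M2 : par p k i ≤ 5 / 8 := by rw [e2]; exact hM2
  have hD' : 0 < det p i k := hD
  exact ⟨⟨hD'.ne', ⟨by linarith, by linarith⟩, by linarith, by linarith⟩, ⟨L1, L2⟩, M1, M2⟩

theorem secA_meas_det (i k : Fin n) : Measurable fun ω : Fin n → Pt × Bool => det (pts ω) i k := by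
  unfold det pts
  fun_prop

theorem secA_meas_par (i k : Fin n) : Measurable fun ω : Fin n → Pt × Bool => par (pts ω) i k := by
  unfold par
  apply Measurable.div _ (secA_meas_det i k)
  unfold pts
  fun_prop

theorem secA_meas_hgt (i : Fin n) (f : (Fin n → Pt × Bool) → ℝ) (hf : Measurable f) :
    Measurable fun ω : Fin n → Pt × Bool => hgt (pts ω) i (f ω) := by
  unfold hgt pts
  fun_prop

theorem secA_meas_gap (i k : Fin n) : Measurable fun ω : Fin n → Pt × Bool => gap (pts ω) i k := by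
  unfold gap
  exact (secA_meas_hgt i _ (secA_meas_par i k)).sub (secA_meas_hgt k _ (secA_meas_par k i))

theorem measurableSet_bx (xl xu yl yu zl zu : ℝ) : MeasurableSet (bx xl xu yl yu zl zu) := by
  have hx : Measurable fun y : Pt × Bool => y.1.1 := measurable_fst.comp measurable_fst
  have hy : Measurable fun y : Pt × Bool => y.1.2.1 :=
    measurable_fst.comp (measurable_snd.comp measurable_fst)
  have hz : Measurable fun y : Pt × Bool => y.1.2.2 :=
    measurable_snd.comp (measurable_snd.comp measurable_fst)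
  refine MeasurableSet.inter (measurable_snd (measurableSet_singleton true))
    (MeasurableSet.inter ?_ (MeasurableSet.inter ?_ ?_))
  · exact (measurableSet_le measurable_const hx).inter (measurableSet_le hx measurable_const)
  · exact (measurableSet_le measurable_const hy).inter (measurableSet_le hy measurable_const)
  · exact (measurableSet_le measurable_const hz).inter (measurableSet_le hz measurable_const)

theorem measurableSet_b1 : MeasurableSet b1 := measurableSet_bx _ _ _ _ _ _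
theorem measurableSet_b2 : MeasurableSet b2 := measurableSet_bx _ _ _ _ _ _
theorem measurableSet_b3 : MeasurableSet b3 := measurableSet_bx _ _ _ _ _ _
theorem measurableSet_b4 : MeasurableSet b4 := measurableSet_bx _ _ _ _ _ _

theorem measurableSet_Av (i k : Fin n) (δ : ℝ) : MeasurableSet (Av i k δ) := by
  unfold Av
  apply MeasurableSet.inter
  · refine MeasurableSet.inter ?_ (MeasurableSet.inter ?_ (MeasurableSet.inter ?_ ?_))
    · exact measurableSet_b1.preimage (measurable_pi_apply i)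
    · exact measurableSet_b2.preimage (measurable_pi_apply (nx i))
    · exact measurableSet_b3.preimage (measurable_pi_apply k)
    · exact measurableSet_b4.preimage (measurable_pi_apply (nx k))
  · apply MeasurableSet.inter
    · exact measurableSet_lt (secA_meas_gap i k) measurable_const
    · exact measurableSet_lt measurable_const ((secA_meas_gap i k).add
        ((measurable_const.sub (secA_meas_par i k)).mul measurable_const))

theorem vol_le {E : Set Pt} (hE : MeasurableSet E) {xl xu yl yu L : ℝ} (hL : 0 ≤ L)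
    (hx : xu - xl = 1 / 10) (hy : yu - yl = 1 / 10)
    (h1 : ∀ x y z, (x, y, z) ∈ E → (xl ≤ x ∧ x ≤ xu) ∧ yl ≤ y ∧ y ≤ yu)
    (h2 : ∀ x y z z', (x, y, z) ∈ E → (x, y, z') ∈ E → |z - z'| ≤ L) :
    volume E ≤ ENNReal.ofReal (L / 100) := by
  have e0 : ∀ x y, volume (Prod.mk y ⁻¹' (Prod.mk x ⁻¹' E)) ≤
      (Set.Icc yl yu).indicator (fun _ => ENNReal.ofReal L) y := by
    intro x y
    by_cases hy : y ∈ Set.Icc yl yu
    · rw [Set.indicator_of_mem hy]
      refine (Real.volume_le_diam _).trans ?_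
      apply Metric.ediam_le_of_forall_dist_le
      intro z hz z' hz'
      rw [Real.dist_eq]
      exact h2 x y z z' hz hz'
    · rw [Set.indicator_of_notMem hy]
      have : (Prod.mk y ⁻¹' (Prod.mk x ⁻¹' E)) = ∅ := by
        ext z
        simp only [Set.mem_preimage, Set.mem_empty_iff_false, iff_false]
        intro h
        exact hy (h1 x y z h).2
      rw [this, measure_empty]
  have e1 : ∀ x, volume (Prod.mk x ⁻¹' E) ≤
      (Set.Icc xl xu).indicator (fun _ => ENNReal.ofReal (L / 10)) x := by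
    intro x
    by_cases hx : x ∈ Set.Icc xl xu
    · rw [Set.indicator_of_mem hx, Measure.volume_eq_prod,
        Measure.prod_apply (measurable_prodMk_left hE)]
      refine (lintegral_mono (e0 x)).trans ?_
      rw [lintegral_indicator_const measurableSet_Icc, Real.volume_Icc, hy,
        ← ENNReal.ofReal_mul hL]
      exact le_of_eq (by congr 1; ring)
    · rw [Set.indicator_of_notMem hx]
      have : (Prod.mk x ⁻¹' E) = ∅ := by
        ext ⟨y, z⟩
        simp only [Set.mem_preimage, Set.mem_empty_iff_false, iff_false]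
        intro h
        exact hx (h1 x y z h).1
      rw [this, measure_empty]
  rw [Measure.volume_eq_prod, Measure.prod_apply hE]
  refine (lintegral_mono e1).trans ?_
  rw [lintegral_indicator_const measurableSet_Icc, Real.volume_Icc, hx,
    ← ENNReal.ofReal_mul (by positivity)]
  exact le_of_eq (by congr 1; ring)

theorem vol_eq {E : Set Pt} (hE : MeasurableSet E) {xl xu yl yu L : ℝ} (hL : 0 ≤ L)
    (hx : xu - xl = 1 / 10) (hy : yu - yl = 1 / 10) (θ : ℝ → ℝ → ℝ)
    (h : ∀ x y z, (x, y, z) ∈ E ↔ ((xl ≤ x ∧ x ≤ xu) ∧ yl ≤ y ∧ y ≤ yu) ∧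
      θ x y - L < z ∧ z < θ x y) :
    volume E = ENNReal.ofReal (L / 100) := by
  have e0 : ∀ x ∈ Set.Icc xl xu, ∀ y, volume (Prod.mk y ⁻¹' (Prod.mk x ⁻¹' E)) =
      (Set.Icc yl yu).indicator (fun _ => ENNReal.ofReal L) y := by
    intro x hx y
    by_cases hy : y ∈ Set.Icc yl yu
    · rw [Set.indicator_of_mem hy]
      have : (Prod.mk y ⁻¹' (Prod.mk x ⁻¹' E)) = Set.Ioo (θ x y - L) (θ x y) := by
        ext z
        simp only [Set.mem_preimage, Set.mem_Ioo]
        rw [h]
        exact ⟨fun h => h.2, fun h => ⟨⟨hx, hy⟩, h⟩⟩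
      rw [this, Real.volume_Ioo, sub_sub_cancel]
    · rw [Set.indicator_of_notMem hy]
      have : (Prod.mk y ⁻¹' (Prod.mk x ⁻¹' E)) = ∅ := by
        ext z
        simp only [Set.mem_preimage, Set.mem_empty_iff_false, iff_false]
        intro h'
        exact hy ((h x y z).1 h').1.2
      rw [this, measure_empty]
  have e1 : ∀ x, volume (Prod.mk x ⁻¹' E) =
      (Set.Icc xl xu).indicator (fun _ => ENNReal.ofReal (L / 10)) x := by
    intro x
    by_cases hx : x ∈ Set.Icc xl xu
    · rw [Set.indicator_of_mem hx, Measure.volume_eq_prod,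
        Measure.prod_apply (measurable_prodMk_left hE), lintegral_congr (e0 x hx),
        lintegral_indicator_const measurableSet_Icc, Real.volume_Icc, hy,
        ← ENNReal.ofReal_mul hL]
      congr 1; ring
    · rw [Set.indicator_of_notMem hx]
      have : (Prod.mk x ⁻¹' E) = ∅ := by
        ext ⟨y, z⟩
        simp only [Set.mem_preimage, Set.mem_empty_iff_false, iff_false]
        intro h'
        exact hx ((h x y z).1 h').1.1
      rw [this, measure_empty]
  rw [Measure.volume_eq_prod, Measure.prod_apply hE, lintegral_congr e1,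
    lintegral_indicator_const measurableSet_Icc, Real.volume_Icc, hx,
    ← ENNReal.ofReal_mul (by positivity)]
  congr 1; ring

theorem kap_sec {κ : Measure (Pt × Bool)} {c₀ H : ℝ} (hκ : Law κ c₀ H)
    {A : Set (Fin n → Pt × Bool)} (hA : MeasurableSet A) (v : Fin n) (ω : Fin n → Pt × Bool)
    (hm : ∀ y, Function.update ω v y ∈ A → y.2 = true) :
    MeasurableSet {q : Pt | Function.update ω v (q, true) ∈ A} ∧
    κ {y | Function.update ω v y ∈ A} =
      ENNReal.ofReal c₀ * volume ({q : Pt | Function.update ω v (q, true) ∈ A} ∩ cube) := by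
  have h1 : MeasurableSet {q : Pt | Function.update ω v (q, true) ∈ A} := by
    have : Measurable fun q : Pt => Function.update ω v (q, true) :=
      (measurable_update ω).comp (measurable_id.prodMk measurable_const)
    exact this hA
  refine ⟨h1, ?_⟩
  rw [← hκ.unif _ h1]
  congr 1
  ext ⟨q, m⟩
  simp only [Set.mem_ofPred_eq]
  constructor
  · intro h
    have := hm _ h
    simp only at this
    subst this
    exact ⟨rfl, h⟩
  · rintro ⟨h2, h3⟩
    subst h2
    exact h3

theorem pts_update (ω : Fin n → Pt × Bool) (v : Fin n) (q : Pt) (m : Bool) :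
    pts (Function.update ω v (q, m)) = Function.update (pts ω) v q := by
  funext j
  unfold pts
  by_cases h : j = v
  · subst h; simp
  · simp [Function.update_of_ne h]

theorem par_congr {p p' : Fin n → Pt} (h : ∀ j, (p j).1 = (p' j).1)
    (h' : ∀ j, (p j).2.1 = (p' j).2.1) (i k : Fin n) : par p i k = par p' i k := by
  simp only [par, det, h, h']

theorem upd_fst (P : Fin n → Pt) (v : Fin n) (x y z z' : ℝ) (j : Fin n) :
    (Function.update P v (x, y, z) j).1 = (Function.update P v (x, y, z') j).1 := by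
  by_cases h : j = v
  · subst h; simp
  · simp [Function.update_of_ne h]

theorem upd_snd (P : Fin n → Pt) (v : Fin n) (x y z z' : ℝ) (j : Fin n) :
    (Function.update P v (x, y, z) j).2.1 = (Function.update P v (x, y, z') j).2.1 := by
  by_cases h : j = v
  · subst h; simp
  · simp [Function.update_of_ne h]

theorem par_upd (P : Fin n → Pt) (v : Fin n) (x y z z' : ℝ) (i k : Fin n) :
    par (Function.update P v (x, y, z)) i k = par (Function.update P v (x, y, z')) i k :=
  par_congr (upd_fst P v x y z z') (upd_snd P v x y z z') i k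

theorem gap_def (p : Fin n → Pt) (i k : Fin n) : gap p i k =
    (1 - par p i k) * (p i).2.2 + par p i k * (p (nx i)).2.2 -
      ((1 - par p k i) * (p k).2.2 + par p k i * (p (nx k)).2.2) := rfl

/-- the change of the gap if one height is changed -/
theorem gap_diff (P : Fin n → Pt) {i k : Fin n}
    (h1 : i ≠ nx i) (h2 : i ≠ k) (h3 : i ≠ nx k) (h4 : nx i ≠ k) (h5 : nx i ≠ nx k) (h6 : k ≠ nx k)
    (v : Fin n) (hv : v = i ∨ v = nx i ∨ v = k ∨ v = nx k) (x y z z' : ℝ)
    (hl : 3 / 8 ≤ par (Function.update P v (x, y, z)) i k ∧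
      par (Function.update P v (x, y, z)) i k ≤ 5 / 8)
    (hm : 3 / 8 ≤ par (Function.update P v (x, y, z)) k i ∧
      par (Function.update P v (x, y, z)) k i ≤ 5 / 8) :
    3 / 8 * |z - z'| ≤ |gap (Function.update P v (x, y, z)) i k -
      gap (Function.update P v (x, y, z')) i k| := by
  rw [gap_def, gap_def, par_upd P v x y z' z i k, par_upd P v x y z' z k i]
  set l := par (Function.update P v (x, y, z)) i k
  set m := par (Function.update P v (x, y, z)) k i
  have key : ∃ c : ℝ, 3 / 8 ≤ |c| ∧ (1 - l) * (Function.update P v (x, y, z) i).2.2 +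
      l * (Function.update P v (x, y, z) (nx i)).2.2 -
      ((1 - m) * (Function.update P v (x, y, z) k).2.2 +
        m * (Function.update P v (x, y, z) (nx k)).2.2) -
      ((1 - l) * (Function.update P v (x, y, z') i).2.2 +
        l * (Function.update P v (x, y, z') (nx i)).2.2 -
        ((1 - m) * (Function.update P v (x, y, z') k).2.2 +
          m * (Function.update P v (x, y, z') (nx k)).2.2)) = c * (z - z') := by
    rcases hv with rfl | rfl | rfl | rfl
    · refine ⟨1 - l, ?_, ?_⟩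
      · rw [abs_of_nonneg (by linarith)]; linarith
      · rw [Function.update_self, Function.update_self, Function.update_of_ne h1.symm,
          Function.update_of_ne h2.symm, Function.update_of_ne h3.symm,
          Function.update_of_ne h1.symm, Function.update_of_ne h2.symm,
          Function.update_of_ne h3.symm]
        ring
    · refine ⟨l, ?_, ?_⟩
      · rw [abs_of_nonneg (by linarith)]; linarith
      · rw [Function.update_self, Function.update_self, Function.update_of_ne h1,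
          Function.update_of_ne h4.symm, Function.update_of_ne h5.symm,
          Function.update_of_ne h1, Function.update_of_ne h4.symm,
          Function.update_of_ne h5.symm]
        ring
    · refine ⟨-(1 - m), ?_, ?_⟩
      · rw [abs_neg, abs_of_nonneg (by linarith)]; linarith
      · rw [Function.update_self, Function.update_self, Function.update_of_ne h2,
          Function.update_of_ne h4, Function.update_of_ne h6.symm,
          Function.update_of_ne h2, Function.update_of_ne h4,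
          Function.update_of_ne h6.symm]
        ring
    · refine ⟨-m, ?_, ?_⟩
      · rw [abs_neg, abs_of_nonneg (by linarith)]; linarith
      · rw [Function.update_self, Function.update_self, Function.update_of_ne h3,
          Function.update_of_ne h5, Function.update_of_ne h6,
          Function.update_of_ne h3, Function.update_of_ne h5,
          Function.update_of_ne h6]
        ring
  obtain ⟨c, hc, he⟩ := key
  rw [he, abs_mul]
  exact mul_le_mul_of_nonneg_right hc (abs_nonneg _)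

theorem Av_mark {i k : Fin n} {δ : ℝ} {ω : Fin n → Pt × Bool} (h : ω ∈ Av i k δ) (v : Fin n)
    (hv : v = i ∨ v = nx i ∨ v = k ∨ v = nx k) : (ω v).2 = true := by
  obtain ⟨⟨h1, h2, h3, h4⟩, -⟩ := h
  rcases hv with rfl | rfl | rfl | rfl
  · exact h1.1
  · exact h2.1
  · exact h3.1
  · exact h4.1

theorem Av_par {i k : Fin n} {δ : ℝ} {ω : Fin n → Pt × Bool} (h : ω ∈ Av i k δ) :
    (3 / 8 ≤ par (pts ω) i k ∧ par (pts ω) i k ≤ 5 / 8) ∧ 3 / 8 ≤ par (pts ω) k i ∧
      par (pts ω) k i ≤ 5 / 8 := by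
  obtain ⟨⟨h1, h2, h3, h4⟩, -⟩ := h
  exact (box_par (pts ω) i k (fun j => (ω j).2) h1 h2 h3 h4).2

theorem Av_sec {κ : Measure (Pt × Bool)} {c₀ H : ℝ} (hκ : Law κ c₀ H) {i k : Fin n}
    (h1 : i ≠ nx i) (h2 : i ≠ k) (h3 : i ≠ nx k) (h4 : nx i ≠ k) (h5 : nx i ≠ nx k) (h6 : k ≠ nx k)
    {δ : ℝ} (hδ : 0 < δ) (v : Fin n) (hv : v = i ∨ v = nx i ∨ v = k ∨ v = nx k)
    (ω : Fin n → Pt × Bool) :
    κ {y | Function.update ω v y ∈ Av i k δ} ≤ ENNReal.ofReal (c₀ * δ * (3 / 100)) := by
  have hm : ∀ y, Function.update ω v y ∈ Av i k δ → y.2 = true := by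
    intro y hy
    have := Av_mark hy v hv
    rwa [Function.update_self] at this
  obtain ⟨hE, e⟩ := kap_sec hκ (measurableSet_Av i k δ) v ω hm
  rw [e]
  have hsq : ∃ xl xu yl yu : ℝ, xu - xl = 1 / 10 ∧ yu - yl = 1 / 10 ∧
      ∀ x y z, (x, y, z) ∈ {q : Pt | Function.update ω v (q, true) ∈ Av i k δ} →
      (xl ≤ x ∧ x ≤ xu) ∧ yl ≤ y ∧ y ≤ yu := by
    rcases hv with rfl | rfl | rfl | rfl
    · refine ⟨0, 1 / 10, 9 / 20, 11 / 20, by norm_num, by norm_num, ?_⟩
      rintro x y z ⟨⟨a, -, -, -⟩, -⟩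
      rw [Function.update_self] at a
      exact ⟨a.2.1, a.2.2.1⟩
    · refine ⟨9 / 10, 1, 9 / 20, 11 / 20, by norm_num, by norm_num, ?_⟩
      rintro x y z ⟨⟨-, a, -, -⟩, -⟩
      rw [Function.update_self] at a
      exact ⟨a.2.1, a.2.2.1⟩
    · refine ⟨9 / 20, 11 / 20, 0, 1 / 10, by norm_num, by norm_num, ?_⟩
      rintro x y z ⟨⟨-, -, a, -⟩, -⟩
      rw [Function.update_self] at a
      exact ⟨a.2.1, a.2.2.1⟩
    · refine ⟨9 / 20, 11 / 20, 9 / 10, 1, by norm_num, by norm_num, ?_⟩
      rintro x y z ⟨⟨-, -, -, a⟩, -⟩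
      rw [Function.update_self] at a
      exact ⟨a.2.1, a.2.2.1⟩
  obtain ⟨xl, xu, yl, yu, hx, hy, hsq⟩ := hsq
  have hvol : volume {q : Pt | Function.update ω v (q, true) ∈ Av i k δ} ≤
      ENNReal.ofReal ((3 * δ) / 100) := by
    apply vol_le hE (by linarith) hx hy hsq
    intro x y z z' hz hz'
    have p1 := Av_par hz
    have g1 := hz.2
    have g2 := hz'.2
    rw [pts_update] at p1 g1 g2
    rw [par_upd (pts ω) v x y z' z i k] at g2
    have hd := gap_diff (pts ω) h1 h2 h3 h4 h5 h6 v hv x y z z' p1.1 p1.2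
    have hlt : |gap (Function.update (pts ω) v (x, y, z)) i k -
        gap (Function.update (pts ω) v (x, y, z')) i k| ≤ 5 / 8 * δ := by
      have q1 : (1 - par (Function.update (pts ω) v (x, y, z)) i k) * δ ≤ 5 / 8 * δ :=
        mul_le_mul_of_nonneg_right (by linarith [p1.1.1]) hδ.le
      rw [abs_le]
      constructor <;> linarith [g1.1, g1.2, g2.1, g2.2]
    linarith
  refine (mul_le_mul_right ((measure_mono Set.inter_subset_left).trans hvol) _).trans ?_
  rw [← ENNReal.ofReal_mul hκ.c_pos.le]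
  exact le_of_eq (by congr 1; ring)

/-- the threshold for the height of the vertex `i` -/
noncomputable def thr (P : Fin n → Pt) (i k : Fin n) (x y : ℝ) : ℝ :=
  ((1 - par (Function.update P i (x, y, 0)) k i) * (P k).2.2 +
    par (Function.update P i (x, y, 0)) k i * (P (nx k)).2.2 -
    par (Function.update P i (x, y, 0)) i k * (P (nx i)).2.2) /
    (1 - par (Function.update P i (x, y, 0)) i k)

theorem gap_thr (P : Fin n → Pt) {i k : Fin n}
    (h1 : i ≠ nx i) (h2 : i ≠ k) (h3 : i ≠ nx k) (x y z : ℝ)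
    (hl : par (Function.update P i (x, y, 0)) i k < 1) :
    gap (Function.update P i (x, y, z)) i k =
      (1 - par (Function.update P i (x, y, 0)) i k) * (z - thr P i k x y) := by
  have hne : 1 - par (Function.update P i (x, y, 0)) i k ≠ 0 := by
    intro h
    linarith
  rw [gap_def, par_upd P i x y z 0 i k, par_upd P i x y z 0 k i, mul_sub, thr,
    mul_div_cancel₀ _ hne, Function.update_self, Function.update_of_ne h1.symm,
    Function.update_of_ne h2.symm, Function.update_of_ne h3.symm]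
  ring

theorem Av_sec_i {κ : Measure (Pt × Bool)} {c₀ H : ℝ} (hκ : Law κ c₀ H) {i k : Fin n}
    (h1 : i ≠ nx i) (h2 : i ≠ k) (h3 : i ≠ nx k)
    {δ : ℝ} (hδ : 0 < δ) (hδ1 : δ ≤ 1 / 10) (ω : Fin n → Pt × Bool) (w2 : ω (nx i) ∈ b2)
    (w3 : ω k ∈ b3) (w4 : ω (nx k) ∈ b4) :
    κ {y | Function.update ω i y ∈ Av i k δ} = ENNReal.ofReal (c₀ * δ / 100) := by
  have hm : ∀ y, Function.update ω i y ∈ Av i k δ → y.2 = true := by
    intro y hy
    have := Av_mark hy i (Or.inl rfl)
    rwa [Function.update_self] at this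
  obtain ⟨hE, e⟩ := kap_sec hκ (measurableSet_Av i k δ) i ω hm
  rw [e]
  have hcube : MeasurableSet cube := by
    have hx : Measurable fun y : Pt => y.1 := measurable_fst
    have hy : Measurable fun y : Pt => y.2.1 := measurable_fst.comp measurable_snd
    have hz : Measurable fun y : Pt => y.2.2 := measurable_snd.comp measurable_snd
    refine MeasurableSet.inter ?_ (MeasurableSet.inter ?_ ?_)
    · exact (measurableSet_le measurable_const hx).inter (measurableSet_le hx measurable_const)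
    · exact (measurableSet_le measurable_const hy).inter (measurableSet_le hy measurable_const)
    · exact (measurableSet_le measurable_const hz).inter (measurableSet_lt hz measurable_const)
  have hbox : ∀ x y z, (0 ≤ x ∧ x ≤ 1 / 10) → (9 / 20 ≤ y ∧ y ≤ 11 / 20) → (0 ≤ z ∧ z ≤ 1) →
      (Function.update ω i ((x, y, z), true) i ∈ b1 ∧
        Function.update ω i ((x, y, z), true) (nx i) ∈ b2 ∧
        Function.update ω i ((x, y, z), true) k ∈ b3 ∧
        Function.update ω i ((x, y, z), true) (nx k) ∈ b4) := by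
    intro x y z hx hy hz
    rw [Function.update_self, Function.update_of_ne h1.symm,
      Function.update_of_ne h2.symm, Function.update_of_ne h3.symm]
    exact ⟨⟨rfl, hx, hy, hz⟩, w2, w3, w4⟩
  have hpar : ∀ x y, (0 ≤ x ∧ x ≤ 1 / 10) → (9 / 20 ≤ y ∧ y ≤ 11 / 20) →
      (3 / 8 ≤ par (Function.update (pts ω) i (x, y, 0)) i k ∧
        par (Function.update (pts ω) i (x, y, 0)) i k ≤ 5 / 8) ∧
      3 / 8 ≤ par (Function.update (pts ω) i (x, y, 0)) k i ∧
        par (Function.update (pts ω) i (x, y, 0)) k i ≤ 5 / 8 := by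
    intro x y hx hy
    obtain ⟨a1, a2, a3, a4⟩ := hbox x y 0 hx hy ⟨le_rfl, zero_le_one⟩
    have := (box_par (pts (Function.update ω i ((x, y, 0), true))) i k
      (fun j => (Function.update ω i ((x, y, 0), true) j).2) a1 a2 a3 a4).2
    rwa [pts_update] at this
  have hθ : ∀ x y, (0 ≤ x ∧ x ≤ 1 / 10) → (9 / 20 ≤ y ∧ y ≤ 11 / 20) →
      1 / 4 ≤ thr (pts ω) i k x y ∧ thr (pts ω) i k x y ≤ 3 / 4 := by
    intro x y hx hy
    obtain ⟨⟨l1, l2⟩, m1, m2⟩ := hpar x y hx hy
    unfold thr
    set l := par (Function.update (pts ω) i (x, y, 0)) i k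
    set m := par (Function.update (pts ω) i (x, y, 0)) k i
    obtain ⟨-, -, -, z2, z2'⟩ := w2
    obtain ⟨-, -, -, z3, z3'⟩ := w3
    obtain ⟨-, -, -, z4, z4'⟩ := w4
    change 9 / 20 ≤ (pts ω (nx i)).2.2 at z2
    change (pts ω (nx i)).2.2 ≤ 11 / 20 at z2'
    change 9 / 20 ≤ (pts ω k).2.2 at z3
    change (pts ω k).2.2 ≤ 11 / 20 at z3'
    change 9 / 20 ≤ (pts ω (nx k)).2.2 at z4
    change (pts ω (nx k)).2.2 ≤ 11 / 20 at z4'
    have c0 : 0 < 1 - l := by linarith
    have cm : 0 ≤ 1 - m := by linarith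
    have cm' : 0 ≤ m := by linarith
    have cl' : 0 ≤ l := by linarith
    have e1 := mul_nonneg cm (sub_nonneg.2 z3)
    have e1' := mul_nonneg cm (sub_nonneg.2 z3')
    have e2 := mul_nonneg cm' (sub_nonneg.2 z4)
    have e2' := mul_nonneg cm' (sub_nonneg.2 z4')
    have e3 := mul_nonneg cl' (sub_nonneg.2 z2)
    have e3' := mul_nonneg cl' (sub_nonneg.2 z2')
    constructor
    · rw [le_div_iff₀ c0]
      linarith
    · rw [div_le_iff₀ c0]
      linarith
  have hvol : volume ({q : Pt | Function.update ω i (q, true) ∈ Av i k δ} ∩ cube) =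
      ENNReal.ofReal (δ / 100) := by
    apply vol_eq (hE.inter hcube) hδ.le (xl := 0) (xu := 1 / 10) (yl := 9 / 20) (yu := 11 / 20)
      (by norm_num) (by norm_num) (thr (pts ω) i k)
    intro x y z
    constructor
    · rintro ⟨⟨⟨a, -, -, -⟩, g⟩, -⟩
      rw [Function.update_self] at a
      have hx : 0 ≤ x ∧ x ≤ 1 / 10 := a.2.1
      have hy : 9 / 20 ≤ y ∧ y ≤ 11 / 20 := a.2.2.1
      refine ⟨⟨hx, hy⟩, ?_⟩
      obtain ⟨⟨l1, l2⟩, -⟩ := hpar x y hx hy
      rw [pts_update, gap_thr (pts ω) h1 h2 h3 x y z (by linarith), par_upd (pts ω) i x y z 0 i k]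
        at g
      set l := par (Function.update (pts ω) i (x, y, 0)) i k
      obtain ⟨g1, g2⟩ := g
      have c0 : 0 < 1 - l := by linarith
      constructor
      · rw [← mul_add] at g2
        have := pos_of_mul_pos_right g2 c0.le
        linarith
      · by_contra hcon
        push Not at hcon
        have := mul_nonneg c0.le (sub_nonneg.2 hcon)
        linarith
    · rintro ⟨⟨hx, hy⟩, g1, g2⟩
      obtain ⟨t1, t2⟩ := hθ x y hx hy
      have hz : 0 ≤ z ∧ z ≤ 1 := ⟨by linarith, by linarith⟩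
      refine ⟨⟨hbox x y z hx hy hz, ?_⟩, ⟨⟨hx.1, by linarith [hx.2]⟩,
        ⟨by linarith [hy.1], by linarith [hy.2]⟩, hz.1, by linarith⟩⟩
      obtain ⟨⟨l1, l2⟩, -⟩ := hpar x y hx hy
      rw [pts_update, gap_thr (pts ω) h1 h2 h3 x y z (by linarith), par_upd (pts ω) i x y z 0 i k]
      set l := par (Function.update (pts ω) i (x, y, 0)) i k
      have c0 : 0 < 1 - l := by linarith
      constructor
      · exact mul_neg_of_pos_of_neg c0 (by linarith)
      · rw [← mul_add]
        exact mul_pos c0 (by linarith)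
  rw [hvol, ← ENNReal.ofReal_mul hκ.c_pos.le]
  congr 1; ring

theorem kap_bx {κ : Measure (Pt × Bool)} {c₀ H : ℝ} (hκ : Law κ c₀ H) {xl xu yl yu zl zu : ℝ}
    (hx0 : 0 ≤ xl) (hx1 : xu ≤ 1) (hy0 : 0 ≤ yl) (hy1 : yu ≤ 1) (hz0 : 0 ≤ zl) (hz1 : zu < 1)
    (hx : xu - xl = 1 / 10) (hy : yu - yl = 1 / 10) (hz : zu - zl = 1 / 10) :
    κ (bx xl xu yl yu zl zu) = ENNReal.ofReal (c₀ / 1000) := by
  have e : bx xl xu yl yu zl zu = {y : Pt × Bool | y.2 = true ∧
      y.1 ∈ Set.Icc xl xu ×ˢ (Set.Icc yl yu ×ˢ Set.Icc zl zu)} := by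
    ext ⟨⟨x, y, z⟩, m⟩
    rfl
  have hm : MeasurableSet (Set.Icc xl xu ×ˢ (Set.Icc yl yu ×ˢ Set.Icc zl zu)) :=
    measurableSet_Icc.prod (measurableSet_Icc.prod measurableSet_Icc)
  rw [e, hκ.unif _ hm]
  have e2 : (Set.Icc xl xu ×ˢ (Set.Icc yl yu ×ˢ Set.Icc zl zu)) ∩ cube =
      Set.Icc xl xu ×ˢ (Set.Icc yl yu ×ˢ Set.Icc zl zu) := by
    apply Set.inter_eq_left.2
    rintro ⟨x, y, z⟩ ⟨⟨a1, a2⟩, ⟨a3, a4⟩, a5, a6⟩
    simp only at a1 a2 a3 a4 a5 a6
    exact ⟨⟨by simp only; linarith, by simp only; linarith⟩,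
      ⟨by simp only; linarith, by simp only; linarith⟩, by simp only; linarith,
      by simp only; linarith⟩
  rw [e2, Measure.volume_eq_prod, Measure.prod_prod, Measure.volume_eq_prod, Measure.prod_prod,
    Real.volume_Icc, Real.volume_Icc, Real.volume_Icc, hx, hy, hz,
    ← ENNReal.ofReal_mul (by norm_num), ← ENNReal.ofReal_mul (by norm_num),
    ← ENNReal.ofReal_mul hκ.c_pos.le]
  congr 1; ring

theorem Av_prob {κ : Measure (Pt × Bool)} {c₀ H : ℝ} (hκ : Law κ c₀ H) {i k : Fin n}
    (h1 : i ≠ nx i) (h2 : i ≠ k) (h3 : i ≠ nx k) (h4 : nx i ≠ k) (h5 : nx i ≠ nx k) (h6 : k ≠ nx k)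
    {δ : ℝ} (hδ : 0 < δ) (hδ1 : δ ≤ 1 / 10) (B : Set (Fin n → Pt × Bool)) (hB : MeasurableSet B)
    (hBv : ∀ v, (v = i ∨ v = nx i ∨ v = k ∨ v = nx k) →
      ∀ ω y, Function.update ω v y ∈ B ↔ ω ∈ B) :
    (Measure.pi fun _ : Fin n => κ) (Av i k δ ∩ B) =
      ENNReal.ofReal (c₀ ^ 4 * δ / 10 ^ 11) * (Measure.pi fun _ : Fin n => κ) B := by
  have := hκ.prob
  have hp : ∀ (j : Fin n) (b : Set (Pt × Bool)), MeasurableSet b →
      MeasurableSet {ω : Fin n → Pt × Bool | ω j ∈ b} := fun j b hb =>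
    hb.preimage (measurable_pi_apply j)
  have one : ∀ (j : Fin n) (b : Set (Pt × Bool)) (C : Set (Fin n → Pt × Bool)), MeasurableSet b →
      MeasurableSet C → (∀ ω y, Function.update ω j y ∈ C ↔ ω ∈ C) →
      (Measure.pi fun _ : Fin n => κ) ({ω | ω j ∈ b} ∩ C) =
        κ b * (Measure.pi fun _ : Fin n => κ) C := by
    intro j b C hb hC hC2
    apply sec_eq (hp j b hb) hC j _ hC2
    intro ω _
    congr 1
    ext y
    change Function.update ω j y j ∈ b ↔ y ∈ b
    rw [Function.update_self]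
  have other : ∀ (j j' : Fin n) (b : Set (Pt × Bool)) (C : Set (Fin n → Pt × Bool)), j ≠ j' →
      (∀ ω y, Function.update ω j y ∈ C ↔ ω ∈ C) →
      ∀ ω y, Function.update ω j y ∈ {ω | ω j' ∈ b} ∩ C ↔ ω ∈ {ω : Fin n → Pt × Bool | ω j' ∈ b} ∩ C := by
    intro j j' b C hj hC ω y
    rw [Set.mem_inter_iff, Set.mem_inter_iff, hC]
    change (Function.update ω j y j' ∈ b ∧ _) ↔ (ω j' ∈ b ∧ _)
    rw [Function.update_of_ne hj.symm]
  set C3 : Set (Fin n → Pt × Bool) := {ω | ω (nx k) ∈ b4} ∩ B with hC3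
  set C2 : Set (Fin n → Pt × Bool) := {ω | ω k ∈ b3} ∩ C3 with hC2
  set C1 : Set (Fin n → Pt × Bool) := {ω | ω (nx i) ∈ b2} ∩ C2 with hC1
  have m3 : MeasurableSet C3 := (hp _ _ measurableSet_b4).inter hB
  have m2 : MeasurableSet C2 := (hp _ _ measurableSet_b3).inter m3
  have m1 : MeasurableSet C1 := (hp _ _ measurableSet_b2).inter m2
  have s1 : (Measure.pi fun _ : Fin n => κ) (Av i k δ ∩ C1) =
      ENNReal.ofReal (c₀ * δ / 100) * (Measure.pi fun _ : Fin n => κ) C1 := by
    apply sec_eq (measurableSet_Av i k δ) m1 i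
    · exact other i (nx i) _ _ h1 (other i k _ _ h2 (other i (nx k) _ _ h3 (hBv i (Or.inl rfl))))
    · rintro ω ⟨w2, w3, w4, -⟩
      exact Av_sec_i hκ h1 h2 h3 hδ hδ1 ω w2 w3 w4
  have s2 : (Measure.pi fun _ : Fin n => κ) C1 =
      κ b2 * (Measure.pi fun _ : Fin n => κ) C2 := by
    apply one (nx i) b2 C2 measurableSet_b2 m2
    exact other (nx i) k _ _ h4 (other (nx i) (nx k) _ _ h5 (hBv (nx i) (Or.inr (Or.inl rfl))))
  have s3 : (Measure.pi fun _ : Fin n => κ) C2 =
      κ b3 * (Measure.pi fun _ : Fin n => κ) C3 := by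
    apply one k b3 C3 measurableSet_b3 m3
    exact other k (nx k) _ _ h6 (hBv k (Or.inr (Or.inr (Or.inl rfl))))
  have s4 : (Measure.pi fun _ : Fin n => κ) C3 =
      κ b4 * (Measure.pi fun _ : Fin n => κ) B := by
    apply one (nx k) b4 B measurableSet_b4 hB
    exact hBv (nx k) (Or.inr (Or.inr (Or.inr rfl)))
  have k2 : κ b2 = ENNReal.ofReal (c₀ / 1000) :=
    kap_bx hκ (by norm_num) (by norm_num) (by norm_num) (by norm_num) (by norm_num) (by norm_num)
      (by norm_num) (by norm_num) (by norm_num)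
  have k3 : κ b3 = ENNReal.ofReal (c₀ / 1000) :=
    kap_bx hκ (by norm_num) (by norm_num) (by norm_num) (by norm_num) (by norm_num) (by norm_num)
      (by norm_num) (by norm_num) (by norm_num)
  have k4 : κ b4 = ENNReal.ofReal (c₀ / 1000) :=
    kap_bx hκ (by norm_num) (by norm_num) (by norm_num) (by norm_num) (by norm_num) (by norm_num)
      (by norm_num) (by norm_num) (by norm_num)
  have e : Av i k δ ∩ B = Av i k δ ∩ C1 := by
    ext ω
    constructor
    · rintro ⟨hA, hb⟩
      exact ⟨hA, hA.1.2.1, hA.1.2.2.1, hA.1.2.2.2, hb⟩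
    · rintro ⟨hA, -, -, -, hb⟩
      exact ⟨hA, hb⟩
  have c0 := hκ.c_pos
  rw [e, s1, s2, s3, s4, k2, k3, k4, ← mul_assoc, ← mul_assoc, ← mul_assoc,
    ← ENNReal.ofReal_mul (by positivity), ← ENNReal.ofReal_mul (by positivity),
    ← ENNReal.ofReal_mul (by positivity)]
  congr 2
  ring

end Pool.Agent.H756.RP
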