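import Pool.Agent.H756.RP.Defs

set_option autoImplicit false

/-!
Existence of the Gauss word (finite combinatorics).

`X i j = true`: the edges `i` and `j` cross; `O i` is a strict linear order on the `j` with `X i j = true`.
Proof: let `P = {a : Fin n × Fin n | X a.1 a.2 = true}` (finite, closed under `Prod.swap`, no element is fixed
by `Prod.swap`), `P₀ = {a ∈ P | a.1 < a.2}`, `N = |P₀|`, `ν : Fin N ≃ P₀` any numbering,
`e (c, false) = ν c`, `e (c, true) = (ν c).swap`; this is a bijection `Fin N × Bool ≃ P`.  The relation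
`a ≺ b := a.1 < b.1 ∨ (a.1 = b.1 ∧ O a.1 a.2 b.2 = true)` is a strict linear order on `P`; define
`G x = |{y | e y ≺ e x}|`, a bijection onto `Fin (2 * N)` (injective, and `|Fin N × Bool| = 2 N`), with
`G x < G y ↔ e x ≺ e y`.
-/

namespace Pool.Agent.H756.RP

open Finset Pool.Agent.H832R2.JR

theorem word_exists {n : ℕ} (X : Fin n → Fin n → Bool) (O : Fin n → Fin n → Fin n → Bool)
    (h1 : ∀ i, X i i = false) (h2 : ∀ i j, X i j = X j i) (h3 : ∀ i j, O i j j = false)
    (h4 : ∀ i j k, X i j = true → X i k = true → j ≠ k → (O i j k = true ∨ O i k j = true))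
    (h5 : ∀ i j k l, O i j k = true → O i k l = true → O i j l = true) :
    ∃ (N : ℕ) (G : GaussWord N) (e : Fin N × Bool → Fin n × Fin n), IsWord X O G e := by
  classical
  let P := {a : Fin n × Fin n // X a.1 a.2 = true ∧ a.1 < a.2}
  let N := Fintype.card P
  let ν : Fin N ≃ P := (Fintype.equivFin P).symm
  let e : Fin N × Bool → Fin n × Fin n := fun x => if x.2 then (ν x.1).1.swap else (ν x.1).1
  have he0 : ∀ c, e (c, false) = (ν c).1 := fun c => rfl
  have he1 : ∀ c, e (c, true) = (ν c).1.swap := fun c => rfl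
  have heX : ∀ x, X (e x).1 (e x).2 = true := by
    rintro ⟨c, b⟩
    cases b
    · rw [he0]; exact (ν c).2.1
    · rw [he1]
      have := (ν c).2.1
      rw [h2] at this
      exact this
  have hinj : Function.Injective e := by
    rintro ⟨c, b⟩ ⟨c', b'⟩ h
    cases b <;> cases b'
    · rw [he0, he0] at h
      rw [ν.injective (Subtype.ext h)]
    · exfalso
      rw [he0, he1] at h
      have e1 : (ν c).1.1 = (ν c').1.2 := congrArg Prod.fst h
      have e2 : (ν c).1.2 = (ν c').1.1 := congrArg Prod.snd h
      have l1 := (ν c).2.2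
      have l2 := (ν c').2.2
      rw [e1, e2] at l1
      exact lt_asymm l1 l2
    · exfalso
      rw [he0, he1] at h
      have e1 : (ν c).1.2 = (ν c').1.1 := congrArg Prod.fst h
      have e2 : (ν c).1.1 = (ν c').1.2 := congrArg Prod.snd h
      have l1 := (ν c).2.2
      have l2 := (ν c').2.2
      rw [e1, e2] at l1
      exact lt_asymm l1 l2
    · rw [he1, he1] at h
      rw [ν.injective (Subtype.ext (Prod.swap_injective h))]
  have hsurj : ∀ i j, X i j = true → ∃ x, e x = (i, j) := by
    intro i j hij
    rcases lt_trichotomy i j with h | h | h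
    · refine ⟨(ν.symm ⟨(i, j), hij, h⟩, false), ?_⟩
      rw [he0, Equiv.apply_symm_apply]
    · exfalso
      subst h
      rw [h1] at hij
      exact Bool.noConfusion hij
    · have hji : X j i = true := by rw [h2]; exact hij
      refine ⟨(ν.symm ⟨(j, i), hji, h⟩, true), ?_⟩
      rw [he1, Equiv.apply_symm_apply]
      rfl
  let r : Fin N × Bool → Fin N × Bool → Prop := fun x y =>
    (e x).1 < (e y).1 ∨ ((e x).1 = (e y).1 ∧ O (e x).1 (e x).2 (e y).2 = true)
  have hirr : ∀ x, ¬ r x x := by
    rintro x (h | ⟨-, h⟩)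
    · exact lt_irrefl _ h
    · rw [h3] at h
      exact Bool.noConfusion h
  have htr : ∀ x y z, r x y → r y z → r x z := by
    rintro x y z (h | ⟨h, h'⟩) (k | ⟨k, k'⟩)
    · exact Or.inl (lt_trans h k)
    · exact Or.inl (k ▸ h)
    · exact Or.inl (h ▸ k)
    · refine Or.inr ⟨h.trans k, ?_⟩
      refine h5 _ _ _ _ h' ?_
      rw [h]
      exact k'
  have htot : ∀ x y, x ≠ y → r x y ∨ r y x := by
    intro x y hxy
    have hne : e x ≠ e y := fun h => hxy (hinj h)
    rcases lt_trichotomy (e x).1 (e y).1 with h | h | h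
    · exact Or.inl (Or.inl h)
    · have h2' : (e x).2 ≠ (e y).2 := fun h' => hne (Prod.ext h h')
      have hx := heX x
      have hy := heX y
      rw [← h] at hy
      rcases h4 _ _ _ hx hy h2' with k | k
      · exact Or.inl (Or.inr ⟨h, k⟩)
      · refine Or.inr (Or.inr ⟨h.symm, ?_⟩)
        rw [← h]
        exact k
    · exact Or.inr (Or.inl h)
  have hcard : Fintype.card (Fin N × Bool) = 2 * N := by
    rw [Fintype.card_prod, Fintype.card_bool, Fintype.card_fin, mul_comm]
  have hlt : ∀ x, (univ.filter (fun y => r y x)).card < 2 * N := by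
    intro x
    rw [← hcard, ← Finset.card_univ]
    apply Finset.card_lt_card
    rw [Finset.ssubset_iff_subset_ne]
    refine ⟨Finset.filter_subset _ _, fun h => ?_⟩
    have : x ∈ univ.filter (fun y => r y x) := by rw [h]; exact Finset.mem_univ x
    exact hirr x (Finset.mem_filter.1 this).2
  let G0 : Fin N × Bool → Fin (2 * N) := fun x => ⟨(univ.filter (fun y => r y x)).card, hlt x⟩
  have hmono : ∀ x y, r x y → G0 x < G0 y := by
    intro x y hxy
    change (univ.filter (fun z => r z x)).card < (univ.filter (fun z => r z y)).card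
    apply Finset.card_lt_card
    rw [Finset.ssubset_iff_of_subset]
    · exact ⟨x, Finset.mem_filter.2 ⟨Finset.mem_univ _, hxy⟩,
        fun h => hirr x (Finset.mem_filter.1 h).2⟩
    · intro z hz
      exact Finset.mem_filter.2 ⟨Finset.mem_univ _, htr _ _ _ (Finset.mem_filter.1 hz).2 hxy⟩
  have hiff : ∀ x y, G0 x < G0 y ↔ r x y := by
    intro x y
    refine ⟨fun h => ?_, hmono x y⟩
    by_contra hn
    by_cases hxy : x = y
    · rw [hxy] at h
      exact lt_irrefl _ h
    · rcases htot x y hxy with k | k
      · exact hn k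
      · exact lt_asymm h (hmono y x k)
  have hGinj : Function.Injective G0 := by
    intro x y h
    by_contra hxy
    rcases htot x y hxy with k | k
    · exact absurd (hmono x y k) (by rw [h]; exact lt_irrefl _)
    · exact absurd (hmono y x k) (by rw [h]; exact lt_irrefl _)
  have hGbij : Function.Bijective G0 := by
    rw [Fintype.bijective_iff_injective_and_card]
    exact ⟨hGinj, by rw [hcard, Fintype.card_fin]⟩
  refine ⟨N, Equiv.ofBijective G0 hGbij, e, heX, fun c => ?_, hsurj, fun x y => ?_⟩
  · rw [he0, he1]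
  · rw [Equiv.ofBijective_apply, Equiv.ofBijective_apply]
    exact hiff x y

end Pool.Agent.H756.RP
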