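import Pool.Agent.H756.RP.Asm2
import Pool.Agent.H756.RP.SecA
import Pool.Agent.H756.RP.Word

set_option autoImplicit false

/-!
The number of the choices for a fixed polygon.
-/

namespace Pool.Agent.H756.RP

open MeasureTheory Finset
open scoped ENNReal
open Pool.Agent.H832R2.JR (GaussWord)
open Pool.Agent.H832R3.VJ (moment)

variable {n : ℕ}

/-- a polygon in general position has a Gauss word -/
theorem word_of_gen {p : Fin n → Pt} (hp : Gen p) :
    ∃ (N : ℕ) (G : GaussWord N) (e : Fin N × Bool → Fin n × Fin n),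
      IsWord (dat p).1 (dat p).2.1 G e := by
  classical
  apply word_exists
  · intro i
    refine decide_eq_false fun h => h.1 ?_
    unfold det
    ring
  · intro i j
    exact decide_eq_decide.2 ⟨Cr_swap, Cr_swap⟩
  · intro i j
    exact decide_eq_false (lt_irrefl _)
  · intro i j k h1 h2 h3
    have h4 := hp.notrip i j k (of_decide_eq_true h1) (of_decide_eq_true h2) h3
    rcases lt_or_gt_of_ne h4 with h5 | h5
    · exact Or.inl (decide_eq_true h5)
    · exact Or.inr (decide_eq_true h5)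
  · intro i j k l h1 h2
    exact decide_eq_true ((of_decide_eq_true h1).trans (of_decide_eq_true h2))

theorem Av_box {i k : Fin n} {δ : ℝ} {ω : Fin n → Pt × Bool} (h : ω ∈ Av i k δ) :
    Cr (pts ω) i k ∧ (3 / 8 ≤ par (pts ω) i k ∧ par (pts ω) i k ≤ 5 / 8) ∧
      3 / 8 ≤ par (pts ω) k i ∧ par (pts ω) k i ≤ 5 / 8 :=
  box_par (pts ω) i k (fun i => (ω i).2) h.1.1 h.1.2.1 h.1.2.2.1 h.1.2.2.2

theorem Av_lt {i k : Fin n} {δ : ℝ} {ω : Fin n → Pt × Bool} (h : ω ∈ Av i k δ) :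
    (ω i).1.2.2 < 1 := by
  obtain ⟨_, ⟨h1, h2⟩, h3, h4⟩ := Av_box h
  obtain ⟨⟨_, g2, g3, g4⟩, hg, _⟩ := h
  have e2 : 9 / 20 ≤ (ω (nx i)).1.2.2 := g2.2.2.2.1
  have e3 : (ω k).1.2.2 ≤ 11 / 20 := g3.2.2.2.2
  have e4 : (ω (nx k)).1.2.2 ≤ 11 / 20 := g4.2.2.2.2
  by_contra hcon
  push Not at hcon
  unfold gap hgt at hg
  set l := par (pts ω) i k
  set u := par (pts ω) k i
  have f1 : (pts ω i).2.2 = (ω i).1.2.2 := rfl
  have f2 : (pts ω (nx i)).2.2 = (ω (nx i)).1.2.2 := rfl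
  have f3 : (pts ω k).2.2 = (ω k).1.2.2 := rfl
  have f4 : (pts ω (nx k)).2.2 = (ω (nx k)).1.2.2 := rfl
  rw [f1, f2, f3, f4] at hg
  nlinarith [mul_nonneg (show (0 : ℝ) ≤ 1 - l by linarith) (sub_nonneg.2 hcon),
    mul_nonneg (show (0 : ℝ) ≤ l by linarith) (sub_nonneg.2 e2),
    mul_nonneg (show (0 : ℝ) ≤ 1 - u by linarith) (sub_nonneg.2 e3),
    mul_nonneg (show (0 : ℝ) ≤ u by linarith) (sub_nonneg.2 e4)]

theorem sharp_of {m : ℕ} (hn : 8 * m + 1 ≤ n) {δ : ℝ} (ω : Fin n → Pt × Bool) :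
    ∃ k : Fin n → Fin n, Sharp (pts ω) (act0 n m ω) δ (good n m 0 δ ω) k ∧
      Sharp (pts ω) (act0 n m ω) δ (good n m 1 δ ω) k ∧
      ∀ i ∈ good n m 0 δ ω, ∀ j ∈ good n m 1 δ ω, i < j ∧ j < k i ∧ k i < k j := by
  classical
  have hmem : ∀ a i, i ∈ good n m a δ ω → i ∈ blk n m a ∧ ∃ k ∈ blk n m (a + 2), ω ∈ Av i k δ ∧
      ∀ e f, (e = i ∨ nx e = i) → Cr (pts ω) e f → (e, f) ≠ (i, k) →
        2 * δ < |gap (pts ω) e f| := by
    intro a i hi
    unfold good at hi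
    exact mem_filter.1 hi
  have hex : ∀ i, ∃ k, (∀ a ≤ 1, i ∈ good n m a δ ω → k ∈ blk n m (a + 2) ∧ ω ∈ Av i k δ ∧
      ∀ e f, (e = i ∨ nx e = i) → Cr (pts ω) e f → (e, f) ≠ (i, k) →
        2 * δ < |gap (pts ω) e f|) := by
    intro i
    by_cases h0 : i ∈ good n m 0 δ ω
    · obtain ⟨g1, k, g2, g3, g4⟩ := hmem 0 i h0
      refine ⟨k, fun a ha hi => ?_⟩
      have g5 := (hmem a i hi).1
      rw [mem_blk] at g1 g5
      have ha0 : a = 0 := by
        by_contra hne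
        have : a = 1 := by omega
        subst this
        omega
      subst ha0
      exact ⟨g2, g3, g4⟩
    · by_cases h1 : i ∈ good n m 1 δ ω
      · obtain ⟨g1, k, g2, g3, g4⟩ := hmem 1 i h1
        refine ⟨k, fun a ha hi => ?_⟩
        have ha1 : a = 1 := by
          by_contra hne
          have : a = 0 := by omega
          subst this
          exact h0 hi
        subst ha1
        exact ⟨g2, g3, g4⟩
      · refine ⟨i, fun a ha hi => ?_⟩
        exfalso
        have : a = 0 ∨ a = 1 := by omega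
        rcases this with rfl | rfl
        · exact h0 hi
        · exact h1 hi
  choose k hk using hex
  have hact : ∀ i, i ∈ act0 n m ω → i ∈ blk n m 0 ∨ i ∈ blk n m 1 := by
    intro i hi
    unfold act0 at hi
    rw [mem_filter, mem_union] at hi
    exact hi.1
  have hsh : ∀ a ≤ 1, Sharp (pts ω) (act0 n m ω) δ (good n m a δ ω) k := by
    intro a ha
    have hb : ∀ i ∈ good n m a δ ω, i ∈ blk n m a := fun i hi => (hmem a i hi).1
    refine ⟨?_, ?_, ?_, ?_, ?_, ?_, ?_, ?_⟩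
    · intro i hi
      have h1 := (hk i a ha hi).2.1
      unfold act0
      rw [mem_filter, mem_union]
      refine ⟨?_, h1.1.1.1, h1.1.1.2.2.2.1, Av_lt h1⟩
      have : a = 0 ∨ a = 1 := by omega
      rcases this with rfl | rfl
      · exact Or.inl (hb i hi)
      · exact Or.inr (hb i hi)
    · intro i hi
      exact (Av_box (hk i a ha hi).2.1).1
    · intro i hi
      exact (hk i a ha hi).2.1.2.1
    · intro i hi
      exact (hk i a ha hi).2.1.2.2
    · intro i hi hc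
      obtain ⟨g1, g2, g3⟩ := blk_far hn ha (hb i hi) (hk i a ha hi).1
      have e1 := nx_val i
      rw [if_neg (by omega)] at e1
      have g4 := hb i hi
      rw [mem_blk] at g4
      rcases hact _ hc with h5 | h5 <;> rw [mem_blk] at h5 <;> omega
    · intro i hi hc
      have g5 := (hk i a ha hi).1
      rw [mem_blk] at g5
      have : a = 0 ∨ a = 1 := by omega
      rcases this with rfl | rfl <;> rcases hact _ hc with h5 | h5 <;> rw [mem_blk] at h5 <;> omega
    · intro i hi hc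
      obtain ⟨g1, g2, g3⟩ := blk_far hn ha (hb i hi) (hk i a ha hi).1
      have e1 := nx_val (k i)
      rw [if_neg (by omega)] at e1
      have g4 := (hk i a ha hi).1
      rw [mem_blk] at g4
      rcases hact _ hc with h5 | h5 <;> rw [mem_blk] at h5 <;> omega
    · intro i hi
      exact (hk i a ha hi).2.2
  refine ⟨k, hsh 0 (by omega), hsh 1 le_rfl, ?_⟩
  intro i hi j hj
  have g1 := (hmem 0 i hi).1
  have g2 := (hmem 1 j hj).1
  have g3 := (hk i 0 (by omega) hi).1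
  have g4 := (hk j 1 le_rfl hj).1
  rw [mem_blk] at g1 g2 g3 g4
  rw [Fin.lt_def, Fin.lt_def, Fin.lt_def]
  refine ⟨?_, ?_, ?_⟩ <;> omega

theorem root4 {M X L : ℕ} (hM : 0 < M) (h : M * X ^ 4 ≤ 32 * L ^ 4) :
    (X : ℝ) ≤ (32 / (M : ℝ)) ^ (1 / 4 : ℝ) * L := by
  have hM' : (0 : ℝ) < M := by exact_mod_cast hM
  have h1 : (M : ℝ) * (X : ℝ) ^ 4 ≤ 32 * (L : ℝ) ^ 4 := by exact_mod_cast h
  have h2 : (X : ℝ) ^ 4 ≤ (32 / (M : ℝ)) * (L : ℝ) ^ 4 := by
    rw [div_mul_eq_mul_div, le_div_iff₀ hM']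
    linarith
  have h3 : ((X : ℝ) ^ 4) ^ (1 / 4 : ℝ) ≤ ((32 / (M : ℝ)) * (L : ℝ) ^ 4) ^ (1 / 4 : ℝ) :=
    Real.rpow_le_rpow (by positivity) h2 (by norm_num)
  have e : ∀ x : ℝ, 0 ≤ x → (x ^ 4) ^ (1 / 4 : ℝ) = x := by
    intro x hx
    rw [← Real.rpow_natCast, ← Real.rpow_mul hx]
    norm_num
  rw [e _ (by positivity), Real.mul_rpow (by positivity) (by positivity), e _ (by positivity)] at h3
  exact h3

open Classical in
/-- the number of the choices for which the second moment has a given value -/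
theorem choice_bound {m : ℕ} (hn : 8 * m + 1 ≤ n) {δ : ℝ} (hδ : 0 < δ) (ω : Fin n → Pt × Bool)
    (hgen : Gen (pts ω)) (hw : nowrap n m δ ω) {M : ℕ} (hM : 0 < M)
    (hM1 : M ≤ (good n m 0 δ ω).card) (hM2 : M ≤ (good n m 1 δ ω).card) (c : ℤ) :
    ((univ.filter fun ε : Fin n → Bool =>
      moment 2 (pol (dat (pts (act (blk n m 0 ∪ blk n m 1) δ ε ω)))) = c).card : ℝ) ≤
      (32 / (M : ℝ)) ^ (1 / 4 : ℝ) * Fintype.card (Fin n → Bool) := by
  obtain ⟨k, h1, h2, h3⟩ := sharp_of hn (δ := δ) ω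
  have h4 := flip_count (pts ω) (act0 n m ω) hδ _ _ k h1 h2 h3 (word_of_gen hgen) M hM1 hM2 c
  simp only [pts_act ω hw]
  have h5 := root4 hM h4
  have e : (Fintype.card (Fin n → Bool) : ℝ) = ((2 ^ n : ℕ) : ℝ) := by
    simp
  rw [e]
  exact h5

end Pool.Agent.H756.RP
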