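import Pool.Agent.H756.RP.Ev

set_option autoImplicit false

/-!
Small differences of heights are unlikely.

`gap_le`: Let `λ = par p e f`, so `gap = (1-λ) z_e + λ z_{nx e} - hgt p f _`.  Equal or adjacent edges do not cross
(`det = 0`, or the parameter is `0` or `1`; note that for `n ≤ 2` nothing crosses), so we may assume that
`e, nx e, f, nx f` are distinct.  The event is contained in the union of `A₁ = {Cr, λ ≤ 1/2, |gap| ≤ r}` and
`A₂ = {Cr, λ ≥ 1/2, |gap| ≤ r}`.  In `A₁` the coefficient of `z_e` is at least `1/2`, and `λ`, `par p f e` do not depend on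
heights, so the section of `A₁` in the coordinate `e` is contained in `{y | |z - τ (x, y)| ≤ 2 r}` with a measurable `τ`
(`τ (x,y) = -(λ z_{nx e} - hgt p f _)/(1-λ)`): `slab` gives measure `≤ H * 2 r`.  Similarly `A₂` with the coordinate `nx e`.
Then integrate (`SSec` with `B = univ`).

`Av_gap`: the event `B = {Cr p e f ∧ |gap p e f| ≤ r}` depends only on the vertices `e, nx e, f, nx f`.  There is a
vertex `v ∈ {i, nx i, k, nx k}` outside `{e, nx e, f, nx f}` (or `B` is empty): if `e = i` then `f ≠ k`, and `f` is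
not `i` and not adjacent to `i` (otherwise `B = ∅`), so one of `k`, `nx k` is not in `{f, nx f}`; if `nx e = i` (`e` is the
predecessor of `i`) then `v = nx i` works unless `f = nx i` (`f = i` or `f = e` or `f` adjacent to `e` give `B = ∅`),
and for `f = nx i` take `v = k`.  (All is arithmetic with `(nx j : ℕ) = j + 1` for `j + 1 < n`, and `nx j = 0` for
`j + 1 = n`.)  Then `sec_le` with this `v`, `Av_sec` and `gap_le`.
-/

namespace Pool.Agent.H756.RP

open MeasureTheory
open scoped ENNReal

variable {n : ℕ}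

/-- statement of `sec_le` (other subtask) -/
def SSec : Prop := ∀ (n : ℕ) (κ : Measure (Pt × Bool)), IsProbabilityMeasure κ →
    ∀ (A B : Set (Fin n → Pt × Bool)), MeasurableSet A → MeasurableSet B → ∀ (v : Fin n) (b : ℝ≥0∞),
    (∀ ω y, Function.update ω v y ∈ B ↔ ω ∈ B) → (∀ ω, κ {y | Function.update ω v y ∈ A} ≤ b) →
    (Measure.pi fun _ : Fin n => κ) (A ∩ B) ≤ b * (Measure.pi fun _ : Fin n => κ) B

/-- statement of `measurableSet_Av` and `Av_sec` (other subtask) -/
def SAvSec : Prop := ∀ (n : ℕ) (κ : Measure (Pt × Bool)) (c₀ H : ℝ), Law κ c₀ H → ∀ (i k : Fin n),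
    i ≠ nx i → i ≠ k → i ≠ nx k → nx i ≠ k → nx i ≠ nx k → k ≠ nx k → ∀ δ : ℝ, 0 < δ →
    MeasurableSet (Av i k δ) ∧ ∀ v : Fin n, (v = i ∨ v = nx i ∨ v = k ∨ v = nx k) →
      ∀ ω : Fin n → Pt × Bool,
        κ {y | Function.update ω v y ∈ Av i k δ} ≤ ENNReal.ofReal (c₀ * δ * (3 / 100))


private lemma nx_val {i : Fin n} (h : (i : ℕ) + 1 < n) : (nx i : ℕ) = i + 1 := by
  unfold nx
  obtain ⟨m, rfl⟩ : ∃ m, n = m + 1 := ⟨n - 1, by omega⟩
  have : i = ⟨(i : ℕ), by omega⟩ := rfl
  rw [this, finRotate_of_lt (by omega)]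

private lemma nx_val_last {i : Fin n} (h : (i : ℕ) + 1 = n) : (nx i : ℕ) = 0 := by
  unfold nx
  obtain ⟨m, rfl⟩ : ∃ m, n = m + 1 := ⟨n - 1, by omega⟩
  have : i = Fin.last m := by
    apply Fin.ext; simp only [Fin.val_last]; omega
  rw [this, finRotate_last]
  rfl

private lemma nx_inj {i j : Fin n} (h : nx i = nx j) : i = j := (finRotate n).injective h

/-! ### no crossings of equal or adjacent edges -/

private lemma not_Cr_self (p : Fin n → Pt) (e : Fin n) : ¬ Cr p e e := by
  intro h
  apply h.1
  unfold det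
  ring

private lemma not_Cr_fix (p : Fin n → Pt) {e : Fin n} (f : Fin n) (he : e = nx e) : ¬ Cr p e f := by
  intro h
  apply h.1
  unfold det
  rw [← he]
  ring

private lemma not_Cr_fix' (p : Fin n → Pt) (e : Fin n) {f : Fin n} (he : f = nx f) : ¬ Cr p e f := by
  intro h
  apply h.1
  unfold det
  rw [← he]
  ring

private lemma not_Cr_adj (p : Fin n → Pt) {e f : Fin n} (he : e = nx f) : ¬ Cr p e f := by
  intro h
  have h1 := h.2.1.1
  have : par p e f = 0 := by
    unfold par
    rw [← he]
    have : ((p f).1 - (p e).1) * ((p e).2.1 - (p f).2.1) -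
        ((p f).2.1 - (p e).2.1) * ((p e).1 - (p f).1) = 0 := by ring
    rw [this, zero_div]
  rw [this] at h1
  exact lt_irrefl _ h1

private lemma not_Cr_adj' (p : Fin n → Pt) {e f : Fin n} (he : f = nx e) : ¬ Cr p e f := by
  intro h
  have h1 := h.2.2.1
  have : par p f e = 0 := by
    unfold par
    rw [← he]
    have : ((p e).1 - (p f).1) * ((p f).2.1 - (p e).2.1) -
        ((p e).2.1 - (p f).2.1) * ((p f).1 - (p e).1) = 0 := by ring
    rw [this, zero_div]
  rw [this] at h1
  exact lt_irrefl _ h1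

/-! ### measurability -/

private lemma meas_x (i : Fin n) : Measurable fun ω : Fin n → Pt × Bool => (pts ω i).1 := by
  unfold pts
  exact ((measurable_pi_apply i).fst).fst

private lemma meas_y (i : Fin n) : Measurable fun ω : Fin n → Pt × Bool => (pts ω i).2.1 := by
  unfold pts
  exact (((measurable_pi_apply i).fst).snd).fst

private lemma meas_z (i : Fin n) : Measurable fun ω : Fin n → Pt × Bool => (pts ω i).2.2 := by
  unfold pts
  exact (((measurable_pi_apply i).fst).snd).snd

private lemma meas_det (i j : Fin n) : Measurable fun ω : Fin n → Pt × Bool => det (pts ω) i j := by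
  unfold det
  have := meas_x (n := n)
  have := meas_y (n := n)
  fun_prop

private lemma meas_par (i j : Fin n) : Measurable fun ω : Fin n → Pt × Bool => par (pts ω) i j := by
  unfold par
  have := meas_x (n := n)
  have := meas_y (n := n)
  have := meas_det (n := n)
  fun_prop

private lemma meas_gap (i j : Fin n) : Measurable fun ω : Fin n → Pt × Bool => gap (pts ω) i j := by
  unfold gap hgt
  have := meas_z (n := n)
  have := meas_par (n := n)
  fun_prop

private lemma measSet_Cr (i j : Fin n) :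
    MeasurableSet {ω : Fin n → Pt × Bool | Cr (pts ω) i j} := by
  unfold Cr
  have h0 : MeasurableSet {ω : Fin n → Pt × Bool | det (pts ω) i j ≠ 0} :=
    (meas_det i j) (measurableSet_singleton (0 : ℝ)).compl
  have h1 : MeasurableSet {ω : Fin n → Pt × Bool | 0 < par (pts ω) i j} :=
    measurableSet_lt measurable_const (meas_par i j)
  have h2 : MeasurableSet {ω : Fin n → Pt × Bool | par (pts ω) i j < 1} :=
    measurableSet_lt (meas_par i j) measurable_const
  have h3 : MeasurableSet {ω : Fin n → Pt × Bool | 0 < par (pts ω) j i} :=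
    measurableSet_lt measurable_const (meas_par j i)
  have h4 : MeasurableSet {ω : Fin n → Pt × Bool | par (pts ω) j i < 1} :=
    measurableSet_lt (meas_par j i) measurable_const
  exact h0.inter ((h1.inter h2).inter (h3.inter h4))

private lemma measSet_gap (i j : Fin n) (r : ℝ) :
    MeasurableSet {ω : Fin n → Pt × Bool | |gap (pts ω) i j| ≤ r} :=
  measurableSet_le (continuous_abs.measurable.comp (meas_gap i j)) measurable_const

/-! ### the sections -/

private lemma pts_update (ω : Fin n → Pt × Bool) (v : Fin n) (y : Pt × Bool) :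
    pts (Function.update ω v y) = Function.update (pts ω) v y.1 := by
  funext j
  unfold pts
  by_cases h : j = v
  · subst h; simp
  · simp [Function.update_of_ne h]

/-- the parameter does not depend on the heights -/
private lemma par_flat {p q : Fin n → Pt} (h : ∀ j, (p j).1 = (q j).1 ∧ (p j).2.1 = (q j).2.1)
    (e f : Fin n) : par p e f = par q e f := by
  unfold par det
  simp only [(h _).1, (h _).2]

private lemma sec_e {κ : Measure (Pt × Bool)} {c₀ H : ℝ} (hκ : Law κ c₀ H) {e f : Fin n}
    (d1 : nx e ≠ e) (d2 : f ≠ e) (d3 : nx f ≠ e) {r : ℝ} (hr : 0 ≤ r) (ω : Fin n → Pt × Bool) :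
    κ {y | Function.update ω e y ∈
      {ω : Fin n → Pt × Bool | (Cr (pts ω) e f ∧ par (pts ω) e f ≤ 1 / 2) ∧
        |gap (pts ω) e f| ≤ r}} ≤ ENNReal.ofReal (2 * H * r) := by
  set q : ℝ × ℝ → Fin n → Pt := fun u => Function.update (pts ω) e (u.1, u.2, 0) with hq
  set τ : ℝ × ℝ → ℝ := fun u =>
    (((1 - par (q u) f e) * (pts ω f).2.2 + par (q u) f e * (pts ω (nx f)).2.2) -
      par (q u) e f * (pts ω (nx e)).2.2) / (1 - par (q u) e f) with hτ
  have m1 : ∀ j, Measurable fun u : ℝ × ℝ => (q u j).1 := by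
    intro j
    by_cases hj : j = e
    · subst hj
      simp only [hq, Function.update_self]
      exact measurable_fst
    · simp only [hq, Function.update_of_ne hj]
      exact measurable_const
  have m2 : ∀ j, Measurable fun u : ℝ × ℝ => (q u j).2.1 := by
    intro j
    by_cases hj : j = e
    · subst hj
      simp only [hq, Function.update_self]
      exact measurable_snd
    · simp only [hq, Function.update_of_ne hj]
      exact measurable_const
  have mpar : ∀ i j, Measurable fun u : ℝ × ℝ => par (q u) i j := by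
    intro i j
    unfold par det
    fun_prop
  have hτm : Measurable τ := by
    simp only [hτ]
    have ma := mpar f e
    have mb := mpar e f
    fun_prop
  refine le_trans (measure_mono ?_) ((hκ.slab τ hτm (2 * r) (by linarith)).trans
    (ENNReal.ofReal_le_ofReal (by linarith)))
  intro y hy
  simp only [Set.mem_ofPred_eq, pts_update] at hy ⊢
  obtain ⟨⟨hc, hl⟩, hg⟩ := hy
  have hflat : ∀ j, (Function.update (pts ω) e y.1 j).1 = (q (y.1.1, y.1.2.1) j).1 ∧
      (Function.update (pts ω) e y.1 j).2.1 = (q (y.1.1, y.1.2.1) j).2.1 := by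
    intro j
    by_cases hj : j = e
    · subst hj; simp [hq]
    · simp [hq, Function.update_of_ne hj]
  have p1 := par_flat hflat e f
  have p2 := par_flat hflat f e
  have hgap : gap (Function.update (pts ω) e y.1) e f =
      (1 - par (q (y.1.1, y.1.2.1)) e f) * (y.1.2.2 - τ (y.1.1, y.1.2.1)) := by
    have h1 : 1 - par (q (y.1.1, y.1.2.1)) e f ≠ 0 := by
      rw [p1] at hl
      intro h0
      linarith
    simp only [gap, hgt, p1, p2, Function.update_self, Function.update_of_ne d1,
      Function.update_of_ne d2, Function.update_of_ne d3, hτ]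
    field_simp
    ring
  rw [hgap, abs_mul] at hg
  rw [p1] at hl
  have h2 : 1 / 2 ≤ |1 - par (q (y.1.1, y.1.2.1)) e f| := by
    rw [abs_of_nonneg (by linarith)]
    linarith
  nlinarith [abs_nonneg (y.1.2.2 - τ (y.1.1, y.1.2.1))]

private lemma sec_ne {κ : Measure (Pt × Bool)} {c₀ H : ℝ} (hκ : Law κ c₀ H) {e f : Fin n}
    (d1 : e ≠ nx e) (d2 : f ≠ nx e) (d3 : nx f ≠ nx e) {r : ℝ} (hr : 0 ≤ r)
    (ω : Fin n → Pt × Bool) :
    κ {y | Function.update ω (nx e) y ∈
      {ω : Fin n → Pt × Bool | (Cr (pts ω) e f ∧ 1 / 2 ≤ par (pts ω) e f) ∧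
        |gap (pts ω) e f| ≤ r}} ≤ ENNReal.ofReal (2 * H * r) := by
  set q : ℝ × ℝ → Fin n → Pt := fun u => Function.update (pts ω) (nx e) (u.1, u.2, 0) with hq
  set τ : ℝ × ℝ → ℝ := fun u =>
    (((1 - par (q u) f e) * (pts ω f).2.2 + par (q u) f e * (pts ω (nx f)).2.2) -
      (1 - par (q u) e f) * (pts ω e).2.2) / par (q u) e f with hτ
  have m1 : ∀ j, Measurable fun u : ℝ × ℝ => (q u j).1 := by
    intro j
    by_cases hj : j = nx e
    · subst hj
      simp only [hq, Function.update_self]
      exact measurable_fst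
    · simp only [hq, Function.update_of_ne hj]
      exact measurable_const
  have m2 : ∀ j, Measurable fun u : ℝ × ℝ => (q u j).2.1 := by
    intro j
    by_cases hj : j = nx e
    · subst hj
      simp only [hq, Function.update_self]
      exact measurable_snd
    · simp only [hq, Function.update_of_ne hj]
      exact measurable_const
  have mpar : ∀ i j, Measurable fun u : ℝ × ℝ => par (q u) i j := by
    intro i j
    unfold par det
    fun_prop
  have hτm : Measurable τ := by
    simp only [hτ]
    have ma := mpar f e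
    have mb := mpar e f
    fun_prop
  refine le_trans (measure_mono ?_) ((hκ.slab τ hτm (2 * r) (by linarith)).trans
    (ENNReal.ofReal_le_ofReal (by linarith)))
  intro y hy
  simp only [Set.mem_ofPred_eq, pts_update] at hy ⊢
  obtain ⟨⟨hc, hl⟩, hg⟩ := hy
  have hflat : ∀ j, (Function.update (pts ω) (nx e) y.1 j).1 = (q (y.1.1, y.1.2.1) j).1 ∧
      (Function.update (pts ω) (nx e) y.1 j).2.1 = (q (y.1.1, y.1.2.1) j).2.1 := by
    intro j
    by_cases hj : j = nx e
    · subst hj; simp [hq]
    · simp [hq, Function.update_of_ne hj]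
  have p1 := par_flat hflat e f
  have p2 := par_flat hflat f e
  have hgap : gap (Function.update (pts ω) (nx e) y.1) e f =
      par (q (y.1.1, y.1.2.1)) e f * (y.1.2.2 - τ (y.1.1, y.1.2.1)) := by
    have h1 : par (q (y.1.1, y.1.2.1)) e f ≠ 0 := by
      rw [p1] at hl
      intro h0
      rw [h0] at hl
      norm_num at hl
    simp only [gap, hgt, p1, p2, Function.update_self, Function.update_of_ne d1,
      Function.update_of_ne d2, Function.update_of_ne d3, hτ]
    field_simp
    ring
  rw [hgap, abs_mul] at hg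
  rw [p1] at hl
  have h2 : 1 / 2 ≤ |par (q (y.1.1, y.1.2.1)) e f| := by
    rw [abs_of_nonneg (by linarith)]
    exact hl
  nlinarith [abs_nonneg (y.1.2.2 - τ (y.1.1, y.1.2.1))]

theorem gap_le (hsec : SSec) {κ : Measure (Pt × Bool)} {c₀ H : ℝ} (hκ : Law κ c₀ H) (e f : Fin n)
    {r : ℝ} (hr : 0 ≤ r) :
    (Measure.pi fun _ : Fin n => κ) {ω | Cr (pts ω) e f ∧ |gap (pts ω) e f| ≤ r} ≤
      ENNReal.ofReal (4 * H * r) := by
  have hprob := hκ.prob
  by_cases hno : ∀ p : Fin n → Pt, ¬ Cr p e f
  · have : {ω : Fin n → Pt × Bool | Cr (pts ω) e f ∧ |gap (pts ω) e f| ≤ r} = ∅ := by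
      ext ω
      simp only [Set.mem_ofPred_eq, Set.mem_empty_iff_false, iff_false]
      intro h
      exact hno _ h.1
    rw [this, measure_empty]
    exact bot_le
  have d1 : nx e ≠ e := fun h => hno fun p => not_Cr_fix p f h.symm
  have d2 : f ≠ e := fun h => hno fun p => by rw [h]; exact not_Cr_self p e
  have d3 : nx f ≠ e := fun h => hno fun p => not_Cr_adj p h.symm
  have d4 : f ≠ nx e := fun h => hno fun p => not_Cr_adj' p h
  have d5 : nx f ≠ nx e := fun h => d2 (nx_inj h)
  set A1 : Set (Fin n → Pt × Bool) := {ω | (Cr (pts ω) e f ∧ par (pts ω) e f ≤ 1 / 2) ∧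
        |gap (pts ω) e f| ≤ r} with hA1
  set A2 : Set (Fin n → Pt × Bool) := {ω | (Cr (pts ω) e f ∧ 1 / 2 ≤ par (pts ω) e f) ∧
        |gap (pts ω) e f| ≤ r} with hA2
  have mA1 : MeasurableSet A1 :=
    ((measSet_Cr e f).inter (measurableSet_le (meas_par e f) measurable_const)).inter
      (measSet_gap e f r)
  have mA2 : MeasurableSet A2 :=
    ((measSet_Cr e f).inter (measurableSet_le measurable_const (meas_par e f))).inter
      (measSet_gap e f r)
  have b1 := hsec n κ hprob A1 Set.univ mA1 MeasurableSet.univ e (ENNReal.ofReal (2 * H * r))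
    (fun ω y => by simp) (fun ω => sec_e hκ d1 d2 d3 hr ω)
  have b2 := hsec n κ hprob A2 Set.univ mA2 MeasurableSet.univ (nx e)
    (ENNReal.ofReal (2 * H * r)) (fun ω y => by simp)
    (fun ω => sec_ne hκ d1.symm d4 d5 hr ω)
  rw [Set.inter_univ, measure_univ, mul_one] at b1 b2
  have hsub : {ω : Fin n → Pt × Bool | Cr (pts ω) e f ∧ |gap (pts ω) e f| ≤ r} ⊆ A1 ∪ A2 := by
    intro ω hω
    rcases le_total (par (pts ω) e f) (1 / 2) with h | h
    · exact Or.inl ⟨⟨hω.1, h⟩, hω.2⟩
    · exact Or.inr ⟨⟨hω.1, h⟩, hω.2⟩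
  have h0 : 0 ≤ 2 * H * r := mul_nonneg (by linarith [hκ.H_pos]) hr
  calc (Measure.pi fun _ : Fin n => κ) {ω | Cr (pts ω) e f ∧ |gap (pts ω) e f| ≤ r}
      ≤ (Measure.pi fun _ : Fin n => κ) (A1 ∪ A2) := measure_mono hsub
    _ ≤ (Measure.pi fun _ : Fin n => κ) A1 + (Measure.pi fun _ : Fin n => κ) A2 :=
        measure_union_le _ _
    _ ≤ ENNReal.ofReal (2 * H * r) + ENNReal.ofReal (2 * H * r) := add_le_add b1 b2
    _ = ENNReal.ofReal (4 * H * r) := by
        rw [← ENNReal.ofReal_add h0 h0]
        congr 1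
        ring

/-- the event depends on four vertices only -/
private lemma ev_update {e f v : Fin n} {r : ℝ} (v1 : e ≠ v) (v2 : nx e ≠ v) (v3 : f ≠ v)
    (v4 : nx f ≠ v) (ω : Fin n → Pt × Bool) (y : Pt × Bool) :
    Function.update ω v y ∈ {ω : Fin n → Pt × Bool | Cr (pts ω) e f ∧ |gap (pts ω) e f| ≤ r} ↔
      ω ∈ {ω : Fin n → Pt × Bool | Cr (pts ω) e f ∧ |gap (pts ω) e f| ≤ r} := by
  simp only [Set.mem_ofPred_eq, pts_update, Cr, gap, hgt, par, det, Function.update_of_ne v1,
    Function.update_of_ne v2, Function.update_of_ne v3, Function.update_of_ne v4]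

theorem Av_gap (hsec : SSec) (hav : SAvSec) {κ : Measure (Pt × Bool)} {c₀ H : ℝ}
    (hκ : Law κ c₀ H) {i k : Fin n} (h1 : 1 ≤ (i : ℕ)) (h2 : (i : ℕ) + 2 < k) (h3 : (k : ℕ) + 1 < n)
    (e f : Fin n) (he : e = i ∨ nx e = i) (hne : (e, f) ≠ (i, k)) {δ r : ℝ} (hδ : 0 < δ)
    (hr : 0 ≤ r) :
    (Measure.pi fun _ : Fin n => κ) (Av i k δ ∩ {ω | Cr (pts ω) e f ∧ |gap (pts ω) e f| ≤ r}) ≤
      ENNReal.ofReal (c₀ * δ * (3 / 100)) * ENNReal.ofReal (4 * H * r) := by
  have hprob := hκ.prob
  have ni : (nx i : ℕ) = i + 1 := nx_val (by omega)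
  have nk : (nx k : ℕ) = k + 1 := nx_val h3
  have q1 : i ≠ nx i := fun h => by have := congrArg Fin.val h; omega
  have q2 : i ≠ k := fun h => by have := congrArg Fin.val h; omega
  have q3 : i ≠ nx k := fun h => by have := congrArg Fin.val h; omega
  have q4 : nx i ≠ k := fun h => by have := congrArg Fin.val h; omega
  have q5 : nx i ≠ nx k := fun h => by have := congrArg Fin.val h; omega
  have q6 : k ≠ nx k := fun h => by have := congrArg Fin.val h; omega
  obtain ⟨mA, hA⟩ := hav n κ c₀ H hκ i k q1 q2 q3 q4 q5 q6 δ hδ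
  have mB : MeasurableSet {ω : Fin n → Pt × Bool | Cr (pts ω) e f ∧ |gap (pts ω) e f| ≤ r} :=
    (measSet_Cr e f).inter (measSet_gap e f r)
  by_cases hno : ∀ p : Fin n → Pt, ¬ Cr p e f
  · have : Av i k δ ∩ {ω : Fin n → Pt × Bool | Cr (pts ω) e f ∧ |gap (pts ω) e f| ≤ r} = ∅ := by
      ext ω
      simp only [Set.mem_inter_iff, Set.mem_ofPred_eq, Set.mem_empty_iff_false, iff_false]
      intro h
      exact hno _ h.2.1
    rw [this, measure_empty]
    exact bot_le
  have d2 : f ≠ e := fun h => hno fun p => by rw [h]; exact not_Cr_self p e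
  have d3 : nx f ≠ e := fun h => hno fun p => not_Cr_adj p h.symm
  have d4 : f ≠ nx e := fun h => hno fun p => not_Cr_adj' p h
  have d5 : nx f ≠ nx e := fun h => d2 (nx_inj h)
  obtain ⟨v, hv, v1, v2, v3, v4⟩ : ∃ v : Fin n, (v = i ∨ v = nx i ∨ v = k ∨ v = nx k) ∧
      e ≠ v ∧ nx e ≠ v ∧ f ≠ v ∧ nx f ≠ v := by
    rcases he with he | he
    · subst he
      have hfk : f ≠ k := fun h => hne (by rw [h])
      by_cases hk : nx f = k
      · refine ⟨nx k, by simp, q3, q5, ?_, ?_⟩
        · intro h
          rw [h] at hk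
          -- nx (nx k) = k impossible
          by_cases hl : ((nx k : Fin n) : ℕ) + 1 < n
          · have := nx_val hl
            have := congrArg Fin.val hk
            omega
          · have h5 : ((nx k : Fin n) : ℕ) + 1 = n := by have := (nx k).isLt; omega
            have := nx_val_last h5
            have := congrArg Fin.val hk
            omega
        · intro h; exact hfk (nx_inj h)
      · exact ⟨k, by simp, q2, q4, hfk, hk⟩
    · -- `e = i - 1`
      have hei : (e : ℕ) + 1 = i := by
        by_cases hl : (e : ℕ) + 1 < n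
        · have := nx_val hl
          rw [he] at this
          omega
        · have h5 : (e : ℕ) + 1 = n := by have := e.isLt; omega
          have := nx_val_last h5
          rw [he] at this
          omega
      by_cases hf : f = nx i
      · refine ⟨k, by simp, ?_, ?_, ?_, ?_⟩
        · intro h; have := congrArg Fin.val h; omega
        · rw [he]; exact q2
        · rw [hf]; exact q4
        · intro h
          have hfv : (f : ℕ) = i + 1 := by rw [hf]; exact ni
          have := nx_val (i := f) (by omega)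
          rw [h] at this
          omega
      · refine ⟨nx i, by simp, ?_, ?_, hf, ?_⟩
        · intro h; have := congrArg Fin.val h; omega
        · rw [he]; exact q1
        · intro h
          apply d4
          rw [he]
          exact nx_inj h
  calc (Measure.pi fun _ : Fin n => κ)
        (Av i k δ ∩ {ω | Cr (pts ω) e f ∧ |gap (pts ω) e f| ≤ r})
      ≤ ENNReal.ofReal (c₀ * δ * (3 / 100)) * (Measure.pi fun _ : Fin n => κ)
        {ω | Cr (pts ω) e f ∧ |gap (pts ω) e f| ≤ r} :=
        hsec n κ hprob _ _ mA mB v _ (fun ω y => ev_update v1 v2 v3 v4 ω y) (fun ω => hA v hv ω)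
    _ ≤ ENNReal.ofReal (c₀ * δ * (3 / 100)) * ENNReal.ofReal (4 * H * r) := by
        gcongr
        exact gap_le hsec hκ e f hr

end Pool.Agent.H756.RP
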