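import Pool.Agent.H756.RP.Geo

set_option autoImplicit false

/-!
Random polygons are in general position almost surely.

Tool: if `A` is measurable and for some `v` all sections `{y | Function.update ω v y ∈ A}` are `κ`-null then
`A` is null (`MeasureTheory.lintegral_eq_lmarginal...`, `lmarginal_singleton`, or
`measure_pi` Fubini for one coordinate).  Measurability: `det`, `par`, `gap` are measurable functions of
the polygon (division of measurable functions), `Cr` is a measurable condition.
* `noncol`: for three distinct vertices, first the event that `p i` and `p j` have the same first coordinate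
  is null (section in `j`, `wall 1 0 c`); otherwise the section in `k` is contained in the vertical plane
  `a x + b y = c` with `(a, b) ≠ (0, 0)`: `wall`.
* `nogap`: for `Cr p i j` the vertex `i` is different from `nx i, j, nx j` (equal or adjacent edges do not cross:
  `det = 0`, or the parameter is `0` or `1`), `gap = (1 - par p i j) * z i + (terms without z i)`, and `det`, `par` do not
  depend on heights, so the section in `i` of `{Cr ∧ gap = 0}` is contained in `{z = τ (x, y)}` with a measurable
  `τ` (for points where `par p i j = 1` define `τ` by division by zero): `slab` with `r = 0`.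
* `notrip`: for `Cr p i j`, `Cr p i k`, `j ≠ k`: `i, nx i ∉ {j, nx j, k, nx k}`.  Since `n ≥ 3`, not both `k = nx j` and `j = nx k`
  hold together with ... ; by symmetry in `j, k` we may assume `nx k ∉ {i, nx i, j, nx j}` (if `nx k = j` then `nx j ≠ k` as
  `n ≥ 3`, and exchange the roles).  If `par p i j = par p i k`, then the point `P` of the edge `i` with parameter
  `par p i j` lies on the line of the edge `k` and `P` is different from the projection of `p k` (as `par p k i > 0`);
  `P` does not depend on the vertex `nx k`, so the section in the coordinate `nx k` is contained in the vertical plane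
  through the (different) points `p k` and `P`: `wall`.
-/

namespace Pool.Agent.H756.RP

open MeasureTheory

namespace GenAe

variable {n : ℕ}

/-! ### the tool -/

theorem null_of_sections {κ : Measure (Pt × Bool)} [IsProbabilityMeasure κ]
    {A : Set (Fin n → Pt × Bool)} (hA : MeasurableSet A) (v : Fin n)
    (h : ∀ ω, κ {y | Function.update ω v y ∈ A} = 0) :
    (Measure.pi fun _ : Fin n => κ) A = 0 := by
  classical
  have x : Fin n → Pt × Bool := fun _ => ((0, 0, 0), true)
  have hm : Measurable (A.indicator (fun _ => (1 : ENNReal))) := measurable_const.indicator hA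
  have h1 : ∫⁻ ω, A.indicator (fun _ => (1 : ENNReal)) ω ∂(Measure.pi fun _ : Fin n => κ) = 0 := by
    rw [lintegral_eq_lmarginal_univ x, lmarginal_erase' _ hm (Finset.mem_univ v)]
    have h2 : (fun x : Fin n → Pt × Bool =>
        ∫⁻ y, A.indicator (fun _ => (1 : ENNReal)) (Function.update x v y) ∂κ) = fun _ => 0 := by
      funext ω
      have h3 : (fun y => A.indicator (fun _ => (1 : ENNReal)) (Function.update ω v y)) =
          {y | Function.update ω v y ∈ A}.indicator (fun _ => (1 : ENNReal)) := by
        funext y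
        simp only [Set.indicator, Set.mem_ofPred_eq]
      have hms : MeasurableSet {y | Function.update ω v y ∈ A} := (measurable_update ω) hA
      rw [h3, lintegral_indicator hms, lintegral_const, one_mul, Measure.restrict_apply_univ]
      exact h ω
    rw [h2]
    simp [lmarginal]
  rw [lintegral_indicator hA, lintegral_const, one_mul, Measure.restrict_apply_univ] at h1
  exact h1

/-- the polygon of the marked vertices -/
abbrev pg (ω : Fin n → Pt × Bool) : Fin n → Pt := fun i => (ω i).1

theorem pg_update_same (ω : Fin n → Pt × Bool) (v : Fin n) (y : Pt × Bool) :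
    pg (Function.update ω v y) v = y.1 := by
  simp [pg]

theorem pg_update_ne (ω : Fin n → Pt × Bool) {v i : Fin n} (y : Pt × Bool) (h : i ≠ v) :
    pg (Function.update ω v y) i = pg ω i := by
  simp [pg, Function.update_of_ne h]

/-! ### measurability -/

theorem meas_x (i : Fin n) : Measurable fun ω : Fin n → Pt × Bool => (pg ω i).1 := by
  fun_prop

theorem meas_y (i : Fin n) : Measurable fun ω : Fin n → Pt × Bool => (pg ω i).2.1 := by
  fun_prop

theorem meas_z (i : Fin n) : Measurable fun ω : Fin n → Pt × Bool => (pg ω i).2.2 := by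
  fun_prop

theorem meas_det (i j : Fin n) : Measurable fun ω : Fin n → Pt × Bool => det (pg ω) i j := by
  unfold det
  fun_prop

theorem meas_par (i j : Fin n) : Measurable fun ω : Fin n → Pt × Bool => par (pg ω) i j := by
  unfold par det
  fun_prop

theorem meas_gap (i j : Fin n) : Measurable fun ω : Fin n → Pt × Bool => gap (pg ω) i j := by
  unfold gap hgt
  have h1 := meas_par i j
  have h2 := meas_par j i
  exact (((measurable_const.sub h1).mul (meas_z i)).add (h1.mul (meas_z (nx i)))).sub
    (((measurable_const.sub h2).mul (meas_z j)).add (h2.mul (meas_z (nx j))))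

theorem meas_Cr (i j : Fin n) : MeasurableSet {ω : Fin n → Pt × Bool | Cr (pg ω) i j} := by
  unfold Cr
  have h1 := meas_par i j
  have h2 := meas_par j i
  have h3 := meas_det i j
  refine MeasurableSet.inter ?_ (MeasurableSet.inter (MeasurableSet.inter ?_ ?_)
    (MeasurableSet.inter ?_ ?_))
  · exact (h3 (measurableSet_singleton 0)).compl
  · exact measurableSet_lt measurable_const h1
  · exact measurableSet_lt h1 measurable_const
  · exact measurableSet_lt measurable_const h2
  · exact measurableSet_lt h2 measurable_const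

/-! ### combinatorics of crossings -/

theorem nx_ne (hn : 3 ≤ n) (i : Fin n) : nx i ≠ i := by
  obtain ⟨m, rfl⟩ : ∃ m, n = m + 1 := ⟨n - 1, by omega⟩
  unfold nx
  intro h
  have hl : ((Fin.last m : Fin (m + 1)) : ℕ) = m := Fin.val_last m
  have h1 := congrArg Fin.val h
  rw [coe_finRotate] at h1
  split_ifs at h1 with h2
  · have : (i : ℕ) = m := by rw [h2]; exact hl
    omega
  · omega

theorem nx_nx_ne (hn : 3 ≤ n) (i : Fin n) : nx (nx i) ≠ i := by
  obtain ⟨m, rfl⟩ : ∃ m, n = m + 1 := ⟨n - 1, by omega⟩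
  intro h
  have hj : ((nx i : Fin (m + 1)) : ℕ) = if i = Fin.last m then (0 : ℕ) else i + 1 :=
    coe_finRotate i
  have hk : ((nx (nx i) : Fin (m + 1)) : ℕ) =
      if nx i = Fin.last m then (0 : ℕ) else (nx i : Fin (m + 1)) + 1 := coe_finRotate (nx i)
  rw [h] at hk
  simp only [Fin.ext_iff, Fin.val_last] at hj hk
  generalize ((nx i : Fin (m + 1)) : ℕ) = b at *
  have := i.2
  split_ifs at hj hk <;> omega

theorem nx_inj {i j : Fin n} (h : nx i = nx j) : i = j := (finRotate n).injective h

theorem Cr.symm' {p : Fin n → Pt} {i j : Fin n} (h : Cr p i j) : Cr p j i := by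
  refine ⟨?_, h.2.2, h.2.1⟩
  have h1 : det p j i = - det p i j := by
    unfold det
    ring
  rw [h1]
  exact neg_ne_zero.2 h.1

theorem Cr.ne {p : Fin n → Pt} {i j : Fin n} (h : Cr p i j) : i ≠ j := by
  rintro rfl
  apply h.1
  unfold det
  ring

theorem Cr.ne_nx {p : Fin n → Pt} {i j : Fin n} (h : Cr p i j) : i ≠ nx j := by
  intro hij
  have h1 := h.2.1.1
  have h2 : par p i j = 0 := by
    unfold par
    rw [← hij]
    have : ((p j).1 - (p i).1) * ((p i).2.1 - (p j).2.1) -
      ((p j).2.1 - (p i).2.1) * ((p i).1 - (p j).1) = 0 := by ring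
    rw [this, zero_div]
  rw [h2] at h1
  exact lt_irrefl _ h1

/-- the intersection point -/
theorem meet {p : Fin n → Pt} {i j : Fin n} (h : det p i j ≠ 0) :
    (p i).1 + par p i j * ((p (nx i)).1 - (p i).1) =
      (p j).1 + par p j i * ((p (nx j)).1 - (p j).1) ∧
    (p i).2.1 + par p i j * ((p (nx i)).2.1 - (p i).2.1) =
      (p j).2.1 + par p j i * ((p (nx j)).2.1 - (p j).2.1) := by
  have h1 : det p j i = - det p i j := by
    unfold det
    ring
  have h2 : par p i j * det p i j = ((p j).1 - (p i).1) * ((p (nx j)).2.1 - (p j).2.1) -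
    ((p j).2.1 - (p i).2.1) * ((p (nx j)).1 - (p j).1) := by
    unfold par
    exact div_mul_cancel₀ _ h
  have h3 : par p j i * det p i j = -(((p i).1 - (p j).1) * ((p (nx i)).2.1 - (p i).2.1) -
    ((p i).2.1 - (p j).2.1) * ((p (nx i)).1 - (p i).1)) := by
    have h4 : det p j i ≠ 0 := by rw [h1]; exact neg_ne_zero.2 h
    have h5 : par p j i * det p j i = (((p i).1 - (p j).1) * ((p (nx i)).2.1 - (p i).2.1) -
      ((p i).2.1 - (p j).2.1) * ((p (nx i)).1 - (p i).1)) := by
      unfold par
      exact div_mul_cancel₀ _ h4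
    rw [h1] at h5
    linarith
  have hd : det p i j = ((p (nx i)).1 - (p i).1) * ((p (nx j)).2.1 - (p j).2.1) -
    ((p (nx i)).2.1 - (p i).2.1) * ((p (nx j)).1 - (p j).1) := rfl
  constructor
  · apply mul_right_cancel₀ h
    calc ((p i).1 + par p i j * ((p (nx i)).1 - (p i).1)) * det p i j
        = (p i).1 * det p i j + (par p i j * det p i j) * ((p (nx i)).1 - (p i).1) := by ring
      _ = (p j).1 * det p i j + (par p j i * det p i j) * ((p (nx j)).1 - (p j).1) := by
          rw [h2, h3, hd]
          ring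
      _ = ((p j).1 + par p j i * ((p (nx j)).1 - (p j).1)) * det p i j := by ring
  · apply mul_right_cancel₀ h
    calc ((p i).2.1 + par p i j * ((p (nx i)).2.1 - (p i).2.1)) * det p i j
        = (p i).2.1 * det p i j + (par p i j * det p i j) * ((p (nx i)).2.1 - (p i).2.1) := by ring
      _ = (p j).2.1 * det p i j + (par p j i * det p i j) * ((p (nx j)).2.1 - (p j).2.1) := by
          rw [h2, h3, hd]
          ring
      _ = ((p j).2.1 + par p j i * ((p (nx j)).2.1 - (p j).2.1)) * det p i j := by ring

/-! ### the three parts -/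

section parts

variable {κ : Measure (Pt × Bool)} {c₀ H : ℝ} (hκ : Law κ c₀ H)
include hκ

theorem same_x {i j : Fin n} (hij : i ≠ j) :
    (Measure.pi fun _ : Fin n => κ) {ω | (pg ω j).1 = (pg ω i).1} = 0 := by
  have := hκ.prob
  refine null_of_sections (measurableSet_eq_fun (meas_x j) (meas_x i)) j fun ω => ?_
  have h := hκ.wall 1 0 (pg ω i).1 (by simp)
  refine measure_mono_null ?_ h
  intro y hy
  simp only [Set.mem_ofPred_eq] at hy ⊢
  rw [pg_update_same, pg_update_ne _ _ hij] at hy
  rw [hy]
  ring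

theorem col {i j k : Fin n} (hij : i ≠ j) (hjk : j ≠ k) (hik : i ≠ k) :
    (Measure.pi fun _ : Fin n => κ) {ω |
      ((pg ω j).1 - (pg ω i).1) * ((pg ω k).2.1 - (pg ω i).2.1) -
      ((pg ω j).2.1 - (pg ω i).2.1) * ((pg ω k).1 - (pg ω i).1) = 0} = 0 := by
  have := hκ.prob
  have hm : Measurable fun ω : Fin n → Pt × Bool =>
      ((pg ω j).1 - (pg ω i).1) * ((pg ω k).2.1 - (pg ω i).2.1) -
      ((pg ω j).2.1 - (pg ω i).2.1) * ((pg ω k).1 - (pg ω i).1) := by fun_prop
  have h1 : (Measure.pi fun _ : Fin n => κ) ({ω |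
      ((pg ω j).1 - (pg ω i).1) * ((pg ω k).2.1 - (pg ω i).2.1) -
      ((pg ω j).2.1 - (pg ω i).2.1) * ((pg ω k).1 - (pg ω i).1) = 0} \
      {ω | (pg ω j).1 = (pg ω i).1}) = 0 := by
    refine null_of_sections ((hm (measurableSet_singleton 0)).diff
      (measurableSet_eq_fun (meas_x j) (meas_x i))) k fun ω => ?_
    by_cases hx : (pg ω j).1 = (pg ω i).1
    · have : {y | Function.update ω k y ∈ ({ω |
          ((pg ω j).1 - (pg ω i).1) * ((pg ω k).2.1 - (pg ω i).2.1) -
          ((pg ω j).2.1 - (pg ω i).2.1) * ((pg ω k).1 - (pg ω i).1) = 0} \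
          {ω | (pg ω j).1 = (pg ω i).1})} = ∅ := by
        rw [Set.eq_empty_iff_forall_notMem]
        intro y hy
        apply hy.2
        show (pg (Function.update ω k y) j).1 = (pg (Function.update ω k y) i).1
        rw [pg_update_ne _ _ hjk, pg_update_ne _ _ hik]
        exact hx
      rw [this, measure_empty]
    · have h := hκ.wall (-((pg ω j).2.1 - (pg ω i).2.1)) ((pg ω j).1 - (pg ω i).1)
        (((pg ω j).1 - (pg ω i).1) * (pg ω i).2.1 - ((pg ω j).2.1 - (pg ω i).2.1) * (pg ω i).1)
        (by
          intro h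
          have := congrArg Prod.snd h
          exact hx (sub_eq_zero.1 this))
      refine measure_mono_null ?_ h
      intro y hy
      have hy1 := hy.1
      simp only [Set.mem_ofPred_eq] at hy1 ⊢
      rw [pg_update_ne _ _ hjk, pg_update_ne _ _ hik, pg_update_same] at hy1
      linarith
  have h2 := same_x hκ hij
  refine measure_mono_null ?_ (measure_union_null h1 h2)
  intro ω hω
  by_cases h : ω ∈ {ω : Fin n → Pt × Bool | (pg ω j).1 = (pg ω i).1}
  · exact Or.inr h
  · exact Or.inl ⟨hω, h⟩

theorem gap0 (hn : 3 ≤ n) (i j : Fin n) :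
    (Measure.pi fun _ : Fin n => κ) {ω | Cr (pg ω) i j ∧ gap (pg ω) i j = 0} = 0 := by
  have := hκ.prob
  by_cases hcase : i ≠ j ∧ i ≠ nx j
  swap
  · have : {ω : Fin n → Pt × Bool | Cr (pg ω) i j ∧ gap (pg ω) i j = 0} = ∅ := by
      rw [Set.eq_empty_iff_forall_notMem]
      rintro ω ⟨h, _⟩
      exact hcase ⟨Cr.ne h, Cr.ne_nx h⟩
    rw [this, measure_empty]
  obtain ⟨hij, hinj⟩ := hcase
  have hnx := nx_ne hn i
  refine null_of_sections ((meas_Cr i j).inter ((meas_gap i j) (measurableSet_singleton 0))) i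
    fun ω => ?_
  -- the polygon with the vertex `i` replaced
  let P : ℝ × ℝ → (Fin n → Pt × Bool) := fun q => Function.update ω i ((q.1, q.2, 0), true)
  have hP : Measurable P := by
    refine (measurable_update ω).comp ?_
    fun_prop
  let τ : ℝ × ℝ → ℝ := fun q =>
    ((1 - par (pg (P q)) j i) * (pg ω j).2.2 + par (pg (P q)) j i * (pg ω (nx j)).2.2 -
      par (pg (P q)) i j * (pg ω (nx i)).2.2) / (1 - par (pg (P q)) i j)
  have hτ : Measurable τ := by
    have h1 := (meas_par i j).comp hP
    have h2 := (meas_par j i).comp hP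
    exact ((((measurable_const.sub h2).mul measurable_const).add (h2.mul measurable_const)).sub
      (h1.mul measurable_const)).div (measurable_const.sub h1)
  have h := hκ.slab τ hτ 0 le_rfl
  rw [mul_zero, ENNReal.ofReal_zero] at h
  refine measure_mono_null ?_ (le_antisymm h zero_le)
  intro y hy
  obtain ⟨hC, hg⟩ := hy
  simp only [Set.mem_ofPred_eq] at hC ⊢
  have hg' : gap (pg (Function.update ω i y)) i j = 0 := hg
  -- `par` does not depend on heights
  have hpar : ∀ a b : Fin n, par (pg (Function.update ω i y)) a b =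
      par (pg (P (y.1.1, y.1.2.1))) a b := by
    have hc : ∀ v : Fin n, (pg (Function.update ω i y) v).1 = (pg (P (y.1.1, y.1.2.1)) v).1 ∧
        (pg (Function.update ω i y) v).2.1 = (pg (P (y.1.1, y.1.2.1)) v).2.1 := by
      intro v
      by_cases hv : v = i
      · subst hv
        simp [P, pg]
      · simp [P, pg, Function.update_of_ne hv]
    intro a b
    unfold par det
    simp only [(hc _).1, (hc _).2]
  have h1 := hC.2.1.2
  rw [hpar] at h1
  unfold gap hgt at hg'
  rw [hpar, hpar, pg_update_same, pg_update_ne _ _ hnx, pg_update_ne _ _ hij.symm,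
    pg_update_ne _ _ hinj.symm] at hg'
  have h2 : y.1.2.2 - τ (y.1.1, y.1.2.1) = 0 := by
    have h3 : 1 - par (pg (P (y.1.1, y.1.2.1))) i j ≠ 0 := by linarith
    simp only [τ]
    rw [sub_eq_zero, eq_div_iff h3]
    linarith
  rw [h2, abs_zero]

theorem trip0 (hn : 3 ≤ n) (i j k : Fin n) (hjk : j ≠ k) (hkj : nx k ≠ j) :
    (Measure.pi fun _ : Fin n => κ)
      {ω | Cr (pg ω) i j ∧ Cr (pg ω) i k ∧ par (pg ω) i j = par (pg ω) i k} = 0 := by
  have := hκ.prob
  by_cases hcase : i ≠ nx k ∧ i ≠ k
  swap
  · have : {ω : Fin n → Pt × Bool |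
        Cr (pg ω) i j ∧ Cr (pg ω) i k ∧ par (pg ω) i j = par (pg ω) i k} = ∅ := by
      rw [Set.eq_empty_iff_forall_notMem]
      rintro ω ⟨_, h, _⟩
      exact hcase ⟨Cr.ne_nx h, Cr.ne h⟩
    rw [this, measure_empty]
  obtain ⟨hink, hik⟩ := hcase
  have hv1 : nx i ≠ nx k := fun h => hik (nx_inj h)
  have hv2 : nx j ≠ nx k := fun h => hjk (nx_inj h)
  have hv3 : k ≠ nx k := (nx_ne hn k).symm
  refine null_of_sections ((meas_Cr i j).inter ((meas_Cr i k).inter
    (measurableSet_eq_fun (meas_par i j) (meas_par i k)))) (nx k) fun ω => ?_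
  set s := par (pg ω) i j with hs
  set X := (pg ω i).1 + s * ((pg ω (nx i)).1 - (pg ω i).1) with hX
  set Y := (pg ω i).2.1 + s * ((pg ω (nx i)).2.1 - (pg ω i).2.1) with hY
  -- the parameter on `i` of the crossing with `j` does not depend on the vertex `nx k`
  have hpar : ∀ y, par (pg (Function.update ω (nx k) y)) i j = s := by
    intro y
    rw [hs]
    unfold par det
    rw [pg_update_ne _ _ hink, pg_update_ne _ _ hv1, pg_update_ne _ _ hkj.symm,
      pg_update_ne _ _ hv2]
  have key : ∀ y, Cr (pg (Function.update ω (nx k) y)) i k →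
      par (pg (Function.update ω (nx k) y)) i j = par (pg (Function.update ω (nx k) y)) i k →
      ∃ r : ℝ, 0 < r ∧ X = (pg ω k).1 + r * (y.1.1 - (pg ω k).1) ∧
        Y = (pg ω k).2.1 + r * (y.1.2.1 - (pg ω k).2.1) := by
    intro y hC he
    have hm := meet hC.1
    rw [← he, hpar, pg_update_ne _ _ hink, pg_update_ne _ _ hv1, pg_update_ne _ _ hv3,
      pg_update_same] at hm
    exact ⟨_, hC.2.2.1, hm.1, hm.2⟩
  by_cases hP : X = (pg ω k).1 ∧ Y = (pg ω k).2.1
  · have : {y | Function.update ω (nx k) y ∈ {ω : Fin n → Pt × Bool |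
        Cr (pg ω) i j ∧ Cr (pg ω) i k ∧ par (pg ω) i j = par (pg ω) i k}} = ∅ := by
      rw [Set.eq_empty_iff_forall_notMem]
      rintro y ⟨_, hC, he⟩
      obtain ⟨r, hr, h1, h2⟩ := key y hC he
      have e1 : y.1.1 - (pg ω k).1 = 0 := by
        have : r * (y.1.1 - (pg ω k).1) = 0 := by linarith [hP.1]
        exact (mul_eq_zero.1 this).resolve_left hr.ne'
      have e2 : y.1.2.1 - (pg ω k).2.1 = 0 := by
        have : r * (y.1.2.1 - (pg ω k).2.1) = 0 := by linarith [hP.2]
        exact (mul_eq_zero.1 this).resolve_left hr.ne'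
      apply hC.1
      unfold det
      rw [pg_update_same, pg_update_ne _ _ hv3, e1, e2]
      ring
    have h0 : κ {y | Function.update ω (nx k) y ∈ {ω : Fin n → Pt × Bool |
        Cr (pg ω) i j ∧ Cr (pg ω) i k ∧ par (pg ω) i j = par (pg ω) i k}} = 0 := by
      rw [this, measure_empty]
    exact h0
  · have h := hκ.wall (Y - (pg ω k).2.1) (-(X - (pg ω k).1))
      ((Y - (pg ω k).2.1) * (pg ω k).1 - (X - (pg ω k).1) * (pg ω k).2.1) (by
        intro h
        have h1 := congrArg Prod.fst h
        have h2 := congrArg Prod.snd h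
        simp only at h1 h2
        exact hP ⟨by linarith, by linarith⟩)
    refine measure_mono_null ?_ h
    rintro y ⟨_, hC, he⟩
    obtain ⟨r, hr, h1, h2⟩ := key y hC he
    simp only [Set.mem_ofPred_eq]
    have e1 : X - (pg ω k).1 = r * (y.1.1 - (pg ω k).1) := by linarith
    have e2 : Y - (pg ω k).2.1 = r * (y.1.2.1 - (pg ω k).2.1) := by linarith
    rw [e1, e2]
    ring

end parts

end GenAe

open GenAe in
theorem gen_ae {κ : Measure (Pt × Bool)} {c₀ H : ℝ} (hκ : Law κ c₀ H) {n : ℕ} (hn : 3 ≤ n) :
    ∀ᵐ ω ∂(Measure.pi fun _ : Fin n => κ), Gen (fun i => (ω i).1) := by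
  have h1 : ∀ᵐ ω ∂(Measure.pi fun _ : Fin n => κ), ∀ i j k : Fin n, i ≠ j → j ≠ k → i ≠ k →
      ((pg ω j).1 - (pg ω i).1) * ((pg ω k).2.1 - (pg ω i).2.1) -
      ((pg ω j).2.1 - (pg ω i).2.1) * ((pg ω k).1 - (pg ω i).1) ≠ 0 := by
    rw [ae_all_iff]
    intro i
    rw [ae_all_iff]
    intro j
    rw [ae_all_iff]
    intro k
    by_cases h : i ≠ j ∧ j ≠ k ∧ i ≠ k
    · have := col hκ h.1 h.2.1 h.2.2
      filter_upwards [measure_eq_zero_iff_ae_notMem.1 this] with ω hω _ _ _
      exact hω
    · exact Filter.Eventually.of_forall fun ω h1 h2 h3 => absurd ⟨h1, h2, h3⟩ h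
  have h2 : ∀ᵐ ω ∂(Measure.pi fun _ : Fin n => κ), ∀ i j : Fin n,
      Cr (pg ω) i j → gap (pg ω) i j ≠ 0 := by
    rw [ae_all_iff]
    intro i
    rw [ae_all_iff]
    intro j
    filter_upwards [measure_eq_zero_iff_ae_notMem.1 (gap0 hκ hn i j)] with ω hω hC hg
    exact hω ⟨hC, hg⟩
  have h3 : ∀ᵐ ω ∂(Measure.pi fun _ : Fin n => κ), ∀ i j k : Fin n,
      Cr (pg ω) i j → Cr (pg ω) i k → j ≠ k → par (pg ω) i j ≠ par (pg ω) i k := by
    rw [ae_all_iff]
    intro i
    rw [ae_all_iff]
    intro j
    rw [ae_all_iff]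
    intro k
    by_cases hjk : j = k
    · exact Filter.Eventually.of_forall fun ω _ _ h => absurd hjk h
    · by_cases hkj : nx k = j
      · have hjk' : nx j ≠ k := by
          intro h
          rw [← hkj] at h
          exact nx_nx_ne hn k h
        filter_upwards [measure_eq_zero_iff_ae_notMem.1
          (trip0 hκ hn i k j (Ne.symm hjk) hjk')] with ω hω hC hC' _ he
        exact hω ⟨hC', hC, he.symm⟩
      · filter_upwards [measure_eq_zero_iff_ae_notMem.1
          (trip0 hκ hn i j k hjk hkj)] with ω hω hC hC' _ he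
        exact hω ⟨hC, hC', he⟩
  filter_upwards [h1, h2, h3] with ω a1 a2 a3
  exact ⟨a1, a3, a2⟩

end Pool.Agent.H756.RP
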