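import Pool.Agent.H756.RP.Geo

set_option autoImplicit false

/-!
Measurability, and the translation of heights modulo 1 preserves the law.

`tr_pres`: measurability of `tr δ` is clear (piecewise).  For a measurable `E`: the part of `κ` on the unmarked
points is not changed, and `κ {y | y.2 = true ∧ tr δ y ∈ E} = c₀ * volume {p ∈ cube | tr δ (p, true) ∈ E}` by `unif`; the
map `z ↦ z + δ` (mod 1) of `[0, 1)` preserves Lebesgue measure (two translations), and Fubini.
`act_pres`: `MeasureTheory.measurePreserving_pi` with `tr δ` or the identity in every coordinate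
(`κ` is a probability measure by `hκ.prob`).
-/

namespace Pool.Agent.H756.RP

open MeasureTheory

variable {n : ℕ}

theorem measurable_det (i j : Fin n) : Measurable fun p : Fin n → Pt => det p i j := by
  unfold det
  fun_prop

theorem measurable_par (i j : Fin n) : Measurable fun p : Fin n → Pt => par p i j := by
  unfold par
  have := measurable_det (n := n) i j
  fun_prop

theorem measurable_gap (i j : Fin n) : Measurable fun p : Fin n → Pt => gap p i j := by
  unfold gap hgt
  have h1 := measurable_par (n := n) i j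
  have h2 := measurable_par (n := n) j i
  fun_prop

theorem measurableSet_cr (i j : Fin n) : MeasurableSet {p : Fin n → Pt | Cr p i j} := by
  have h0 := measurable_det (n := n) i j
  have h1 := measurable_par (n := n) i j
  have h2 := measurable_par (n := n) j i
  exact ((measurableSet_eq_fun h0 measurable_const).compl).inter
    (((measurableSet_lt measurable_const h1).inter (measurableSet_lt h1 measurable_const)).inter
      ((measurableSet_lt measurable_const h2).inter (measurableSet_lt h2 measurable_const)))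

theorem measurable_dat (n : ℕ) : Measurable (dat : (Fin n → Pt) → Dat n) := by
  unfold dat
  refine Measurable.prodMk ?_ (Measurable.prodMk ?_ ?_)
  · refine measurable_pi_lambda _ fun i => measurable_pi_lambda _ fun j => measurable_to_bool ?_
    have : (fun p : Fin n → Pt => @decide (Cr p i j) (Classical.propDecidable _)) ⁻¹' {true} =
        {p | Cr p i j} := by
      ext p; simp
    rw [this]
    exact measurableSet_cr i j
  · refine measurable_pi_lambda _ fun i => measurable_pi_lambda _ fun j =>
      measurable_pi_lambda _ fun k => measurable_to_bool ?_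
    have : (fun p : Fin n → Pt =>
        @decide (par p i j < par p i k) (Classical.propDecidable _)) ⁻¹' {true} =
        {p | par p i j < par p i k} := by
      ext p; simp
    rw [this]
    exact measurableSet_lt (measurable_par i j) (measurable_par i k)
  · refine measurable_pi_lambda _ fun i => measurable_pi_lambda _ fun j => measurable_to_bool ?_
    have : (fun p : Fin n → Pt =>
        @decide (0 < det p i j * gap p i j) (Classical.propDecidable _)) ⁻¹' {true} =
        {p | 0 < det p i j * gap p i j} := by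
      ext p; simp
    rw [this]
    exact measurableSet_lt measurable_const ((measurable_det i j).mul (measurable_gap i j))

/-- the marked points which are moved -/
def presM : Set (Pt × Bool) := {y | y.2 = true ∧ 0 ≤ y.1.2.2 ∧ y.1.2.2 < 1}

theorem measurableSet_presM : MeasurableSet presM := by
  have h1 : Measurable fun y : Pt × Bool => y.2 := by fun_prop
  have h2 : Measurable fun y : Pt × Bool => y.1.2.2 := by fun_prop
  exact (h1 (measurableSet_singleton true)).inter
    ((measurableSet_le measurable_const h2).inter (measurableSet_lt h2 measurable_const))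

/-- the rotation of the heights -/
noncomputable def presR (δ : ℝ) (p : Pt) : Pt :=
  open Classical in
  (p.1, p.2.1, if p.2.2 + δ < 1 then p.2.2 + δ else p.2.2 + δ - 1)

theorem measurable_presR (δ : ℝ) : Measurable (presR δ) := by
  unfold presR
  refine Measurable.prodMk (by fun_prop) (Measurable.prodMk (by fun_prop) ?_)
  refine Measurable.ite ?_ (by fun_prop) (by fun_prop)
  exact measurableSet_lt (by fun_prop) measurable_const

theorem pres_tr_of_mem {δ : ℝ} {y : Pt × Bool} (h : y ∈ presM) : tr δ y = (presR δ y.1, true) := by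
  have h' : y.2 = true ∧ 0 ≤ y.1.2.2 ∧ y.1.2.2 < 1 := h
  rw [tr, if_pos h']
  rfl

theorem pres_tr_of_notMem {δ : ℝ} {y : Pt × Bool} (h : y ∉ presM) : tr δ y = y := by
  have h' : ¬ (y.2 = true ∧ 0 ≤ y.1.2.2 ∧ y.1.2.2 < 1) := h
  rw [tr, if_neg h']

theorem pres_measurable_tr (δ : ℝ) : Measurable (tr δ) := by
  classical
  have h : tr δ = presM.piecewise (fun y => (presR δ y.1, true)) (fun y => y) := by
    funext y
    by_cases hy : y ∈ presM
    · rw [Set.piecewise_eq_of_mem _ _ _ hy, pres_tr_of_mem hy]
    · rw [Set.piecewise_eq_of_notMem _ _ _ hy, pres_tr_of_notMem hy]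
  rw [h]
  refine Measurable.piecewise measurableSet_presM ?_ measurable_id
  exact Measurable.prodMk ((measurable_presR δ).comp measurable_fst) measurable_const

theorem pres_measurableSet_cube : MeasurableSet cube := by
  have h1 : Measurable fun y : Pt => y.1 := by fun_prop
  have h2 : Measurable fun y : Pt => y.2.1 := by fun_prop
  have h3 : Measurable fun y : Pt => y.2.2 := by fun_prop
  exact ((measurableSet_le measurable_const h1).inter (measurableSet_le h1 measurable_const)).inter
    (((measurableSet_le measurable_const h2).inter (measurableSet_le h2 measurable_const)).inter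
      ((measurableSet_le measurable_const h3).inter (measurableSet_lt h3 measurable_const)))

theorem vol_presR {δ : ℝ} (h0 : 0 ≤ δ) (h1 : δ ≤ 1) (F : Set Pt) (_ : MeasurableSet F) :
    volume ((presR δ ⁻¹' F) ∩ cube) = volume (F ∩ cube) := by
  have hz : MeasurableSet {p : Pt | p.2.2 < δ} :=
    measurableSet_lt (by fun_prop) measurable_const
  have hz1 : MeasurableSet {p : Pt | p.2.2 + δ < 1} :=
    measurableSet_lt (by fun_prop) measurable_const
  have e1 := measure_inter_add_sdiff (μ := (volume : Measure Pt)) (F ∩ cube) hz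
  have e2 := measure_inter_add_sdiff (μ := (volume : Measure Pt)) ((presR δ ⁻¹' F) ∩ cube) hz1
  have a1 : ((presR δ ⁻¹' F) ∩ cube) ∩ {p : Pt | p.2.2 + δ < 1} =
      (fun p : Pt => p + ((0 : ℝ), (0 : ℝ), δ)) ⁻¹' ((F ∩ cube) \ {p : Pt | p.2.2 < δ}) := by
    ext ⟨x, y, z⟩
    simp only [Set.mem_inter_iff, Set.mem_preimage, Set.mem_sdiff, Set.mem_ofPred_eq, presR, cube,
      Prod.mk_add_mk, add_zero, not_lt]
    constructor
    · rintro ⟨⟨hf, hx, hy, hz0, hz1⟩, hz2⟩
      rw [if_pos hz2] at hf
      exact ⟨⟨hf, hx, hy, by linarith, by linarith⟩, by linarith⟩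
    · rintro ⟨⟨hf, hx, hy, hz0, hz1⟩, hz2⟩
      refine ⟨⟨?_, hx, hy, by linarith, by linarith⟩, by linarith⟩
      rw [if_pos hz1]; exact hf
  have a2 : ((presR δ ⁻¹' F) ∩ cube) \ {p : Pt | p.2.2 + δ < 1} =
      (fun p : Pt => p + ((0 : ℝ), (0 : ℝ), δ - 1)) ⁻¹' ((F ∩ cube) ∩ {p : Pt | p.2.2 < δ}) := by
    ext ⟨x, y, z⟩
    simp only [Set.mem_inter_iff, Set.mem_preimage, Set.mem_sdiff, Set.mem_ofPred_eq, presR, cube,
      Prod.mk_add_mk, add_zero, not_lt]
    constructor
    · rintro ⟨⟨hf, hx, hy, hz0, hz1⟩, hz2⟩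
      rw [if_neg (not_lt.mpr hz2), add_sub_assoc] at hf
      exact ⟨⟨hf, hx, hy, by linarith, by linarith⟩, by linarith⟩
    · rintro ⟨⟨hf, hx, hy, hz0, hz1⟩, hz2⟩
      have hz3 : 1 ≤ z + δ := by linarith
      refine ⟨⟨?_, hx, hy, by linarith, by linarith⟩, hz3⟩
      rw [if_neg (not_lt.mpr hz3), add_sub_assoc]; exact hf
  have hinv : (volume : Measure Pt).IsAddRightInvariant := by
    have h2 : (volume : Measure (ℝ × ℝ)).IsAddRightInvariant :=
      (inferInstance : ((volume : Measure ℝ).prod (volume : Measure ℝ)).IsAddRightInvariant)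
    exact (inferInstance :
      ((volume : Measure ℝ).prod (volume : Measure (ℝ × ℝ))).IsAddRightInvariant)
  rw [a1, a2, measure_preimage_add_right, measure_preimage_add_right] at e2
  rw [← e1, ← e2, add_comm]

theorem tr_pres {κ : Measure (Pt × Bool)} {c₀ H : ℝ} (hκ : Law κ c₀ H) {δ : ℝ} (h0 : 0 ≤ δ)
    (h1 : δ ≤ 1) : MeasurePreserving (tr δ) κ κ := by
  refine ⟨pres_measurable_tr δ, ?_⟩
  ext E hE
  rw [Measure.map_apply (pres_measurable_tr δ) hE]
  have e1 := measure_inter_add_sdiff (μ := κ) (tr δ ⁻¹' E) measurableSet_presM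
  have e2 := measure_inter_add_sdiff (μ := κ) E measurableSet_presM
  have hmk : Measurable fun p : Pt => ((p, true) : Pt × Bool) := by fun_prop
  have hF : MeasurableSet {p : Pt | (p, true) ∈ E} := hmk hE
  have hzm : Measurable fun p : Pt => p.2.2 := by fun_prop
  have hstrip : MeasurableSet {p : Pt | 0 ≤ p.2.2 ∧ p.2.2 < 1} :=
    (measurableSet_le measurable_const hzm).inter (measurableSet_lt hzm measurable_const)
  have hcs : ∀ A : Set Pt, (A ∩ {p : Pt | 0 ≤ p.2.2 ∧ p.2.2 < 1}) ∩ cube = A ∩ cube := by
    intro A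
    ext p
    simp only [Set.mem_inter_iff, Set.mem_ofPred_eq, cube]
    tauto
  have a1 : tr δ ⁻¹' E \ presM = E \ presM := by
    ext y
    simp only [Set.mem_sdiff, Set.mem_preimage]
    constructor
    · rintro ⟨ha, hb⟩
      rw [pres_tr_of_notMem hb] at ha
      exact ⟨ha, hb⟩
    · rintro ⟨ha, hb⟩
      rw [pres_tr_of_notMem hb]
      exact ⟨ha, hb⟩
  have a2 : tr δ ⁻¹' E ∩ presM =
      {y : Pt × Bool | y.2 = true ∧ y.1 ∈ (presR δ ⁻¹' {p : Pt | (p, true) ∈ E}) ∩
        {p : Pt | 0 ≤ p.2.2 ∧ p.2.2 < 1}} := by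
    ext y
    constructor
    · rintro ⟨ha, hb⟩
      rw [Set.mem_preimage, pres_tr_of_mem hb] at ha
      exact ⟨hb.1, ha, hb.2⟩
    · rintro ⟨ha, hb, hc⟩
      have hm : y ∈ presM := ⟨ha, hc⟩
      refine ⟨?_, hm⟩
      rw [Set.mem_preimage, pres_tr_of_mem hm]
      exact hb
  have a3 : E ∩ presM =
      {y : Pt × Bool | y.2 = true ∧ y.1 ∈ {p : Pt | (p, true) ∈ E} ∩
        {p : Pt | 0 ≤ p.2.2 ∧ p.2.2 < 1}} := by
    ext ⟨p, b⟩
    constructor
    · rintro ⟨ha, hb, hc⟩
      have hb' : b = true := hb
      subst hb'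
      exact ⟨rfl, ha, hc⟩
    · rintro ⟨ha, hb, hc⟩
      have ha' : b = true := ha
      subst ha'
      exact ⟨hb, rfl, hc⟩
  rw [← e1, ← e2, a1, a2, a3, hκ.unif _ (((measurable_presR δ) hF).inter hstrip),
    hκ.unif _ (hF.inter hstrip), hcs, hcs, vol_presR h0 h1 _ hF]

theorem act_pres {κ : Measure (Pt × Bool)} {c₀ H : ℝ} (hκ : Law κ c₀ H) {δ : ℝ} (h0 : 0 ≤ δ)
    (h1 : δ ≤ 1) (I : Finset (Fin n)) (ε : Fin n → Bool) :
    MeasurePreserving (act I δ ε) (Measure.pi fun _ : Fin n => κ) (Measure.pi fun _ => κ) := by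
  classical
  have := hκ.prob
  have hf : ∀ i : Fin n, MeasurePreserving
      (if i ∈ I ∧ ε i = true then tr δ else id : Pt × Bool → Pt × Bool) κ κ := by
    intro i
    split_ifs
    · exact tr_pres hκ h0 h1
    · exact MeasurePreserving.id κ
  have := measurePreserving_pi (fun _ : Fin n => κ) (fun _ : Fin n => κ) hf
  convert this using 1
  funext ω i
  unfold act
  split_ifs <;> rfl

end Pool.Agent.H756.RP
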