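import Pool.Agent.H756.RP.Asm3
import Pool.Agent.H756.RP.Gap
import Pool.Agent.H756.RP.Pres
import Pool.Agent.H756.RP.GenAe

set_option autoImplicit false

/-!
The probability that there are few good vertices.
-/

namespace Pool.Agent.H756.RP

open MeasureTheory Finset
open scoped ENNReal
open Pool.Agent.H832R3.VJ (moment)

variable {n : ℕ}

theorem ssec : SSec := fun _ _ hκ _ _ hA hB v b hBv hs => by
  have := hκ
  exact sec_le hA hB v b hBv hs

theorem savsec : SAvSec := fun _ _ _ _ hκ i k h1 h2 h3 h4 h5 h6 _ hδ =>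
  ⟨measurableSet_Av i k _, fun v hv ω => Av_sec hκ h1 h2 h3 h4 h5 h6 hδ v hv ω⟩

theorem Av_update {i k v : Fin n} {δ : ℝ} (h1 : v ≠ i) (h2 : v ≠ nx i) (h3 : v ≠ k)
    (h4 : v ≠ nx k) (ω : Fin n → Pt × Bool) (y : Pt × Bool) :
    Function.update ω v y ∈ Av i k δ ↔ ω ∈ Av i k δ := by
  have e1 : Function.update ω v y i = ω i := Function.update_of_ne h1.symm _ _
  have e2 : Function.update ω v y (nx i) = ω (nx i) := Function.update_of_ne h2.symm _ _
  have e3 : Function.update ω v y k = ω k := Function.update_of_ne h3.symm _ _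
  have e4 : Function.update ω v y (nx k) = ω (nx k) := Function.update_of_ne h4.symm _ _
  have e5 : gap (pts (Function.update ω v y)) i k = gap (pts ω) i k := by
    unfold gap hgt par det pts
    rw [e1, e2, e3, e4]
  have e6 : par (pts (Function.update ω v y)) i k = par (pts ω) i k := by
    unfold par det pts
    rw [e1, e2, e3, e4]
  show ((_ ∧ _ ∧ _ ∧ _) ∧ _ ∧ _) ↔ ((_ ∧ _ ∧ _ ∧ _) ∧ _ ∧ _)
  rw [e1, e2, e3, e4, e5, e6]

/-- the vertices of two different pairs -/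
theorem prs_ne {m a : ℕ} (hn : 8 * m + 1 ≤ n) (ha : a ≤ 1) {i k i' k' : Fin n}
    (hi : i ∈ blk n m a) (hk : k ∈ blk n m (a + 2)) (hi' : i' ∈ blk n m a)
    (hk' : k' ∈ blk n m (a + 2)) :
    (i' ≠ i → (i' ≠ nx i ∧ i' ≠ k ∧ i' ≠ nx k) ∧ nx i' ≠ i ∧ nx i' ≠ nx i ∧ nx i' ≠ k ∧
      nx i' ≠ nx k) ∧
    (k' ≠ k → (k' ≠ i ∧ k' ≠ nx i ∧ k' ≠ nx k) ∧ nx k' ≠ i ∧ nx k' ≠ nx i ∧ nx k' ≠ k ∧
      nx k' ≠ nx k) := by
  obtain ⟨a1, a2, a3⟩ := blk_far hn ha hi hk
  obtain ⟨b1, b2, b3⟩ := blk_far hn ha hi' hk'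
  obtain ⟨c1, c2, c3⟩ := blk_far hn ha hi' hk
  obtain ⟨d1, d2, d3⟩ := blk_far hn ha hi hk'
  have e1 := nx_val i
  have e2 := nx_val k
  have e3 := nx_val i'
  have e4 := nx_val k'
  rw [if_neg (by omega)] at e1 e2 e3 e4
  rw [mem_blk] at hi hk hi' hk'
  constructor
  · intro h
    have h' : (i' : ℕ) ≠ i := fun hh => h (Fin.ext hh)
    refine ⟨⟨?_, ?_, ?_⟩, ?_, ?_, ?_, ?_⟩ <;> intro hh <;> have h'' := congrArg Fin.val hh <;>
      omega
  · intro h
    have h' : (k' : ℕ) ≠ k := fun hh => h (Fin.ext hh)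
    refine ⟨⟨?_, ?_, ?_⟩, ?_, ?_, ?_, ?_⟩ <;> intro hh <;> have h'' := congrArg Fin.val hh <;>
      omega

section

variable {κ : Measure (Pt × Bool)} {c₀ H : ℝ}

theorem pi_prob (hκ : Law κ c₀ H) : IsProbabilityMeasure (Measure.pi fun _ : Fin n => κ) := by
  have := hκ.prob
  infer_instance

theorem real_Av (hκ : Law κ c₀ H) {m a : ℕ} (hn : 8 * m + 1 ≤ n) (ha : a ≤ 1) {i k : Fin n}
    (hi : i ∈ blk n m a) (hk : k ∈ blk n m (a + 2)) {δ : ℝ} (hδ : 0 < δ) (hδ1 : δ ≤ 1 / 10) :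
    (Measure.pi fun _ : Fin n => κ).real (Av i k δ) = c₀ ^ 4 * δ / 10 ^ 11 := by
  have := pi_prob (n := n) hκ
  obtain ⟨g1, g2, g3, g4, g5, g6⟩ := blk_ne hn ha hi hk
  have h := Av_prob hκ g1 g2 g3 g4 g5 g6 hδ hδ1 Set.univ MeasurableSet.univ
    (fun v _ ω y => ⟨fun _ => trivial, fun _ => trivial⟩)
  rw [Set.inter_univ, measure_univ, mul_one] at h
  unfold Measure.real
  rw [h, ENNReal.toReal_ofReal]
  have := hκ.c_pos
  positivity

theorem real_Av_inter (hκ : Law κ c₀ H) {m a : ℕ} (hn : 8 * m + 1 ≤ n) (ha : a ≤ 1)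
    {z z' : Fin n × Fin n} (hz : z ∈ prs n m a) (hz' : z' ∈ prs n m a) {δ : ℝ} (hδ : 0 < δ)
    (hδ1 : δ ≤ 1 / 10) :
    (Measure.pi fun _ : Fin n => κ).real (Av z.1 z.2 δ ∩ Av z'.1 z'.2 δ) ≤
      (c₀ ^ 4 * δ / 10 ^ 11) ^ 2 + (if z' = z then c₀ ^ 4 * δ / 10 ^ 11 else 0) +
      (if z'.1 = z.1 then c₀ * δ * (3 / 100) * (c₀ ^ 4 * δ / 10 ^ 11) else 0) +
      (if z'.2 = z.2 then c₀ * δ * (3 / 100) * (c₀ ^ 4 * δ / 10 ^ 11) else 0) := by
  have hprob := hκ.prob
  have := pi_prob (n := n) hκ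
  have hc := hκ.c_pos
  unfold prs at hz hz'
  rw [mem_product] at hz hz'
  obtain ⟨g1, g2, g3, g4, g5, g6⟩ := blk_ne hn ha hz.1 hz.2
  obtain ⟨g1', g2', g3', g4', g5', g6'⟩ := blk_ne hn ha hz'.1 hz'.2
  obtain ⟨n1, n2⟩ := prs_ne hn ha hz.1 hz.2 hz'.1 hz'.2
  set q := c₀ ^ 4 * δ / 10 ^ 11 with hq
  set s := c₀ * δ * (3 / 100) with hs
  have hq0 : 0 ≤ q := by positivity
  have hs0 : 0 ≤ s := by positivity
  have r1 : (Measure.pi fun _ : Fin n => κ).real (Av z.1 z.2 δ) = q :=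
    real_Av hκ hn ha hz.1 hz.2 hδ hδ1
  have r2 : (Measure.pi fun _ : Fin n => κ).real (Av z'.1 z'.2 δ) = q :=
    real_Av hκ hn ha hz'.1 hz'.2 hδ hδ1
  by_cases h1 : z'.1 = z.1
  · by_cases h2 : z'.2 = z.2
    · have h3 : z' = z := Prod.ext h1 h2
      rw [h3, Set.inter_self, if_pos rfl, if_pos rfl, if_pos rfl, r1]
      nlinarith [mul_nonneg hs0 hq0, sq_nonneg q]
    · rw [if_neg (fun h => h2 (Prod.ext_iff.1 h).2), if_pos h1, if_neg h2]
      obtain ⟨⟨m1, m2, m3⟩, _⟩ := n2 h2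
      have h3 := sec_le (κ := κ) (measurableSet_Av z'.1 z'.2 δ) (measurableSet_Av z.1 z.2 δ) z'.2
        (ENNReal.ofReal s) (fun ω y => Av_update m1 m2 h2 m3 ω y)
        (fun ω => Av_sec hκ g1' g2' g3' g4' g5' g6' hδ z'.2 (Or.inr (Or.inr (Or.inl rfl))) ω)
      have h4 : (Measure.pi fun _ : Fin n => κ).real (Av z.1 z.2 δ ∩ Av z'.1 z'.2 δ) ≤ s * q := by
        rw [Set.inter_comm]
        have h5 := ENNReal.toReal_mono (ENNReal.mul_ne_top ENNReal.ofReal_ne_top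
          (measure_ne_top _ _)) h3
        rw [ENNReal.toReal_mul, ENNReal.toReal_ofReal hs0] at h5
        unfold Measure.real at r1 ⊢
        rw [r1] at h5
        exact h5
      nlinarith [sq_nonneg q]
  · by_cases h2 : z'.2 = z.2
    · rw [if_neg (fun h => h1 (Prod.ext_iff.1 h).1), if_neg h1, if_pos h2]
      obtain ⟨⟨m1, m2, m3⟩, _⟩ := n1 h1
      have h3 := sec_le (κ := κ) (measurableSet_Av z'.1 z'.2 δ) (measurableSet_Av z.1 z.2 δ) z'.1
        (ENNReal.ofReal s) (fun ω y => Av_update h1 m1 m2 m3 ω y)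
        (fun ω => Av_sec hκ g1' g2' g3' g4' g5' g6' hδ z'.1 (Or.inl rfl) ω)
      have h4 : (Measure.pi fun _ : Fin n => κ).real (Av z.1 z.2 δ ∩ Av z'.1 z'.2 δ) ≤ s * q := by
        rw [Set.inter_comm]
        have h5 := ENNReal.toReal_mono (ENNReal.mul_ne_top ENNReal.ofReal_ne_top
          (measure_ne_top _ _)) h3
        rw [ENNReal.toReal_mul, ENNReal.toReal_ofReal hs0] at h5
        unfold Measure.real at r1 ⊢
        rw [r1] at h5
        exact h5
      nlinarith [sq_nonneg q]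
    · rw [if_neg (fun h => h1 (Prod.ext_iff.1 h).1), if_neg h1, if_neg h2]
      obtain ⟨⟨m1, m2, m3⟩, m4, m5, m6, m7⟩ := n1 h1
      obtain ⟨⟨l1, l2, l3⟩, l4, l5, l6, l7⟩ := n2 h2
      have h3 := Av_prob hκ g1 g2 g3 g4 g5 g6 hδ hδ1 (Av z'.1 z'.2 δ)
        (measurableSet_Av z'.1 z'.2 δ) (by
          intro v hv ω y
          rcases hv with rfl | rfl | rfl | rfl
          · exact Av_update (Ne.symm h1) (Ne.symm m4) (Ne.symm l1) (Ne.symm l4) ω y
          · exact Av_update (Ne.symm m1) (Ne.symm m5) (Ne.symm l2) (Ne.symm l5) ω y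
          · exact Av_update (Ne.symm m2) (Ne.symm m6) (Ne.symm h2) (Ne.symm l6) ω y
          · exact Av_update (Ne.symm m3) (Ne.symm m7) (Ne.symm l3) (Ne.symm l7) ω y)
      have h4 : (Measure.pi fun _ : Fin n => κ).real (Av z.1 z.2 δ ∩ Av z'.1 z'.2 δ) = q ^ 2 := by
        unfold Measure.real at r2 ⊢
        rw [h3, ENNReal.toReal_mul, r2, ENNReal.toReal_ofReal hq0, sq]
      rw [h4]
      linarith

/-- few pairs -/
theorem few_pairs (hκ : Law κ c₀ H) {m a : ℕ} (hn : 8 * m + 1 ≤ n) (hm : 1 ≤ m) (ha : a ≤ 1)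
    {δ : ℝ} (hδ : 0 < δ) (hδ1 : δ ≤ 1 / 10) :
    (Measure.pi fun _ : Fin n => κ).real {ω | cnt (prs n m a) (fun z => Av z.1 z.2 δ) ω ≤
        (m * m * (c₀ ^ 4 * δ / 10 ^ 11)) / 2} ≤
      4 * (m * m * (c₀ ^ 4 * δ / 10 ^ 11) +
        2 * m ^ 3 * (c₀ * δ * (3 / 100) * (c₀ ^ 4 * δ / 10 ^ 11))) /
        (m * m * (c₀ ^ 4 * δ / 10 ^ 11)) ^ 2 := by
  have := pi_prob (n := n) hκ
  have hc := hκ.c_pos
  have hm' : (0 : ℝ) < m := by exact_mod_cast hm
  set q := c₀ ^ 4 * δ / 10 ^ 11 with hq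
  set s := c₀ * δ * (3 / 100) with hs
  have hq0 : 0 < q := by positivity
  have hs0 : 0 < s := by positivity
  have hcard : ((prs n m a).card : ℝ) = m * m := by
    rw [card_prs hn ha]
    push_cast
    ring
  have h := cheb (Measure.pi fun _ : Fin n => κ) (prs n m a) (fun z => Av z.1 z.2 δ)
    (fun z _ => measurableSet_Av z.1 z.2 δ) q (m * m * q + 2 * m ^ 3 * (s * q))
    (fun z hz => by
      unfold prs at hz
      rw [mem_product] at hz
      exact real_Av hκ hn ha hz.1 hz.2 hδ hδ1) (by rw [hcard]; positivity) (by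
      rw [hcard]
      have hrow : ∀ z ∈ prs n m a, ∑ z' ∈ prs n m a,
          (Measure.pi fun _ : Fin n => κ).real (Av z.1 z.2 δ ∩ Av z'.1 z'.2 δ) ≤
            m * m * q ^ 2 + q + 2 * m * (s * q) := by
        intro z hz
        refine (sum_le_sum fun z' hz' => real_Av_inter hκ hn ha hz hz' hδ hδ1).trans ?_
        rw [sum_add_distrib, sum_add_distrib, sum_add_distrib, sum_const, nsmul_eq_mul, hcard,
          sum_ite_eq' (prs n m a) z, if_pos hz]
        unfold prs at hz ⊢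
        rw [mem_product] at hz
        rw [sum_product, sum_product]
        have hb1 : ((blk n m a).card : ℝ) = m := by
          rw [card_blk]
          interval_cases a <;> omega
        have hb2 : ((blk n m (a + 2)).card : ℝ) = m := by
          rw [card_blk]
          interval_cases a <;> omega
        have e1 : ∑ x ∈ blk n m a, ∑ _y ∈ blk n m (a + 2), (if x = z.1 then s * q else 0) =
            m * (s * q) := by
          simp only [sum_const, nsmul_eq_mul, hb2]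
          rw [← mul_sum, sum_ite_eq' _ z.1, if_pos hz.1]
        have e2 : ∑ _x ∈ blk n m a, ∑ y ∈ blk n m (a + 2), (if y = z.2 then s * q else 0) =
            m * (s * q) := by
          rw [sum_const, nsmul_eq_mul, hb1, sum_ite_eq' _ z.2, if_pos hz.2]
        simp only at e1 e2 ⊢
        rw [e1, e2, ← hq]
        linarith
      refine (sum_le_card_nsmul _ _ _ hrow).trans (le_of_eq ?_)
      rw [nsmul_eq_mul, hcard]
      ring)
  rw [hcard] at h
  exact h

/-- many further crossings -/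
theorem many_quads (hκ : Law κ c₀ H) {m a : ℕ} (hn : 8 * m + 1 ≤ n) (ha : a ≤ 1)
    {δ : ℝ} (hδ : 0 < δ) {t : ℝ} (ht : 0 < t) :
    (Measure.pi fun _ : Fin n => κ).real {ω | t ≤ cnt (qds n m a) (Bv δ) ω} ≤
      (m * m * (2 * n)) * (c₀ * δ * (3 / 100) * (4 * H * (2 * δ))) / t := by
  have := pi_prob (n := n) hκ
  have hc := hκ.c_pos
  have hH := hκ.H_pos
  have hmeas : ∀ y : (Fin n × Fin n) × Fin n × Fin n, MeasurableSet (Bv δ y) := by
    intro y
    refine (measurableSet_Av y.1.1 y.1.2 δ).inter ?_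
    have hpts : Measurable (pts : (Fin n → Pt × Bool) → Fin n → Pt) :=
      measurable_pi_lambda _ fun i => measurable_fst.comp (measurable_pi_apply i)
    exact (hpts (measurableSet_cr y.2.1 y.2.2)).inter
      (measurableSet_le (measurable_abs.comp ((measurable_gap y.2.1 y.2.2).comp hpts))
        measurable_const)
  have h := markov (Measure.pi fun _ : Fin n => κ) (qds n m a) (Bv δ) (fun y _ => hmeas y)
    (c₀ * δ * (3 / 100) * (4 * H * (2 * δ))) t ht (by
      intro y hy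
      unfold qds prs at hy
      rw [mem_filter, mem_product, mem_product] at hy
      obtain ⟨f1, f2, f3⟩ := blk_far hn ha hy.1.1.1 hy.1.1.2
      have h3 := Av_gap ssec savsec hκ f1 f2 f3 y.2.1 y.2.2 hy.2.1 hy.2.2 hδ
        (show (0 : ℝ) ≤ 2 * δ by positivity)
      unfold Measure.real
      refine (ENNReal.toReal_mono (ENNReal.mul_ne_top ENNReal.ofReal_ne_top
        ENNReal.ofReal_ne_top) h3).trans (le_of_eq ?_)
      rw [ENNReal.toReal_mul, ENNReal.toReal_ofReal (by positivity),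
        ENNReal.toReal_ofReal (by positivity)])
  refine h.trans ?_
  have hcard : ((qds n m a).card : ℝ) ≤ m * m * (2 * n) := by exact_mod_cast card_qds hn ha
  gcongr

end

end Pool.Agent.H756.RP
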