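import Pool.Agent.H756.RP.Asm4

set_option autoImplicit false

/-!
The bound for the probability of a value of the second moment.
-/

namespace Pool.Agent.H756.RP

open MeasureTheory Finset
open scoped ENNReal
open Pool.Agent.H832R3.VJ (moment)

variable {n : ℕ} {κ : Measure (Pt × Bool)} {c₀ H : ℝ}

theorem few_good (hκ : Law κ c₀ H) {m a : ℕ} (hn : 8 * m + 1 ≤ n) (hm : 1 ≤ m) (ha : a ≤ 1)
    {δ : ℝ} (hδ : 0 < δ) (hδ1 : δ ≤ 1 / 10) :
    (Measure.pi fun _ : Fin n => κ).real {ω | ((good n m a δ ω).card : ℝ) <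
        (m * m * (c₀ ^ 4 * δ / 10 ^ 11)) / 4} ≤
      4 / (m * m * (c₀ ^ 4 * δ / 10 ^ 11)) + 8 * (3 * 10 ^ 9 / c₀ ^ 3) / m +
        64 * n * (3 * 10 ^ 9 / c₀ ^ 3) * H * δ := by
  have := pi_prob (n := n) hκ
  have hc := hκ.c_pos
  have hm' : (0 : ℝ) < m := by exact_mod_cast hm
  have h1 := few_pairs hκ hn hm ha hδ hδ1
  have h2 := many_quads hκ hn ha hδ (t := (m * m * (c₀ ^ 4 * δ / 10 ^ 11)) / 4) (by positivity)
  have hsub : {ω | ((good n m a δ ω).card : ℝ) < (m * m * (c₀ ^ 4 * δ / 10 ^ 11)) / 4} ⊆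
      {ω | cnt (prs n m a) (fun z => Av z.1 z.2 δ) ω ≤ (m * m * (c₀ ^ 4 * δ / 10 ^ 11)) / 2} ∪
      {ω | (m * m * (c₀ ^ 4 * δ / 10 ^ 11)) / 4 ≤ cnt (qds n m a) (Bv δ) ω} := by
    intro ω hω
    rw [Set.mem_union]
    simp only [Set.mem_ofPred_eq] at hω ⊢
    by_contra hcon
    push Not at hcon
    have h3 := card_good (m := m) (a := a) hδ ω (fun i k h => (Av_box h).1)
    linarith [hcon.1, hcon.2]
  refine (measureReal_mono hsub).trans ((measureReal_union_le _ _).trans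
    ((add_le_add h1 h2).trans (le_of_eq ?_)))
  field_simp
  ring

theorem wrap (hκ : Law κ c₀ H) (m : ℕ) {δ : ℝ} (hδ : 0 < δ) :
    (Measure.pi fun _ : Fin n => κ) {ω | ¬ nowrap n m δ ω} ≤ ENNReal.ofReal (n * H * δ) := by
  have hprob := hκ.prob
  have hH := hκ.H_pos
  have h1 : {ω : Fin n → Pt × Bool | ¬ nowrap n m δ ω} ⊆
      ⋃ i : Fin n, (Function.eval i) ⁻¹' {y : Pt × Bool | |y.1.2.2 - 1| ≤ δ} := by
    intro ω hω
    simp only [Set.mem_ofPred_eq] at hω
    unfold nowrap at hω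
    push Not at hω
    obtain ⟨i, hi, h⟩ := hω
    unfold act0 at hi
    rw [mem_filter] at hi
    rw [Set.mem_iUnion]
    refine ⟨i, ?_⟩
    show |(ω i).1.2.2 - 1| ≤ δ
    rw [abs_le]
    constructor <;> linarith [hi.2.2.2]
  refine (measure_mono h1).trans ((measure_iUnion_fintype_le _ _).trans ?_)
  have hms : MeasurableSet {y : Pt × Bool | |y.1.2.2 - 1| ≤ δ} := by
    refine measurableSet_le ?_ measurable_const
    exact measurable_abs.comp ((measurable_snd.comp (measurable_snd.comp measurable_fst)).sub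
      measurable_const)
  have h2 : ∀ i : Fin n, (Measure.pi fun _ : Fin n => κ)
      ((Function.eval i) ⁻¹' {y : Pt × Bool | |y.1.2.2 - 1| ≤ δ}) ≤ ENNReal.ofReal (H * δ) := by
    intro i
    rw [(measurePreserving_eval (fun _ : Fin n => κ) i).measure_preimage hms.nullMeasurableSet]
    exact hκ.slab (fun _ => 1) measurable_const δ hδ.le
  refine (sum_le_sum fun i _ => h2 i).trans ?_
  rw [sum_const, card_univ, Fintype.card_fin, nsmul_eq_mul, mul_assoc,
    ENNReal.ofReal_mul (Nat.cast_nonneg n), ENNReal.ofReal_natCast]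

theorem bound (hκ : Law κ c₀ H) {m : ℕ} (hn : 8 * m + 1 ≤ n) (hm : 1 ≤ m)
    {δ : ℝ} (hδ : 0 < δ) (hδ1 : δ ≤ 1 / 10) (c : ℤ) :
    (Measure.pi fun _ : Fin n => κ) {ω | moment 2 (pol (dat (pts ω))) = c} ≤
      ENNReal.ofReal (n * H * δ +
        2 * (4 / (m * m * (c₀ ^ 4 * δ / 10 ^ 11)) + 8 * (3 * 10 ^ 9 / c₀ ^ 3) / m +
        64 * n * (3 * 10 ^ 9 / c₀ ^ 3) * H * δ) +
        (128 / (m * m * (c₀ ^ 4 * δ / 10 ^ 11))) ^ (1 / 4 : ℝ)) := by
  classical
  have := pi_prob (n := n) hκ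
  have hc := hκ.c_pos
  have hH := hκ.H_pos
  have hm' : (0 : ℝ) < m := by exact_mod_cast hm
  set P := Measure.pi fun _ : Fin n => κ with hP
  set a₀ : ℝ := m * m * (c₀ ^ 4 * δ / 10 ^ 11) with ha₀
  have ha0 : 0 < a₀ := by positivity
  set D : ℝ := 4 / a₀ + 8 * (3 * 10 ^ 9 / c₀ ^ 3) / m + 64 * n * (3 * 10 ^ 9 / c₀ ^ 3) * H * δ
    with hD
  have hD0 : 0 ≤ D := by positivity
  have hg : ∀ a ≤ 1, P {ω | ((good n m a δ ω).card : ℝ) < a₀ / 4} ≤ ENNReal.ofReal D := by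
    intro a ha
    have h1 := few_good hκ hn hm ha hδ hδ1
    rw [← ENNReal.ofReal_toReal (measure_ne_top P _)]
    exact ENNReal.ofReal_le_ofReal h1
  set Bad : Set (Fin n → Pt × Bool) := {ω | ¬ Gen (pts ω)} ∪ {ω | ¬ nowrap n m δ ω} ∪
    {ω | ((good n m 0 δ ω).card : ℝ) < a₀ / 4} ∪ {ω | ((good n m 1 δ ω).card : ℝ) < a₀ / 4}
    with hBad
  have hBadle : P Bad ≤ ENNReal.ofReal (n * H * δ + 2 * D) := by
    have h0 : P {ω | ¬ Gen (pts ω)} = 0 := gen_ae hκ (show 3 ≤ n by omega)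
    have h1 := wrap hκ (n := n) m hδ
    have h2 := hg 0 (by omega)
    have h3 := hg 1 le_rfl
    have h4 : ENNReal.ofReal (n * H * δ + 2 * D) =
        0 + ENNReal.ofReal (n * H * δ) + ENNReal.ofReal D + ENNReal.ofReal D := by
      rw [zero_add, ← ENNReal.ofReal_add (by positivity) hD0,
        ← ENNReal.ofReal_add (by positivity) hD0]
      congr 1
      ring
    rw [h4]
    refine (measure_union_le _ _).trans (add_le_add ?_ h3)
    refine (measure_union_le _ _).trans (add_le_add ?_ h2)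
    refine (measure_union_le _ _).trans (add_le_add h0.le h1)
  set M : ℕ := ⌈a₀ / 4⌉₊ with hM
  have hM0 : 0 < M := Nat.ceil_pos.2 (by positivity)
  have hMa : a₀ / 4 ≤ M := Nat.le_ceil _
  have hmeasE : MeasurableSet {ω : Fin n → Pt × Bool | moment 2 (pol (dat (pts ω))) = c} := by
    have hpts : Measurable (pts : (Fin n → Pt × Bool) → Fin n → Pt) :=
      measurable_pi_lambda _ fun i => measurable_fst.comp (measurable_pi_apply i)
    exact ((measurable_dat n).comp hpts) (t := {d : Dat n | moment 2 (pol d) = c})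
      (Set.toFinite _).measurableSet
  have h := avg P (fun ε : Fin n → Bool => act (blk n m 0 ∪ blk n m 1) δ ε)
    (fun ε => act_pres hκ hδ.le (by linarith) _ ε) _ hmeasE Bad
    ((32 / (M : ℝ)) ^ (1 / 4 : ℝ)) (by positivity) (by
      intro ω hω
      rw [hBad] at hω
      simp only [Set.mem_union, Set.mem_ofPred_eq, not_or, not_not, not_lt] at hω
      obtain ⟨⟨⟨g1, g2⟩, g3⟩, g4⟩ := hω
      exact choice_bound hn hδ ω g1 g2 hM0 (Nat.ceil_le.2 g3) (Nat.ceil_le.2 g4) c)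
  refine h.trans ?_
  rw [ENNReal.ofReal_add (by positivity) (by positivity)]
  refine add_le_add hBadle (ENNReal.ofReal_le_ofReal ?_)
  refine Real.rpow_le_rpow (by positivity) ?_ (by norm_num)
  rw [div_le_div_iff₀ (by exact_mod_cast hM0) ha0]
  linarith

theorem bound_n (hκ : Law κ c₀ H) :
    ∃ K : ℝ, 0 < K ∧ ∀ n : ℕ, 1 ≤ n → ∀ c : ℤ,
      (Measure.pi fun _ : Fin n => κ) {ω | moment 2 (pol (dat (pts ω))) = c} ≤
        ENNReal.ofReal (K * (n : ℝ) ^ (-(1 / 5) : ℝ)) := by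
  have hc := hκ.c_pos
  have hH := hκ.H_pos
  set A : ℝ := c₀ ^ 4 / (256 * 10 ^ 12) with hA
  have hA0 : 0 < A := by positivity
  set R : ℝ := 3 * 10 ^ 9 / c₀ ^ 3 with hR
  have hR0 : 0 < R := by positivity
  refine ⟨(H / 10 + 2 * (4 / A + 128 * R + 64 * R * H / 10) + (128 / A) ^ (1 / 4 : ℝ)) + 2,
    by positivity, ?_⟩
  intro n hn1 c
  have := pi_prob (n := n) hκ
  have hn0 : (0 : ℝ) < n := by exact_mod_cast hn1
  set u : ℝ := (n : ℝ) ^ (-(1 / 5) : ℝ) with hu
  have hu0 : 0 < u := Real.rpow_pos_of_pos hn0 _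
  have hu5 : u ^ 5 * n = 1 := by
    rw [hu, ← Real.rpow_natCast, ← Real.rpow_mul hn0.le]
    norm_num
    rw [Real.rpow_neg_one, inv_mul_cancel₀ hn0.ne']
  have hn1' : (1 : ℝ) ≤ n := by exact_mod_cast hn1
  have hu1 : u ≤ 1 := by
    rw [hu]
    exact Real.rpow_le_one_of_one_le_of_nonpos hn1' (by norm_num)
  rcases lt_or_ge n 16 with hlt | hge
  · refine (prob_le_one).trans ?_
    rw [← ENNReal.ofReal_one]
    refine ENNReal.ofReal_le_ofReal ?_
    have h1 : (1 : ℝ) ≤ 2 * u := by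
      by_contra hcon
      push Not at hcon
      have h2 : u ^ 5 ≤ (1 / 2) ^ 5 := pow_le_pow_left₀ hu0.le (by linarith) 5
      have h3 : (n : ℝ) < 16 := by exact_mod_cast hlt
      nlinarith
    have h2 : 0 ≤ (H / 10 + 2 * (4 / A + 128 * R + 64 * R * H / 10) +
        (128 / A) ^ (1 / 4 : ℝ)) := by positivity
    nlinarith [mul_nonneg h2 hu0.le]
  · have hm : 1 ≤ (n - 1) / 8 := by omega
    have hm8 : 8 * ((n - 1) / 8) + 1 ≤ n := by omega
    have hm16 : n ≤ 16 * ((n - 1) / 8) := by omega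
    set m := (n - 1) / 8 with hmdef
    have hm' : (0 : ℝ) < m := by exact_mod_cast hm
    have hmn : (n : ℝ) / 16 ≤ m := by
      have : (n : ℝ) ≤ 16 * m := by exact_mod_cast hm16
      linarith
    have hδ0 : 0 < u ^ 6 / 10 := by positivity
    have hδ1 : u ^ 6 / 10 ≤ 1 / 10 := by
      have := pow_le_one₀ (n := 6) hu0.le hu1
      linarith
    refine (bound hκ hm8 hm hδ0 hδ1 c).trans (ENNReal.ofReal_le_ofReal ?_)
    rw [← hR]
    have hu4 : u ^ 4 ≤ u := by
      calc u ^ 4 = u ^ 3 * u := by ring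
        _ ≤ 1 * u := by
          have := pow_le_one₀ (n := 3) hu0.le hu1
          gcongr
        _ = u := one_mul u
    have hu5' : u ^ 5 ≤ u := by
      calc u ^ 5 = u ^ 4 * u := by ring
        _ ≤ 1 * u := by
          have := pow_le_one₀ (n := 4) hu0.le hu1
          gcongr
        _ = u := one_mul u
    have ha : A / u ^ 4 ≤ m * m * (c₀ ^ 4 * (u ^ 6 / 10) / 10 ^ 11) := by
      have h1 : A / u ^ 4 = (n : ℝ) / 16 * (n / 16) * (c₀ ^ 4 * (u ^ 6 / 10) / 10 ^ 11) := by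
        rw [div_eq_iff (by positivity), hA]
        have h2 : (n : ℝ) / 16 * (n / 16) * (c₀ ^ 4 * (u ^ 6 / 10) / 10 ^ 11) * u ^ 4 =
            c₀ ^ 4 / (256 * 10 ^ 12) * (u ^ 5 * n) ^ 2 := by ring
        rw [h2, hu5]
        ring
      rw [h1]
      gcongr
    set a₀ := (m : ℝ) * m * (c₀ ^ 4 * (u ^ 6 / 10) / 10 ^ 11) with ha₀
    have ha0 : 0 < a₀ := by positivity
    have e1 : (n : ℝ) * H * (u ^ 6 / 10) = H / 10 * u := by
      calc (n : ℝ) * H * (u ^ 6 / 10) = H / 10 * u * (u ^ 5 * n) := by ring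
        _ = H / 10 * u := by rw [hu5, mul_one]
    have e2 : 4 / a₀ ≤ 4 / A * u := by
      calc 4 / a₀ ≤ 4 / (A / u ^ 4) := by gcongr
        _ = 4 / A * u ^ 4 := by field_simp
        _ ≤ 4 / A * u := by gcongr
    have e3 : 8 * R / m ≤ 128 * R * u := by
      calc 8 * R / m ≤ 8 * R / (n / 16) := by gcongr
        _ = 128 * R * (u ^ 5 * n) / n := by rw [hu5]; field_simp; ring
        _ = 128 * R * u ^ 5 := by field_simp
        _ ≤ 128 * R * u := by gcongr
    have e4 : 64 * n * R * H * (u ^ 6 / 10) = 64 * R * H / 10 * u := by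
      calc 64 * n * R * H * (u ^ 6 / 10) = 64 * R * H / 10 * u * (u ^ 5 * n) := by ring
        _ = 64 * R * H / 10 * u := by rw [hu5, mul_one]
    have e5 : (128 / a₀) ^ (1 / 4 : ℝ) ≤ (128 / A) ^ (1 / 4 : ℝ) * u := by
      calc (128 / a₀) ^ (1 / 4 : ℝ) ≤ (128 / (A / u ^ 4)) ^ (1 / 4 : ℝ) := by
            refine Real.rpow_le_rpow (by positivity) ?_ (by norm_num)
            gcongr
        _ = (128 / A * u ^ 4) ^ (1 / 4 : ℝ) := by
            congr 1
            field_simp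
        _ = (128 / A) ^ (1 / 4 : ℝ) * (u ^ 4) ^ (1 / 4 : ℝ) :=
            Real.mul_rpow (by positivity) (by positivity)
        _ = (128 / A) ^ (1 / 4 : ℝ) * u := by
            congr 1
            rw [← Real.rpow_natCast, ← Real.rpow_mul hu0.le]
            norm_num
    rw [e1, e4]
    have : 0 ≤ 2 * u := by positivity
    nlinarith [e2, e3, e5]

end Pool.Agent.H756.RP
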