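import Pool.Agent.H756.RP.Geo
import Pool.Graph.R_seed8.H832R2.JR.Defs

set_option autoImplicit false

/-!
# The knot diagram of a closed polygon
-/

namespace Pool.Agent.H756.RP

open LaurentPolynomial Pool.Agent.H832R2.JR

variable {n : ℕ}

/-- `G` and `w` are the Gauss word and the signs of the knot diagram which is the projection of the
closed polygon with the vertices `p`: there are edges `a x` and parameters `t x` for the passages `x`
of the crossings, such that

* the passages are interior points of edges, and the two passages of a crossing have the same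
  projection;
* any two different points of the polygon with the same projection are the two passages of a
  crossing;
* `G` numbers the passages in the order in which they are met;
* at a crossing the projections of the edges are not parallel, the heights are different, and
  the crossing is positive (`w c = true`) if and only if (the direction of the upper strand,
  the direction of the lower strand) is a positive frame of the plane. -/
def Describes (p : Fin n → Pt) {N : ℕ} (G : GaussWord N) (w : Fin N → Bool) : Prop :=
  ∃ (a : Fin N × Bool → Fin n) (t : Fin N × Bool → ℝ),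
    (∀ x, 0 < t x ∧ t x < 1) ∧
    (∀ c, (ept p (a (c, false)) (t (c, false))).1 = (ept p (a (c, true)) (t (c, true))).1 ∧
      (ept p (a (c, false)) (t (c, false))).2.1 = (ept p (a (c, true)) (t (c, true))).2.1) ∧
    (∀ (i j : Fin n) (s r : ℝ), 0 ≤ s → s < 1 → 0 ≤ r → r < 1 → (i, s) ≠ (j, r) →
      (ept p i s).1 = (ept p j r).1 → (ept p i s).2.1 = (ept p j r).2.1 →
      ∃ c b, a (c, b) = i ∧ t (c, b) = s ∧ a (c, !b) = j ∧ t (c, !b) = r) ∧
    (∀ x y, G x < G y ↔ a x < a y ∨ (a x = a y ∧ t x < t y)) ∧
    ∀ c, det p (a (c, false)) (a (c, true)) ≠ 0 ∧
      (ept p (a (c, false)) (t (c, false))).2.2 ≠ (ept p (a (c, true)) (t (c, true))).2.2 ∧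
      (w c = true ↔ (0 < det p (a (c, false)) (a (c, true)) ↔
        (ept p (a (c, true)) (t (c, true))).2.2 < (ept p (a (c, false)) (t (c, false))).2.2))

/-- The passages of the crossings are the pairs `(i, j)` of crossing edges (the passage on the edge
`i` of its crossing with `j`); `e` is a numbering of the crossings and their passages, and `G` gives
the positions of the passages. -/
def IsWord (X : Fin n → Fin n → Bool) (O : Fin n → Fin n → Fin n → Bool) {N : ℕ}
    (G : GaussWord N) (e : Fin N × Bool → Fin n × Fin n) : Prop :=
  (∀ x, X (e x).1 (e x).2 = true) ∧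
  (∀ c, e (c, true) = (e (c, false)).swap) ∧
  (∀ i j, X i j = true → ∃ x, e x = (i, j)) ∧
  ∀ x y, G x < G y ↔ (e x).1 < (e y).1 ∨ ((e x).1 = (e y).1 ∧ O (e x).1 (e x).2 (e y).2 = true)

open Classical in
/-- the normalised bracket, computed from the finite data -/
noncomputable def pol (d : Dat n) : ℤ[T;T⁻¹] :=
  if h : ∃ (N : ℕ) (G : GaussWord N) (e : Fin N × Bool → Fin n × Fin n), IsWord d.1 d.2.1 G e then
    fPoly h.choose_spec.choose
      (fun c => d.2.2 (h.choose_spec.choose_spec.choose (c, false)).1
        (h.choose_spec.choose_spec.choose (c, false)).2)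
  else 0

end Pool.Agent.H756.RP
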