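import Pool.Agent.H756.RP.Defs
import Pool.Graph.R_pool_sql_team_seeded_843ab51a.H239.CS.Main
import Pool.Graph.R_seed8.W642.RV.Vas

set_option autoImplicit false

/-!
Changing the heights of some vertices: the number of the choices with a given second moment.
-/

namespace Pool.Agent.H756.RP

open Finset Function LaurentPolynomial Pool.Agent.H832R2.JR Pool.Agent.H239.CS
open Pool.Agent.H832R3.VJ (moment)

variable {n : ℕ}

theorem det_swap (p : Fin n → Pt) (i j : Fin n) : det p j i = -det p i j := by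
  unfold det
  ring

theorem gap_swap (p : Fin n → Pt) (i j : Fin n) : gap p j i = -gap p i j := by
  unfold gap
  ring

theorem Cr_swap {p : Fin n → Pt} {i j : Fin n} (h : Cr p i j) : Cr p j i :=
  ⟨by rw [det_swap]; exact neg_ne_zero.2 h.1, h.2.2, h.2.1⟩

/-- the increase of the height -/
def inc (J : Finset (Fin n)) (δ : ℝ) (ε : Fin n → Bool) (i : Fin n) : ℝ :=
  if i ∈ J ∧ ε i = true then δ else 0

theorem shift_x (p : Fin n → Pt) (J : Finset (Fin n)) (δ : ℝ) (ε : Fin n → Bool) (i : Fin n) :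
    (shift p J δ ε i).1 = (p i).1 := by
  unfold shift
  split_ifs <;> rfl

theorem shift_y (p : Fin n → Pt) (J : Finset (Fin n)) (δ : ℝ) (ε : Fin n → Bool) (i : Fin n) :
    (shift p J δ ε i).2.1 = (p i).2.1 := by
  unfold shift
  split_ifs <;> rfl

theorem shift_z (p : Fin n → Pt) (J : Finset (Fin n)) (δ : ℝ) (ε : Fin n → Bool) (i : Fin n) :
    (shift p J δ ε i).2.2 = (p i).2.2 + inc J δ ε i := by
  unfold shift inc
  split_ifs
  · rfl
  · rw [add_zero]

theorem det_shift (p : Fin n → Pt) (J : Finset (Fin n)) (δ : ℝ) (ε : Fin n → Bool) (i j : Fin n) :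
    det (shift p J δ ε) i j = det p i j := by
  unfold det
  simp only [shift_x, shift_y]

theorem par_shift (p : Fin n → Pt) (J : Finset (Fin n)) (δ : ℝ) (ε : Fin n → Bool) (i j : Fin n) :
    par (shift p J δ ε) i j = par p i j := by
  unfold par
  simp only [shift_x, shift_y, det_shift]

theorem Cr_shift (p : Fin n → Pt) (J : Finset (Fin n)) (δ : ℝ) (ε : Fin n → Bool) (i j : Fin n) :
    Cr (shift p J δ ε) i j ↔ Cr p i j := by
  unfold Cr
  simp only [det_shift, par_shift]

theorem gap_shift (p : Fin n → Pt) (J : Finset (Fin n)) (δ : ℝ) (ε : Fin n → Bool) (i j : Fin n) :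
    gap (shift p J δ ε) i j = gap p i j +
      ((1 - par p i j) * inc J δ ε i + par p i j * inc J δ ε (nx i) -
        ((1 - par p j i) * inc J δ ε j + par p j i * inc J δ ε (nx j))) := by
  unfold gap hgt
  simp only [shift_z, par_shift]
  ring

theorem inc_bd (J : Finset (Fin n)) {δ : ℝ} (hδ : 0 < δ) (ε : Fin n → Bool) (i : Fin n) :
    0 ≤ inc J δ ε i ∧ inc J δ ε i ≤ δ := by
  unfold inc
  split_ifs
  · exact ⟨hδ.le, le_rfl⟩
  · exact ⟨le_rfl, hδ.le⟩

/-- the gap changes by at most `2 δ`; in fact by at most `δ` in each direction -/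
theorem gap_shift_bd (p : Fin n → Pt) (J : Finset (Fin n)) {δ : ℝ} (hδ : 0 < δ) (ε : Fin n → Bool)
    (i j : Fin n) (h : Cr p i j) : |gap (shift p J δ ε) i j - gap p i j| ≤ δ := by
  rw [gap_shift]
  obtain ⟨_, ⟨h1, h2⟩, h3, h4⟩ := h
  obtain ⟨a1, a2⟩ := inc_bd J hδ ε i
  obtain ⟨b1, b2⟩ := inc_bd J hδ ε (nx i)
  obtain ⟨c1, c2⟩ := inc_bd J hδ ε j
  obtain ⟨d1, d2⟩ := inc_bd J hδ ε (nx j)
  rw [abs_le]
  constructor
  · nlinarith [mul_nonneg (sub_nonneg.2 h2.le) a1, mul_nonneg h1.le b1,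
      mul_nonneg (sub_nonneg.2 h4.le) (sub_nonneg.2 c2), mul_nonneg h3.le (sub_nonneg.2 d2)]
  · nlinarith [mul_nonneg (sub_nonneg.2 h4.le) c1, mul_nonneg h3.le d1,
      mul_nonneg (sub_nonneg.2 h2.le) (sub_nonneg.2 a2), mul_nonneg h1.le (sub_nonneg.2 b2)]

open Classical in
theorem dat_shift (p : Fin n → Pt) (J : Finset (Fin n)) (δ : ℝ) (ε : Fin n → Bool) :
    dat (shift p J δ ε) = ((dat p).1, (dat p).2.1,
      fun i j => decide (0 < det p i j * gap (shift p J δ ε) i j)) := by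
  unfold dat
  refine Prod.ext ?_ (Prod.ext ?_ ?_)
  · funext i j
    exact decide_eq_decide.2 (Cr_shift p J δ ε i j)
  · funext i j k
    simp only [par_shift]
  · funext i j
    simp only [det_shift]

theorem pol_eq (X : Fin n → Fin n → Bool) (O : Fin n → Fin n → Fin n → Bool)
    (h : ∃ (N : ℕ) (G : GaussWord N) (e : Fin N × Bool → Fin n × Fin n), IsWord X O G e) :
    ∃ (N : ℕ) (G : GaussWord N) (e : Fin N × Bool → Fin n × Fin n), IsWord X O G e ∧
      ∀ s, pol (X, O, s) = fPoly G (fun c => s (e (c, false)).1 (e (c, false)).2) :=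
  ⟨h.choose, h.choose_spec.choose, h.choose_spec.choose_spec.choose,
    h.choose_spec.choose_spec.choose_spec, fun _ => dif_pos h⟩

end Pool.Agent.H756.RP
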