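import Pool.Agent.H756.RP.Flip

set_option autoImplicit false

/-!
The number of the choices with a given second moment.
-/

namespace Pool.Agent.H756.RP

open Finset Function LaurentPolynomial Pool.Agent.H832R2.JR Pool.Agent.H239.CS
open Pool.Agent.H832R3.VJ (moment)

variable {n N : ℕ}

/-- the word is injective -/
theorem word_inj {p : Fin n → Pt} {G : GaussWord N} {e : Fin N × Bool → Fin n × Fin n}
    (h : IsWord (dat p).1 (dat p).2.1 G e) : Injective e := by
  have hO : ∀ i j, (dat p).2.1 i j j = false := by
    intro i j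
    unfold dat
    simp
  have key : ∀ x y, e x = e y → ¬ G x < G y := by
    intro x y hxy hlt
    rw [h.2.2.2 x y, hxy, hO] at hlt
    rcases hlt with h1 | ⟨_, h1⟩
    · exact lt_irrefl _ h1
    · exact absurd h1 (by simp)
  intro x y hxy
  apply G.injective
  exact le_antisymm (not_lt.1 (key y x hxy.symm)) (not_lt.1 (key x y hxy))

theorem word_swap {X : Fin n → Fin n → Bool} {O : Fin n → Fin n → Fin n → Bool} {G : GaussWord N}
    {e : Fin N × Bool → Fin n × Fin n} (h : IsWord X O G e) (c : Fin N) (b : Bool) :
    e (c, !b) = (e (c, b)).swap := by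
  cases b
  · exact h.2.1 c
  · rw [Bool.not_true, h.2.1 c, Prod.swap_swap]

/-- a label for every crossing pair -/
theorem exists_label {X : Fin n → Fin n → Bool} {O : Fin n → Fin n → Fin n → Bool}
    {G : GaussWord N} {e : Fin N × Bool → Fin n × Fin n} (h : IsWord X O G e) (i j : Fin n)
    (hij : X i j = true) : ∃ (c : Fin N) (b : Bool), e (c, b) = (i, j) ∧ e (c, !b) = (j, i) := by
  obtain ⟨⟨c, b⟩, hx⟩ := h.2.2.1 i j hij
  refine ⟨c, b, hx, ?_⟩
  rw [word_swap h, hx]
  rfl

/-- exchanging the roles of some coordinates of two Boolean functions -/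
theorem swap_count {α β : Type} [Fintype α] [DecidableEq α] [Fintype β] [DecidableEq β]
    (C : Finset α) (lab : α → β) (hlab : Set.InjOn lab C) (d : α → Bool)
    (P : (α → Bool) → Prop) [DecidablePred P] :
    ∑ ε : α → Bool, (univ.filter fun x : β → Bool =>
      P (fun i => if i ∈ C then (d i == x (lab i)) else ε i)).card =
      (univ.filter P).card * 2 ^ Fintype.card β := by
  classical
  -- the involution
  let Ψ : (α → Bool) × (β → Bool) → (α → Bool) × (β → Bool) := fun z =>
    (fun i => if i ∈ C then (d i == z.2 (lab i)) else z.1 i,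
      fun c => if h : ∃ i ∈ C, lab i = c then (d h.choose == z.1 h.choose) else z.2 c)
  have hch : ∀ i ∈ C, ∀ h : ∃ j ∈ C, lab j = lab i, h.choose = i := fun i hi h =>
    hlab h.choose_spec.1 hi h.choose_spec.2
  have hbb : ∀ a b : Bool, (a == (a == b)) = b := by decide
  have hΨ : Involutive Ψ := by
    rintro ⟨ε, x⟩
    refine Prod.ext ?_ ?_
    · funext i
      show (if i ∈ C then _ else _) = ε i
      by_cases hi : i ∈ C
      · rw [if_pos hi]
        have h : ∃ j ∈ C, lab j = lab i := ⟨i, hi, rfl⟩
        show (d i == (if h : ∃ j ∈ C, lab j = lab i then (d h.choose == ε h.choose) else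
          x (lab i))) = ε i
        rw [dif_pos h, hch i hi h, hbb]
      · rw [if_neg hi]
        show (if i ∈ C then _ else ε i) = ε i
        rw [if_neg hi]
    · funext c
      show (if h : ∃ i ∈ C, lab i = c then _ else _) = x c
      by_cases h : ∃ i ∈ C, lab i = c
      · rw [dif_pos h]
        show (d h.choose == (if h.choose ∈ C then (d h.choose == x (lab h.choose)) else
          ε h.choose)) = x c
        rw [if_pos h.choose_spec.1, hbb, h.choose_spec.2]
      · rw [dif_neg h]
        show (if h : ∃ i ∈ C, lab i = c then _ else x c) = x c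
        rw [dif_neg h]
  have h1 : ∑ ε : α → Bool, (univ.filter fun x : β → Bool =>
      P (fun i => if i ∈ C then (d i == x (lab i)) else ε i)).card =
      (univ.filter fun z : (α → Bool) × (β → Bool) => P (Ψ z).1).card := by
    rw [card_filter, Fintype.sum_prod_type]
    refine sum_congr rfl fun ε _ => ?_
    rw [card_filter]
  have h2 : (univ.filter fun z : (α → Bool) × (β → Bool) => P (Ψ z).1).card =
      (univ.filter fun z : (α → Bool) × (β → Bool) => P z.1).card := by
    refine card_bij (fun z _ => Ψ z) ?_ ?_ ?_
    · intro z hz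
      rw [mem_filter] at hz ⊢
      exact ⟨mem_univ _, hz.2⟩
    · intro z _ z' _ h
      exact hΨ.injective h
    · intro z hz
      refine ⟨Ψ z, ?_, hΨ z⟩
      rw [mem_filter] at hz ⊢
      rw [hΨ z]
      exact ⟨mem_univ _, hz.2⟩
  have h3 : (univ.filter fun z : (α → Bool) × (β → Bool) => P z.1) =
      (univ.filter P) ×ˢ (univ : Finset (β → Bool)) := by
    ext z
    simp
  rw [h1, h2, h3, card_product]
  congr 1
  simp

end Pool.Agent.H756.RP
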