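import Pool.Agent.H756.RP.Flip2

set_option autoImplicit false

/-!
The number of the choices with a given second moment.
-/

namespace Pool.Agent.H756.RP

open Finset Function LaurentPolynomial Pool.Agent.H832R2.JR Pool.Agent.H239.CS
open Pool.Agent.H832R3.VJ (moment)

variable {n N : ℕ}

theorem btw_comm (a b x : ℕ) : Pool.Agent.H832R2.JR.Btw a b x ↔ Pool.Agent.H832R2.JR.Btw b a x := by
  unfold Pool.Agent.H832R2.JR.Btw
  tauto

/-- two chords with alternating ends cross -/
theorem crosses_of (G : GaussWord N) (c d : Fin N) (b b' : Bool) (h1 : G (c, b) < G (d, b'))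
    (h2 : G (d, b') < G (c, !b)) (h3 : G (c, !b) < G (d, !b')) : Crosses G c d := by
  rw [Fin.lt_def] at h1 h2 h3
  unfold Crosses
  have e : ∀ x : ℕ, Pool.Agent.H832R2.JR.Btw (G (c, false)) (G (c, true)) x ↔ Pool.Agent.H832R2.JR.Btw (G (c, b)) (G (c, !b)) x := by
    intro x
    cases b
    · rfl
    · exact btw_comm _ _ _
  rw [e, e]
  have i1 : Pool.Agent.H832R2.JR.Btw (G (c, b)) (G (c, !b)) (G (d, b')) := Or.inl ⟨h1, h2⟩
  have i2 : ¬ Pool.Agent.H832R2.JR.Btw (G (c, b)) (G (c, !b)) (G (d, !b')) := by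
    unfold Pool.Agent.H832R2.JR.Btw
    omega
  cases b'
  · rw [Bool.not_false] at i2
    tauto
  · rw [Bool.not_true] at i2
    tauto

theorem Sharp.union {p : Fin n → Pt} {J : Finset (Fin n)} {δ : ℝ} {C₁ C₂ : Finset (Fin n)}
    {k : Fin n → Fin n} (h1 : Sharp p J δ C₁ k) (h2 : Sharp p J δ C₂ k) :
    Sharp p J δ (C₁ ∪ C₂) k := by
  refine ⟨union_subset h1.sub h2.sub, ?_, ?_, ?_, ?_, ?_, ?_, ?_⟩ <;> intro i hi <;>
    rcases mem_union.1 hi with h | h
  · exact h1.cross i h
  · exact h2.cross i h
  · exact h1.neg i h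
  · exact h2.neg i h
  · exact h1.pos i h
  · exact h2.pos i h
  · exact h1.nxi i h
  · exact h2.nxi i h
  · exact h1.ki i h
  · exact h2.ki i h
  · exact h1.nxk i h
  · exact h2.nxk i h
  · exact h1.rob i h
  · exact h2.rob i h

open Classical in
/-- the sign of the crossing of two edges after the change of the heights -/
noncomputable def SG (p : Fin n → Pt) (J : Finset (Fin n)) (δ : ℝ) (ε : Fin n → Bool)
    (i j : Fin n) : Bool := decide (0 < det p i j * gap (shift p J δ ε) i j)

theorem SG_swap (p : Fin n → Pt) (J : Finset (Fin n)) (δ : ℝ) (ε : Fin n → Bool) (i j : Fin n) :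
    SG p J δ ε j i = SG p J δ ε i j := by
  unfold SG
  rw [det_swap p i j, gap_swap (shift p J δ ε) i j, neg_mul_neg]

open Classical in
/-- the sign of the sharp crossing -/
theorem SG_sharp {p : Fin n → Pt} {J : Finset (Fin n)} {δ : ℝ} {C : Finset (Fin n)}
    {k : Fin n → Fin n} (h : Sharp p J δ C k) (ε : Fin n → Bool) (i : Fin n) (hi : i ∈ C) :
    SG p J δ ε i (k i) = (decide (0 < det p i (k i)) == ε i) := by
  have e1 : inc J δ ε (nx i) = 0 := if_neg fun hh => h.nxi i hi hh.1
  have e2 : inc J δ ε (k i) = 0 := if_neg fun hh => h.ki i hi hh.1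
  have e3 : inc J δ ε (nx (k i)) = 0 := if_neg fun hh => h.nxk i hi hh.1
  have e4 : gap (shift p J δ ε) i (k i) =
      gap p i (k i) + (1 - par p i (k i)) * inc J δ ε i := by
    rw [gap_shift, e1, e2, e3]
    ring
  have hneg := h.neg i hi
  have hpos := h.pos i hi
  have hdet := (h.cross i hi).1
  unfold SG
  rw [e4]
  cases hε : ε i
  · have e5 : inc J δ ε i = 0 := if_neg fun hh => by
      rw [hε] at hh
      exact absurd hh.2 (by simp)
    rw [e5, mul_zero, add_zero]
    have h1 : (0 < det p i (k i) * gap p i (k i)) ↔ ¬ 0 < det p i (k i) := by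
      rcases lt_or_gt_of_ne hdet with h2 | h2
      · exact ⟨fun _ => not_lt.2 h2.le, fun _ => mul_pos_of_neg_of_neg h2 hneg⟩
      · exact ⟨fun h3 => absurd (mul_neg_of_pos_of_neg h2 hneg) (not_lt.2 h3.le),
          fun h3 => absurd h2 h3⟩
    by_cases h3 : 0 < det p i (k i)
    · rw [decide_eq_false (fun hh => h1.1 hh h3), decide_eq_true h3]
      rfl
    · rw [decide_eq_true (h1.2 h3), decide_eq_false h3]
      rfl
  · have e5 : inc J δ ε i = δ := if_pos ⟨h.sub hi, hε⟩
    rw [e5]
    have h1 : (0 < det p i (k i) * (gap p i (k i) + (1 - par p i (k i)) * δ)) ↔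
        0 < det p i (k i) := mul_pos_iff_of_pos_right hpos
    by_cases h3 : 0 < det p i (k i)
    · rw [decide_eq_true (h1.2 h3), decide_eq_true h3]
      rfl
    · rw [decide_eq_false (fun hh => h3 (h1.1 hh)), decide_eq_false h3]
      rfl

/-- the other signs do not depend on the heights of the vertices in `C` -/
theorem SG_other {p : Fin n → Pt} {J : Finset (Fin n)} {δ : ℝ} (hδ : 0 < δ) {C : Finset (Fin n)}
    {k : Fin n → Fin n} (h : Sharp p J δ C k) (ε ε' : Fin n → Bool)
    (hε : ∀ i, i ∉ C → ε i = ε' i) (a b : Fin n) (hab : Cr p a b)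
    (h1 : ∀ i ∈ C, (a, b) ≠ (i, k i) ∧ (b, a) ≠ (i, k i)) :
    SG p J δ ε a b = SG p J δ ε' a b := by
  classical
  by_cases hex : ∃ j ∈ C, (a = j ∨ nx a = j) ∨ (b = j ∨ nx b = j)
  · have hrob : 2 * δ < |gap p a b| := by
      obtain ⟨j, hj, h2 | h2⟩ := hex
      · exact h.rob j hj a b h2 hab (h1 j hj).1
      · have := h.rob j hj b a h2 (Cr_swap hab) (h1 j hj).2
        rwa [gap_swap, abs_neg] at this
    have key : ∀ ε : Fin n → Bool, (0 < det p a b * gap (shift p J δ ε) a b ↔
        0 < det p a b * gap p a b) := by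
      intro ε
      have h3 := gap_shift_bd p J hδ ε a b hab
      rw [abs_le] at h3
      rcases lt_abs.1 hrob with h4 | h4
      · rw [mul_pos_iff_of_pos_right (by linarith), mul_pos_iff_of_pos_right (by linarith)]
      · have h5 : gap (shift p J δ ε) a b < 0 := by linarith
        have h6 : gap p a b < 0 := by linarith
        constructor
        · intro h7
          exact mul_pos_of_neg_of_neg (by
            by_contra h8
            exact absurd h7 (not_lt.2 (mul_nonpos_of_nonneg_of_nonpos (not_lt.1 h8) h5.le))) h6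
        · intro h7
          exact mul_pos_of_neg_of_neg (by
            by_contra h8
            exact absurd h7 (not_lt.2 (mul_nonpos_of_nonneg_of_nonpos (not_lt.1 h8) h6.le))) h5
    unfold SG
    exact decide_eq_decide.2 ((key ε).trans (key ε').symm)
  · push Not at hex
    have hinc : ∀ v, v ∉ C → inc J δ ε v = inc J δ ε' v := by
      intro v hv
      unfold inc
      rw [hε v hv]
    have e : gap (shift p J δ ε) a b = gap (shift p J δ ε') a b := by
      rw [gap_shift, gap_shift, hinc a (fun hc => (hex a hc).1.1 rfl),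
        hinc (nx a) (fun hc => (hex _ hc).1.2 rfl), hinc b (fun hc => (hex b hc).2.1 rfl),
        hinc (nx b) (fun hc => (hex _ hc).2.2 rfl)]
    unfold SG
    rw [e]

end Pool.Agent.H756.RP
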