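import Pool.Agent.H756.RP.Flip3

set_option autoImplicit false

/-!
The number of the choices with a given second moment: the bound.
-/

namespace Pool.Agent.H756.RP

open Finset Function LaurentPolynomial Pool.Agent.H832R2.JR Pool.Agent.H239.CS
open Pool.Agent.H832R3.VJ (moment)

variable {n N : ℕ}

open Classical in
theorem flip_count (p : Fin n → Pt) (J : Finset (Fin n)) {δ : ℝ} (hδ : 0 < δ)
    (C₁ C₂ : Finset (Fin n)) (k : Fin n → Fin n) (h1 : Sharp p J δ C₁ k) (h2 : Sharp p J δ C₂ k)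
    (hpos : ∀ i ∈ C₁, ∀ j ∈ C₂, i < j ∧ j < k i ∧ k i < k j)
    (hw : ∃ (N : ℕ) (G : GaussWord N) (e : Fin N × Bool → Fin n × Fin n),
      IsWord (dat p).1 (dat p).2.1 G e)
    (M : ℕ) (hM1 : M ≤ C₁.card) (hM2 : M ≤ C₂.card) (c : ℤ) :
    M * (univ.filter fun ε : Fin n → Bool =>
      moment 2 (pol (dat (shift p J δ ε))) = c).card ^ 4 ≤ 32 * (2 ^ n) ^ 4 := by
  rcases Nat.eq_zero_or_pos M with rfl | hM
  · rw [zero_mul]
    exact Nat.zero_le _
  obtain ⟨N, G, e, hW, hpol⟩ := pol_eq _ _ hw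
  have h := h1.union h2
  set C := C₁ ∪ C₂ with hC
  -- labels
  have hX : ∀ i j, Cr p i j → (dat p).1 i j = true := fun i j hij => decide_eq_true hij
  have hX' : ∀ i j, (dat p).1 i j = true → Cr p i j := fun i j hij => of_decide_eq_true hij
  have hne : Nonempty (Fin N × Bool) := by
    obtain ⟨i, hi⟩ := card_pos.1 (lt_of_lt_of_le hM hM1)
    obtain ⟨c, b, _⟩ := exists_label hW i (k i) (hX _ _ (h1.cross i hi))
    exact ⟨(c, b)⟩
  have hlab : ∀ i, ∃ z : Fin N × Bool, i ∈ C → e (z.1, z.2) = (i, k i) ∧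
      e (z.1, !z.2) = (k i, i) := by
    intro i
    by_cases hi : i ∈ C
    · obtain ⟨c, b, hcb⟩ := exists_label hW i (k i) (hX _ _ (h.cross i hi))
      exact ⟨(c, b), fun _ => hcb⟩
    · exact ⟨Classical.arbitrary _, fun hh => absurd hh hi⟩
  choose z hz using hlab
  set lab : Fin n → Fin N := fun i => (z i).1 with hlabd
  have hinj := word_inj hW
  have hlabinj : ∀ i ∈ C, ∀ j ∈ C, lab i = lab j → i = j := by
    intro i hi j hj hij
    have e1 := hz i hi
    have e2 := hz j hj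
    have e3 : (z i).1 = (z j).1 := hij
    rcases Bool.eq_or_eq_not (z i).2 (z j).2 with h3 | h3
    · rw [← e3, ← h3, e1.1] at e2
      exact (Prod.ext_iff.1 e2.1).1
    · exfalso
      rw [← e3] at e2
      have h4 : e ((z i).1, (z i).2) = (k j, j) := by
        rw [h3]
        exact e2.2
      rw [e1.1] at h4
      have h5 : i = k j := (Prod.ext_iff.1 h4).1
      exact h.ki j hj (h5 ▸ h.sub hi)
  set d : Fin n → Bool := fun i => decide (0 < det p i (k i)) with hd
  -- the signs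
  set w : (Fin n → Bool) → Fin N → Bool := fun ε c =>
    SG p J δ ε (e (c, false)).1 (e (c, false)).2 with hwd
  have hwb : ∀ ε c b, w ε c = SG p J δ ε (e (c, b)).1 (e (c, b)).2 := by
    intro ε c b
    cases b
    · rfl
    · rw [hW.2.1 c]
      exact (SG_swap p J δ ε _ _).symm
  have hpolw : ∀ ε, pol (dat (shift p J δ ε)) = fPoly G (w ε) := by
    intro ε
    rw [dat_shift, hpol]
    rfl
  set pC : Fin N → Prop := fun c => ∃ i ∈ C, lab i = c with hpC
  set mod : (Fin n → Bool) → (Fin N → Bool) → Fin n → Bool := fun ε x i =>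
    if i ∈ C then (d i == x (lab i)) else ε i with hmod
  have hbb : ∀ a b : Bool, (a == (a == b)) = b := by decide
  have hmix : ∀ ε x, w (mod ε x) = mix pC x (w ε) := by
    intro ε x
    funext c
    unfold mix
    by_cases hc : pC c
    · rw [if_pos hc]
      obtain ⟨i, hi, rfl⟩ := hc
      rw [hwb _ _ (z i).2, (hz i hi).1, SG_sharp h _ i hi]
      have e1 : mod ε x i = (d i == x (lab i)) := if_pos hi
      rw [e1]
      exact hbb _ _
    · rw [if_neg hc]
      refine SG_other hδ h _ _ ?_ _ _ (hX' _ _ (hW.1 (c, false))) ?_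
      · intro i hi
        exact if_neg hi
      · intro i hi
        constructor
        · intro h3
          apply hc
          refine ⟨i, hi, ?_⟩
          have h4 : e (c, false) = e ((z i).1, (z i).2) := by
            rw [(hz i hi).1, ← h3]
          exact (Prod.ext_iff.1 (hinj h4)).1.symm
        · intro h3
          apply hc
          refine ⟨i, hi, ?_⟩
          have h4 : e (c, true) = e ((z i).1, (z i).2) := by
            rw [(hz i hi).1, ← h3, hW.2.1 c]
            rfl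
          exact (Prod.ext_iff.1 (hinj h4)).1.symm
  -- the matching
  obtain ⟨t₁, ht₁, hc₁⟩ := exists_subset_card_eq hM1
  obtain ⟨t₂, ht₂, hc₂⟩ := exists_subset_card_eq hM2
  set f₁ : Fin M → Fin n := fun r => ((t₁.equivFinOfCardEq hc₁).symm r : Fin n) with hf₁
  set f₂ : Fin M → Fin n := fun r => ((t₂.equivFinOfCardEq hc₂).symm r : Fin n) with hf₂
  have hm₁ : ∀ r, f₁ r ∈ C₁ := fun r => ht₁ ((t₁.equivFinOfCardEq hc₁).symm r).2
  have hm₂ : ∀ r, f₂ r ∈ C₂ := fun r => ht₂ ((t₂.equivFinOfCardEq hc₂).symm r).2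
  have hmC₁ : ∀ r, f₁ r ∈ C := fun r => mem_union_left _ (hm₁ r)
  have hmC₂ : ∀ r, f₂ r ∈ C := fun r => mem_union_right _ (hm₂ r)
  have hi₁ : Injective f₁ := fun r r' hr => by
    apply (t₁.equivFinOfCardEq hc₁).symm.injective
    exact Subtype.ext hr
  have hi₂ : Injective f₂ := fun r r' hr => by
    apply (t₂.equivFinOfCardEq hc₂).symm.injective
    exact Subtype.ext hr
  have huv : Injective (Sum.elim (fun r => lab (f₁ r)) (fun r => lab (f₂ r))) := by
    refine Injective.sumElim ?_ ?_ ?_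
    · intro r r' hr
      exact hi₁ (hlabinj _ (hmC₁ r) _ (hmC₁ r') hr)
    · intro r r' hr
      exact hi₂ (hlabinj _ (hmC₂ r) _ (hmC₂ r') hr)
    · intro r r' hr
      have h3 := hlabinj _ (hmC₁ r) _ (hmC₂ r') hr
      have h4 := (hpos _ (hm₁ r) _ (hm₂ r')).1
      exact absurd h3 (ne_of_lt h4)
  have hcross : ∀ r, adjm G (lab (f₁ r)) (lab (f₂ r)) ≠ 0 := by
    intro r
    apply adjm_ne
    obtain ⟨q1, q2, q3⟩ := hpos _ (hm₁ r) _ (hm₂ r)
    have a1 := hz _ (hmC₁ r)
    have a2 := hz _ (hmC₂ r)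
    have hlt : ∀ x y, (e x).1 < (e y).1 → G x < G y := fun x y hxy =>
      (hW.2.2.2 x y).2 (Or.inl hxy)
    refine crosses_of G _ _ (z (f₁ r)).2 (z (f₂ r)).2 ?_ ?_ ?_
    · apply hlt
      show (e ((z (f₁ r)).1, (z (f₁ r)).2)).1 < (e ((z (f₂ r)).1, (z (f₂ r)).2)).1
      rw [a1.1, a2.1]
      exact q1
    · apply hlt
      show (e ((z (f₂ r)).1, (z (f₂ r)).2)).1 < (e ((z (f₁ r)).1, !(z (f₁ r)).2)).1
      rw [a1.2, a2.1]
      exact q2
    · apply hlt
      show (e ((z (f₁ r)).1, !(z (f₁ r)).2)).1 < (e ((z (f₂ r)).1, !(z (f₂ r)).2)).1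
      rw [a1.2, a2.2]
      exact q3
  -- the count for a fixed ε
  obtain ⟨i₀, hi₀⟩ := card_pos.1 (lt_of_lt_of_le hM hM1)
  obtain ⟨K, hK⟩ := second_moment G (lab i₀)
  set P : (Fin n → Bool) → Prop := fun ε => moment 2 (pol (dat (shift p J δ ε))) = c with hP
  have hcnt : ∀ ε, M * (univ.filter fun x : Fin N → Bool => P (mod ε x)).card ^ 4 ≤
      32 * (2 ^ N) ^ 4 := by
    intro ε
    refine le_trans ?_ (qlo_rel (adjm G) (adjm_symm G) pC (w ε) (fun r => lab (f₁ r))
      (fun r => lab (f₂ r)) huv hcross (fun r => ⟨⟨_, hmC₁ r, rfl⟩, ⟨_, hmC₂ r, rfl⟩⟩)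
      ((K - c) / 12))
    refine Nat.mul_le_mul_left _ (Nat.pow_le_pow_left (card_le_card ?_) 4)
    intro x hx
    rw [mem_filter] at hx ⊢
    refine ⟨mem_univ _, ?_⟩
    have h3 : moment 2 (pol (dat (shift p J δ (mod ε x)))) = c := hx.2
    rw [hpolw, hmix, ← Pool.Agent.W642.RV.rho_moment, hK] at h3
    omega
  -- the sum over all ε
  have hsum := swap_count C lab (fun i hi j hj hij => hlabinj i hi j hj hij) d P
  rw [Fintype.card_fin] at hsum
  obtain ⟨ε₀, _, hε₀⟩ := exists_max_image (univ : Finset (Fin n → Bool))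
    (fun ε => (univ.filter fun x : Fin N → Bool => P (mod ε x)).card) univ_nonempty
  have hle : (univ.filter P).card * 2 ^ N ≤
      2 ^ n * (univ.filter fun x : Fin N → Bool => P (mod ε₀ x)).card := by
    rw [← hsum]
    refine (sum_le_card_nsmul univ _ _ (fun ε _ => hε₀ ε (mem_univ ε))).trans ?_
    rw [smul_eq_mul]
    simp
  have h3 := hcnt ε₀
  have h4 : M * ((univ.filter P).card * 2 ^ N) ^ 4 ≤ 32 * (2 ^ n) ^ 4 * (2 ^ N) ^ 4 := by
    calc M * ((univ.filter P).card * 2 ^ N) ^ 4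
        ≤ M * (2 ^ n * (univ.filter fun x : Fin N → Bool => P (mod ε₀ x)).card) ^ 4 :=
          Nat.mul_le_mul_left _ (Nat.pow_le_pow_left hle 4)
      _ = (2 ^ n) ^ 4 * (M * (univ.filter fun x : Fin N → Bool => P (mod ε₀ x)).card ^ 4) := by
          ring
      _ ≤ (2 ^ n) ^ 4 * (32 * (2 ^ N) ^ 4) := Nat.mul_le_mul_left _ h3
      _ = _ := by ring
  have h5 : M * (univ.filter P).card ^ 4 * (2 ^ N) ^ 4 ≤ 32 * (2 ^ n) ^ 4 * (2 ^ N) ^ 4 := by
    calc M * (univ.filter P).card ^ 4 * (2 ^ N) ^ 4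
        = M * ((univ.filter P).card * 2 ^ N) ^ 4 := by ring
      _ ≤ _ := h4
  exact Nat.le_of_mul_le_mul_right h5 (by positivity)

end Pool.Agent.H756.RP
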