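import Mathlib

set_option autoImplicit false

/-!
# Closed polygons in space

A closed polygon is given by its vertices `p 0, ..., p (n - 1)`; it is projected along the third
coordinate.
-/

namespace Pool.Agent.H756.RP

open MeasureTheory

/-- points of space; the third coordinate is the height -/
abbrev Pt : Type := ℝ × ℝ × ℝ

variable {n : ℕ}

/-- the vertex after the vertex `i` -/
def nx (i : Fin n) : Fin n := finRotate n i

/-- the point with the parameter `s` on the edge from the vertex `i` to the next vertex -/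
def ept (p : Fin n → Pt) (i : Fin n) (s : ℝ) : Pt := (1 - s) • p i + s • p (nx i)

/-- the determinant of the directions of the projections of the edges `i` and `j` -/
def det (p : Fin n → Pt) (i j : Fin n) : ℝ :=
  ((p (nx i)).1 - (p i).1) * ((p (nx j)).2.1 - (p j).2.1) -
    ((p (nx i)).2.1 - (p i).2.1) * ((p (nx j)).1 - (p j).1)

/-! ## Crossings of edges -/

/-- the parameter on the edge `i` of the intersection of the lines of the edges `i` and `j` -/
noncomputable def par (p : Fin n → Pt) (i j : Fin n) : ℝ :=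
  (((p j).1 - (p i).1) * ((p (nx j)).2.1 - (p j).2.1) -
    ((p j).2.1 - (p i).2.1) * ((p (nx j)).1 - (p j).1)) / det p i j

/-- the projections of the edges `i` and `j` cross -/
def Cr (p : Fin n → Pt) (i j : Fin n) : Prop :=
  det p i j ≠ 0 ∧ (0 < par p i j ∧ par p i j < 1) ∧ 0 < par p j i ∧ par p j i < 1

/-- the height on the edge `i` -/
def hgt (p : Fin n → Pt) (i : Fin n) (s : ℝ) : ℝ := (1 - s) * (p i).2.2 + s * (p (nx i)).2.2

/-- the difference of the heights at the crossing of the edges `i` and `j` -/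
noncomputable def gap (p : Fin n → Pt) (i j : Fin n) : ℝ :=
  hgt p i (par p i j) - hgt p j (par p j i)

/-- the polygon is in general position with respect to the projection -/
structure Gen (p : Fin n → Pt) : Prop where
  noncol : ∀ i j k, i ≠ j → j ≠ k → i ≠ k →
    ((p j).1 - (p i).1) * ((p k).2.1 - (p i).2.1) -
      ((p j).2.1 - (p i).2.1) * ((p k).1 - (p i).1) ≠ 0
  notrip : ∀ i j k, Cr p i j → Cr p i k → j ≠ k → par p i j ≠ par p i k
  nogap : ∀ i j, Cr p i j → gap p i j ≠ 0

/-- finite data: which edges cross, the order of the crossings on every edge, the signs -/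
abbrev Dat (n : ℕ) : Type :=
  (Fin n → Fin n → Bool) × (Fin n → Fin n → Fin n → Bool) × (Fin n → Fin n → Bool)

open Classical in
/-- the finite data of a polygon -/
noncomputable def dat (p : Fin n → Pt) : Dat n :=
  (fun i j => decide (Cr p i j), fun i j k => decide (par p i j < par p i k),
    fun i j => decide (0 < det p i j * gap p i j))

/-! ## Changing heights -/

/-- the heights of the vertices `i ∈ J` with `ε i = true` are increased by `δ` -/
def shift (p : Fin n → Pt) (J : Finset (Fin n)) (δ : ℝ) (ε : Fin n → Bool) : Fin n → Pt :=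
  fun i => if i ∈ J ∧ ε i = true then ((p i).1, (p i).2.1, (p i).2.2 + δ) else p i

/-- for `i ∈ C`: if the height of the vertex `i` is increased by `δ`, then the edge `i` passes over
the edge `k i`, and no other crossing is changed; also not if the heights of other vertices in `J`
are increased by `δ`, too -/
structure Sharp (p : Fin n → Pt) (J : Finset (Fin n)) (δ : ℝ) (C : Finset (Fin n))
    (k : Fin n → Fin n) : Prop where
  sub : C ⊆ J
  cross : ∀ i ∈ C, Cr p i (k i)
  neg : ∀ i ∈ C, gap p i (k i) < 0
  pos : ∀ i ∈ C, 0 < gap p i (k i) + (1 - par p i (k i)) * δ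
  nxi : ∀ i ∈ C, nx i ∉ J
  ki : ∀ i ∈ C, k i ∉ J
  nxk : ∀ i ∈ C, nx (k i) ∉ J
  rob : ∀ i ∈ C, ∀ e f, (e = i ∨ nx e = i) → Cr p e f → (e, f) ≠ (i, k i) → 2 * δ < |gap p e f|

/-! ## Random vertices -/

/-- the unit cube -/
def cube : Set Pt := {p | (0 ≤ p.1 ∧ p.1 ≤ 1) ∧ (0 ≤ p.2.1 ∧ p.2.1 ≤ 1) ∧ 0 ≤ p.2.2 ∧ p.2.2 < 1}

/-- The law of a random vertex with a mark: the marked vertices are uniformly distributed in the unit
cube (with total mass `c₀`), the height has a bounded density in the weak sense `slab`, and vertical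
planes are null sets. -/
structure Law (κ : Measure (Pt × Bool)) (c₀ H : ℝ) : Prop where
  prob : IsProbabilityMeasure κ
  c_pos : 0 < c₀
  H_pos : 0 < H
  unif : ∀ E : Set Pt, MeasurableSet E →
    κ {y | y.2 = true ∧ y.1 ∈ E} = ENNReal.ofReal c₀ * volume (E ∩ cube)
  slab : ∀ τ : ℝ × ℝ → ℝ, Measurable τ → ∀ r : ℝ, 0 ≤ r →
    κ {y | |y.1.2.2 - τ (y.1.1, y.1.2.1)| ≤ r} ≤ ENNReal.ofReal (H * r)
  wall : ∀ a b c : ℝ, (a, b) ≠ (0, 0) → κ {y | a * y.1.1 + b * y.1.2.1 = c} = 0

/-- the translation of the height by `δ` modulo `1` for marked points of the cube -/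
noncomputable def tr (δ : ℝ) (y : Pt × Bool) : Pt × Bool :=
  open Classical in
  if y.2 = true ∧ 0 ≤ y.1.2.2 ∧ y.1.2.2 < 1 then
    ((y.1.1, y.1.2.1, if y.1.2.2 + δ < 1 then y.1.2.2 + δ else y.1.2.2 + δ - 1), true)
  else y

/-- the translation applied to the vertices `i ∈ I` with `ε i = true` -/
noncomputable def act (I : Finset (Fin n)) (δ : ℝ) (ε : Fin n → Bool) (ω : Fin n → Pt × Bool) :
    Fin n → Pt × Bool :=
  open Classical in
  fun i => if i ∈ I ∧ ε i = true then tr δ (ω i) else ω i

end Pool.Agent.H756.RP
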